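import Pool.Agent.Helper420.SC.Defs

set_option autoImplicit false

open MeasureTheory Set Filter Topology
open scoped ENNReal NNReal InnerProductSpace

namespace Pool.Agent.Helper420.SC

theorem baire {H : Type*} [NormedAddCommGroup H] [InnerProductSpace ℝ H] [CompleteSpace H]
    {S : ℝ → H → H} (hS : ∀ t : ℝ, 0 ≤ t → ∀ x y : H, ‖S t x - S t y‖ ≤ ‖x - y‖)
    (hyp : ∀ T R δ : ℝ, 0 < δ → ∃ e : H, ‖e‖ = 1 ∧ ∀ x : H, ‖x‖ ≤ R → ∀ t : ℝ, 0 ≤ t → t ≤ T →
      |inner ℝ (S t x - x) e| ≤ δ)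
    {ρ : ℝ → ℝ} (hρ : ∀ t, 0 ≤ t → 0 < ρ t) (hρ0 : Tendsto ρ atTop (𝓝 0)) :
    {x : H | ∀ C : ℝ, ∃ t : ℝ, 0 ≤ t ∧ C * ρ t < ‖S t x‖ ^ 2} ∈ residual H ∧
    Dense {x : H | ∀ C : ℝ, ∃ t : ℝ, 0 ≤ t ∧ C * ρ t < ‖S t x‖ ^ 2} := by
  have hcont : ∀ t : ℝ, 0 ≤ t → Continuous (S t) := by
    intro t ht
    refine (LipschitzWith.of_dist_le_mul (K := 1) fun x y => ?_).continuous
    simpa [dist_eq_norm] using hS t ht x y
  set F : ℕ → Set H := fun n => {x | ∀ t : ℝ, 0 ≤ t → ‖S t x‖ ^ 2 ≤ n * ρ t} with hF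
  have hclosed : ∀ n, IsClosed (F n) := by
    intro n
    have : F n = ⋂ t : {t : ℝ // 0 ≤ t}, {x | ‖S t x‖ ^ 2 ≤ n * ρ t} := by
      ext x
      rw [Set.mem_iInter]
      exact ⟨fun h t => h t.1 t.2, fun h t ht => h ⟨t, ht⟩⟩
    rw [this]
    refine isClosed_iInter fun t => ?_
    exact isClosed_le ((hcont t t.2).norm.pow 2) continuous_const
  have hint : ∀ n, interior (F n) = ∅ := by
    intro n
    by_contra hne
    obtain ⟨x0, hx0⟩ := Set.nonempty_iff_ne_empty.mpr hne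
    obtain ⟨r, hr, hball⟩ := Metric.isOpen_iff.mp isOpen_interior x0 hx0
    set ε := r / 2 with hε
    have hε0 : 0 < ε := by positivity
    have h1 : Tendsto (fun t => (n : ℝ) * ρ t) atTop (𝓝 0) := by
      simpa using hρ0.const_mul (n : ℝ)
    obtain ⟨t, ht0, htρ⟩ : ∃ t : ℝ, 0 ≤ t ∧ (n : ℝ) * ρ t < (ε / 2) ^ 2 := by
      have h2 := h1.eventually (gt_mem_nhds (show (0 : ℝ) < (ε / 2) ^ 2 by positivity))
      obtain ⟨t, h3, h4⟩ := (h2.and (eventually_ge_atTop 0)).exists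
      exact ⟨t, h4, h3⟩
    obtain ⟨e, he1, he2⟩ := hyp t (‖x0‖ + r) (ε / 2) (by positivity)
    -- sign
    obtain ⟨s, hs, hs0⟩ : ∃ s : ℝ, |s| = 1 ∧ 0 ≤ s * inner ℝ x0 e := by
      rcases le_total 0 (inner ℝ x0 e : ℝ) with h | h
      · exact ⟨1, by simp, by simpa using h⟩
      · exact ⟨-1, by simp, by linarith⟩
    have hss : s * s = 1 := by
      rcases abs_eq (zero_le_one) |>.mp hs with h | h <;> rw [h] <;> norm_num
    set x' := x0 + (s * ε) • e with hx'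
    have hn : ‖x' - x0‖ = ε := by
      rw [hx', add_sub_cancel_left, norm_smul, he1, Real.norm_eq_abs, abs_mul, hs, abs_of_pos hε0]
      ring
    have hmem : x' ∈ F n := interior_subset (hball (by
      rw [Metric.mem_ball, dist_eq_norm, hn]; linarith))
    have hxR : ‖x'‖ ≤ ‖x0‖ + r := by
      calc ‖x'‖ = ‖x0 + (x' - x0)‖ := by congr 1; abel
        _ ≤ ‖x0‖ + ‖x' - x0‖ := norm_add_le _ _
        _ ≤ ‖x0‖ + r := by rw [hn]; linarith
    have h3 := he2 x' hxR t ht0 le_rfl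
    have h4 : s * inner ℝ x' e = s * inner ℝ x0 e + ε := by
      rw [hx', inner_add_left, real_inner_smul_left, real_inner_self_eq_norm_sq, he1]
      have : s * (s * ε * 1 ^ 2) = (s * s) * ε := by ring
      rw [mul_add, this, hss, one_mul]
    have h5 : s * inner ℝ (S t x') e = s * inner ℝ x' e + s * inner ℝ (S t x' - x') e := by
      rw [inner_sub_left]; ring
    have h6 : |s * inner ℝ (S t x' - x') e| ≤ ε / 2 := by
      rw [abs_mul, hs, one_mul]; exact h3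
    have h7 : ε / 2 ≤ s * inner ℝ (S t x') e := by
      rw [h5, h4]
      have := neg_le_of_abs_le h6
      linarith
    have h8 : s * inner ℝ (S t x') e ≤ ‖S t x'‖ := by
      calc s * inner ℝ (S t x') e ≤ |s * inner ℝ (S t x') e| := le_abs_self _
        _ = |inner ℝ (S t x') e| := by rw [abs_mul, hs, one_mul]
        _ ≤ ‖S t x'‖ * ‖e‖ := abs_real_inner_le_norm _ _
        _ = ‖S t x'‖ := by rw [he1, mul_one]
    have h9 : (ε / 2) ^ 2 ≤ ‖S t x'‖ ^ 2 := by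
      have : ε / 2 ≤ ‖S t x'‖ := h7.trans h8
      gcongr
    have h10 := hmem t ht0
    linarith
  have hres : {x : H | ∀ C : ℝ, ∃ t : ℝ, 0 ≤ t ∧ C * ρ t < ‖S t x‖ ^ 2} ∈ residual H := by
    have h1 : (⋂ n, (F n)ᶜ) ∈ residual H := by
      rw [countable_iInter_mem]
      intro n
      exact residual_of_dense_open (hclosed n).isOpen_compl (interior_eq_empty_iff_dense_compl.mp (hint n))
    refine mem_of_superset h1 ?_
    intro x hx C
    obtain ⟨n, hn⟩ := exists_nat_ge C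
    have h2 := Set.mem_iInter.mp hx n
    have h2' : ¬ ∀ t : ℝ, 0 ≤ t → ‖S t x‖ ^ 2 ≤ n * ρ t := h2
    push Not at h2'
    obtain ⟨t, ht, h3⟩ := h2'
    refine ⟨t, ht, lt_of_le_of_lt ?_ h3⟩
    exact mul_le_mul_of_nonneg_right hn (hρ t ht).le
  exact ⟨hres, dense_of_mem_residual hres⟩

end Pool.Agent.Helper420.SC
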