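import Mathlib

/-!
# Definitions for MP_4c4330_an: the damped wave equation `u_tt - Δu + a|u_t|^α u_t = 0`

The state `(u, u_t) ∈ H^1_0(Ω) × L^2(Ω)` is represented by the pair `(∇u, u_t)`.
-/

set_option autoImplicit false

open MeasureTheory Set Filter Topology
open scoped ENNReal NNReal

namespace Pool.Agent.Helper420.SC

/-- Euclidean space `ℝ^N`. -/
abbrev E (N : ℕ) : Type := EuclideanSpace ℝ (Fin N)

/-- Smooth real functions on `ℝ^N` with compact support contained in `Ω`. -/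
def IsTest {N : ℕ} (Ω : Set (E N)) (φ : E N → ℝ) : Prop :=
  ContDiff ℝ ((⊤ : ℕ∞) : WithTop ℕ∞) φ ∧ HasCompactSupport φ ∧ tsupport φ ⊆ Ω

/-- `L^2(Ω)`. -/
abbrev L2 {N : ℕ} (Ω : Set (E N)) : Type := Lp ℝ 2 ((volume : Measure (E N)).restrict Ω)

/-- `L^2(Ω; ℝ^N)`. -/
abbrev L2v {N : ℕ} (Ω : Set (E N)) : Type := Lp (E N) 2 ((volume : Measure (E N)).restrict Ω)

/-- `H^1_0(Ω)`, as the set of the pairs `(u, ∇u)`: the closure in `L^2(Ω) × L^2(Ω; ℝ^N)` of the pairs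
`(φ, ∇φ)` with `φ` smooth and compactly supported in `Ω`. -/
def H10 {N : ℕ} (Ω : Set (E N)) : Set (L2 Ω × L2v Ω) :=
  closure {p | ∃ φ : E N → ℝ, IsTest Ω φ ∧
    (p.1 : E N → ℝ) =ᵐ[volume.restrict Ω] φ ∧
    (p.2 : E N → E N) =ᵐ[volume.restrict Ω] gradient φ}

/-- The gradients of the elements of `H^1_0(Ω)` (`Ω` bounded): the closed linear span in
`L^2(Ω; ℝ^N)` of the gradients of smooth functions compactly supported in `Ω`. -/
noncomputable def Grad {N : ℕ} (Ω : Set (E N)) : Submodule ℝ (L2v Ω) :=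
  (Submodule.span ℝ {g : L2v Ω | ∃ φ : E N → ℝ, IsTest Ω φ ∧
    (g : E N → E N) =ᵐ[volume.restrict Ω] gradient φ}).topologicalClosure

/-- The energy space `H^1_0(Ω) × L^2(Ω)`: the state `(u, u_t)` is represented by `(∇u, u_t)`, and the
norm is the energy norm `(‖∇u‖^2 + ‖u_t‖^2)^{1/2}`. -/
abbrev X {N : ℕ} (Ω : Set (E N)) : Type := WithLp 2 (Grad Ω × L2 Ω)

/-- The energy `∫ (u_t^2 + |∇u|^2)`. -/
noncomputable def energy {N : ℕ} {Ω : Set (E N)} (x : X Ω) : ℝ :=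
  ∫ y in Ω, ((x.snd y) ^ 2 + ‖((x.fst : L2v Ω) : E N → E N) y‖ ^ 2)

/-- The operator `A (u, v) = (-v, -Δu + a |v|^α v)` of the energy space, as a graph: `q = (x, y)` is
in the graph iff `x = (g, v)` and `y = (-gv, w)` where `(v, gv) ∈ H^1_0(Ω)` (so `gv = ∇v`),
`v ∈ L^{α+2}(Ω)`, and `w = -Δu + a |v|^α v ∈ L^2(Ω)` in the weak sense: for all
`p = (ψ, ∇ψ) ∈ H^1_0(Ω)` with `ψ ∈ L^{α+2}(Ω)` one has `∫ w ψ = ∫ ∇u · ∇ψ + a ∫ |v|^α v ψ`. -/
def waveOp {N : ℕ} (Ω : Set (E N)) (a α : ℝ) : Set (X Ω × X Ω) :=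
  {q | ∃ (g gv : Grad Ω) (v w : L2 Ω),
    (v, (gv : L2v Ω)) ∈ H10 Ω ∧
    MemLp v (ENNReal.ofReal (α + 2)) (volume.restrict Ω) ∧
    (∀ p ∈ H10 Ω, MemLp p.1 (ENNReal.ofReal (α + 2)) (volume.restrict Ω) →
      ∫ y in Ω, w y * p.1 y =
        (∫ y in Ω, inner ℝ ((g : L2v Ω) y) (p.2 y)) + a * ∫ y in Ω, |v y| ^ α * v y * p.1 y) ∧
    q = (WithLp.toLp 2 (g, v), WithLp.toLp 2 (-gv, w))}

section Abstract

variable {H : Type*} [NormedAddCommGroup H] [InnerProductSpace ℝ H]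

/-- Monotone operators: `(x₁ - x₂, y₁ - y₂) ≥ 0` whenever `yᵢ ∈ A xᵢ`. -/
def IsMonotone (A : Set (H × H)) : Prop :=
  ∀ p ∈ A, ∀ q ∈ A, 0 ≤ inner ℝ (p.1 - q.1) (p.2 - q.2)

/-- Maximal monotone operators: monotone, and the graph is not properly contained in the graph of
another monotone operator. -/
def IsMaximalMonotone (A : Set (H × H)) : Prop :=
  IsMonotone A ∧ ∀ B : Set (H × H), IsMonotone B → A ⊆ B → B = A

open Classical in
/-- The resolvent `(I + h A)⁻¹` (`x` itself where `(I + h A)⁻¹ x` is empty; for maximal monotone `A`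
and `h > 0` this does not happen). -/
noncomputable def resolvent (A : Set (H × H)) (h : ℝ) (x : H) : H :=
  if hx : ∃ y z : H, (y, z) ∈ A ∧ y + h • z = x then hx.choose else x

/-- `S` is the contraction semigroup generated by `-A` in the sense of Crandall and Liggett:
`S(t) x = lim_n (I + (t/n) A)^{-n} x` for all `t ≥ 0` and all `x`. -/
def IsGenerated (A : Set (H × H)) (S : ℝ → H → H) : Prop :=
  ∀ t : ℝ, 0 ≤ t → ∀ x : H,
    Tendsto (fun n : ℕ => (resolvent A (t / n))^[n] x) atTop (𝓝 (S t x))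

end Abstract

end Pool.Agent.Helper420.SC
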