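import Mathlib

/-!
# Definitions for MP_4c4330_an: `u_tt - Δu + a|u_t|^α u_t = 0` in the energy space

The state `(u, u_t) ∈ H^1_0(Ω) × L^2(Ω)` is represented by the pair of functions `(∇u, u_t)`.
-/

set_option autoImplicit false

open MeasureTheory Set Filter Topology
open scoped ENNReal NNReal

namespace Pool.Agent.Helper420.SCF

/-- Smooth real functions on `ℝ^N` with compact support contained in `Ω`. -/
def IsTest {N : ℕ} (Ω : Set (EuclideanSpace ℝ (Fin N))) (φ : EuclideanSpace ℝ (Fin N) → ℝ) : Prop :=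
  ContDiff ℝ ((⊤ : ℕ∞) : WithTop ℕ∞) φ ∧ HasCompactSupport φ ∧ tsupport φ ⊆ Ω

/-- `u ∈ H^1_0(Ω)` with weak gradient `g`: both are square integrable on `Ω`, and there are smooth
functions `φ` compactly supported in `Ω` with `(φ, ∇φ)` arbitrarily close to `(u, g)` in `L^2(Ω)`. -/
def IsH10 {N : ℕ} (Ω : Set (EuclideanSpace ℝ (Fin N))) (u : EuclideanSpace ℝ (Fin N) → ℝ)
    (g : EuclideanSpace ℝ (Fin N) → EuclideanSpace ℝ (Fin N)) : Prop :=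
  MemLp u 2 (volume.restrict Ω) ∧ MemLp g 2 (volume.restrict Ω) ∧
    ∀ ε > 0, ∃ φ : EuclideanSpace ℝ (Fin N) → ℝ, IsTest Ω φ ∧
      ∫ z in Ω, ((u z - φ z) ^ 2 + ‖g z - gradient φ z‖ ^ 2) < ε

/-- `x = (g, v)` is a state: `g` is the gradient of an element of `H^1_0(Ω)` and `v ∈ L^2(Ω)`. -/
def IsState {N : ℕ} (Ω : Set (EuclideanSpace ℝ (Fin N)))
    (x : (EuclideanSpace ℝ (Fin N) → EuclideanSpace ℝ (Fin N)) × (EuclideanSpace ℝ (Fin N) → ℝ)) :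
    Prop :=
  (∃ u : EuclideanSpace ℝ (Fin N) → ℝ, IsH10 Ω u x.1) ∧ MemLp x.2 2 (volume.restrict Ω)

/-- The energy `∫ (|∇u|^2 + u_t^2)` of the state `x = (∇u, u_t)`. -/
noncomputable def energy {N : ℕ} (Ω : Set (EuclideanSpace ℝ (Fin N)))
    (x : (EuclideanSpace ℝ (Fin N) → EuclideanSpace ℝ (Fin N)) × (EuclideanSpace ℝ (Fin N) → ℝ)) :
    ℝ :=
  ∫ z in Ω, (‖x.1 z‖ ^ 2 + (x.2 z) ^ 2)

/-- The squared distance of two states in the energy norm. -/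
noncomputable def sqDist {N : ℕ} (Ω : Set (EuclideanSpace ℝ (Fin N)))
    (x y : (EuclideanSpace ℝ (Fin N) → EuclideanSpace ℝ (Fin N)) × (EuclideanSpace ℝ (Fin N) → ℝ)) :
    ℝ :=
  energy Ω (fun z => x.1 z - y.1 z, fun z => x.2 z - y.2 z)

/-- The implicit Euler step `(y - x) / h + A y = 0`, that is `y = (I + h A)⁻¹ x`, for the operator
`A (u, v) = (-v, -Δu + a |v|^α v)` and `h > 0`: with `x = (g₀, v₀)` and `y = (g₁, v₁)`, the function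
`v₁` lies in `H^1_0(Ω) ∩ L^{α+2}(Ω)`, `g₁ = g₀ + h ∇v₁`, and
`v₁ - v₀ + h (-div g₁ + a |v₁|^α v₁) = 0` in the weak sense, tested with all
`ψ ∈ H^1_0(Ω) ∩ L^{α+2}(Ω)`. -/
def IsStep {N : ℕ} (Ω : Set (EuclideanSpace ℝ (Fin N))) (a α h : ℝ)
    (x y : (EuclideanSpace ℝ (Fin N) → EuclideanSpace ℝ (Fin N)) × (EuclideanSpace ℝ (Fin N) → ℝ)) :
    Prop :=
  IsState Ω y ∧ MemLp y.2 (ENNReal.ofReal (α + 2)) (volume.restrict Ω) ∧
    (∃ gv : EuclideanSpace ℝ (Fin N) → EuclideanSpace ℝ (Fin N), IsH10 Ω y.2 gv ∧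
      ∀ᵐ z ∂(volume.restrict Ω), y.1 z = x.1 z + h • gv z) ∧
    ∀ (ψ : EuclideanSpace ℝ (Fin N) → ℝ)
      (gψ : EuclideanSpace ℝ (Fin N) → EuclideanSpace ℝ (Fin N)), IsH10 Ω ψ gψ →
      MemLp ψ (ENNReal.ofReal (α + 2)) (volume.restrict Ω) →
      (∫ z in Ω, (y.2 z - x.2 z) * ψ z) + h * ((∫ z in Ω, inner ℝ (y.1 z) (gψ z)) +
        a * ∫ z in Ω, |y.2 z| ^ α * y.2 z * ψ z) = 0

/-- `x` is the trajectory, starting at the state `x 0`, of the contraction semigroup generated by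
`-A` (exponential formula of Crandall and Liggett): `x t = lim_n (I + (t/n) A)^{-n} x 0` in the
energy norm for every `t > 0`. -/
def IsTrajectory {N : ℕ} (Ω : Set (EuclideanSpace ℝ (Fin N))) (a α : ℝ)
    (x : ℝ → (EuclideanSpace ℝ (Fin N) → EuclideanSpace ℝ (Fin N)) ×
      (EuclideanSpace ℝ (Fin N) → ℝ)) : Prop :=
  (∀ t, 0 ≤ t → IsState Ω (x t)) ∧
    ∀ t, 0 < t → ∃ z : ℕ → ℕ → (EuclideanSpace ℝ (Fin N) → EuclideanSpace ℝ (Fin N)) ×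
      (EuclideanSpace ℝ (Fin N) → ℝ),
      (∀ n : ℕ, z n 0 = x 0) ∧ (∀ n k : ℕ, IsStep Ω a α (t / (n + 1)) (z n k) (z n (k + 1))) ∧
      Tendsto (fun n : ℕ => sqDist Ω (z n (n + 1)) (x t)) atTop (𝓝 0)

end Pool.Agent.Helper420.SCF
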