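import Mathlib
import Pool.Agent.Helper420.SC.Defs

set_option autoImplicit false
set_option linter.unusedVariables false

open MeasureTheory Set Filter Topology
open scoped ENNReal NNReal InnerProductSpace

namespace Pool.Agent.Helper420.SC


variable {N : ℕ} {Ω : Set (E N)} {a α : ℝ}

theorem H10_add_test {φ ψ : E N → ℝ} (h1 : IsTest Ω φ) (h2 : IsTest Ω ψ) :
    IsTest Ω (φ + ψ) ∧ gradient (φ + ψ) = gradient φ + gradient ψ := by
  obtain ⟨a1, a2, a3⟩ := h1
  obtain ⟨b1, b2, b3⟩ := h2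
  refine ⟨⟨a1.add b1, a2.add b2, ?_⟩, ?_⟩
  · refine Set.Subset.trans ?_ (Set.union_subset a3 b3)
    unfold tsupport
    rw [← closure_union]
    exact closure_mono (Function.support_add _ _)
  · funext x
    have d1 : DifferentiableAt ℝ φ x := (a1.differentiable (by simp)) x
    have d2 : DifferentiableAt ℝ ψ x := (b1.differentiable (by simp)) x
    simp only [gradient, Pi.add_apply]
    rw [fderiv_add d1 d2, map_add]

theorem H10_smul_test (c : ℝ) {φ : E N → ℝ} (h1 : IsTest Ω φ) :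
    IsTest Ω (c • φ) ∧ gradient (c • φ) = c • gradient φ := by
  obtain ⟨a1, a2, a3⟩ := h1
  refine ⟨⟨a1.const_smul c, ?_, ?_⟩, ?_⟩
  · exact a2.smul_left (f := fun _ => c)
  · refine Set.Subset.trans ?_ a3
    exact closure_mono (Function.support_const_smul_subset c φ)
  · funext x
    have d1 : DifferentiableAt ℝ φ x := (a1.differentiable (by simp)) x
    simp only [gradient, Pi.smul_apply]
    rw [fderiv_const_smul d1]
    simp

theorem H10_zero_test : IsTest Ω (0 : E N → ℝ) ∧ gradient (0 : E N → ℝ) = 0 := by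
  refine ⟨⟨contDiff_const, HasCompactSupport.zero, ?_⟩, ?_⟩
  · simp [tsupport]
  · funext x
    simp [gradient]

theorem H10_add {p q : L2 Ω × L2v Ω} (hp : p ∈ H10 Ω) (hq : q ∈ H10 Ω) : p + q ∈ H10 Ω := by
  refine map_mem_closure₂ continuous_add hp hq ?_
  rintro a ⟨φ, h1, h2, h3⟩ b ⟨ψ, k1, k2, k3⟩
  obtain ⟨t1, t2⟩ := H10_add_test h1 k1
  refine ⟨φ + ψ, t1, ?_, ?_⟩
  · exact (Lp.coeFn_add a.1 b.1).trans (h2.add k2)
  · rw [t2]
    exact (Lp.coeFn_add a.2 b.2).trans (h3.add k3)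

theorem H10_smul (c : ℝ) {p : L2 Ω × L2v Ω} (hp : p ∈ H10 Ω) : c • p ∈ H10 Ω := by
  refine map_mem_closure (continuous_const_smul c) hp ?_
  rintro a ⟨φ, h1, h2, h3⟩
  obtain ⟨t1, t2⟩ := H10_smul_test c h1
  refine ⟨c • φ, t1, ?_, ?_⟩
  · exact (Lp.coeFn_smul c a.1).trans (h2.const_smul c)
  · rw [t2]
    exact (Lp.coeFn_smul c a.2).trans (h3.const_smul c)

theorem H10_grad {p : L2 Ω × L2v Ω} (hp : p ∈ H10 Ω) : p.2 ∈ Grad Ω := by
  have h : p.2 ∈ closure ((Submodule.span ℝ {g : L2v Ω | ∃ φ : E N → ℝ, IsTest Ω φ ∧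
      (g : E N → E N) =ᵐ[volume.restrict Ω] gradient φ} : Submodule ℝ (L2v Ω)) : Set (L2v Ω)) := by
    refine map_mem_closure continuous_snd hp ?_
    rintro a ⟨φ, h1, h2, h3⟩
    exact Submodule.subset_span ⟨φ, h1, h3⟩
  exact h

/-- elements of the gradient space are limits of test gradients -/
theorem Grad_seq (g : Grad Ω) : ∃ φ : ℕ → E N → ℝ, (∀ n, IsTest Ω (φ n)) ∧
    ∃ G : ℕ → Grad Ω, (∀ n, ((G n : L2v Ω) : E N → E N) =ᵐ[volume.restrict Ω] gradient (φ n)) ∧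
      Tendsto G atTop (𝓝 g) := by
  have hspan : ∀ x ∈ (Submodule.span ℝ {g : L2v Ω | ∃ φ : E N → ℝ, IsTest Ω φ ∧
      (g : E N → E N) =ᵐ[volume.restrict Ω] gradient φ} : Submodule ℝ (L2v Ω)),
      ∃ φ : E N → ℝ, IsTest Ω φ ∧ (x : E N → E N) =ᵐ[volume.restrict Ω] gradient φ := by
    intro x hx
    induction hx using Submodule.span_induction with
    | mem x hx => exact hx
    | zero =>
      refine ⟨0, H10_zero_test.1, ?_⟩
      rw [(H10_zero_test (Ω := Ω)).2]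
      exact Lp.coeFn_zero _ _ _
    | add x y _ _ hx hy =>
      obtain ⟨φ, h1, h2⟩ := hx
      obtain ⟨ψ, k1, k2⟩ := hy
      obtain ⟨t1, t2⟩ := H10_add_test h1 k1
      refine ⟨φ + ψ, t1, ?_⟩
      rw [t2]
      exact (Lp.coeFn_add x y).trans (h2.add k2)
    | smul c x _ hx =>
      obtain ⟨φ, h1, h2⟩ := hx
      obtain ⟨t1, t2⟩ := H10_smul_test c h1
      refine ⟨c • φ, t1, ?_⟩
      rw [t2]
      exact (Lp.coeFn_smul c x).trans (h2.const_smul c)
  have hg : (g : L2v Ω) ∈ closure ((Submodule.span ℝ {g : L2v Ω | ∃ φ : E N → ℝ, IsTest Ω φ ∧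
      (g : E N → E N) =ᵐ[volume.restrict Ω] gradient φ} : Submodule ℝ (L2v Ω)) : Set (L2v Ω)) :=
    g.2
  rw [mem_closure_iff_seq_limit] at hg
  obtain ⟨x, hx, hlim⟩ := hg
  choose φ hφ1 hφ2 using fun n => hspan (x n) (hx n)
  refine ⟨φ, hφ1, fun n => ⟨x n, Submodule.le_topologicalClosure _ (hx n)⟩, hφ2, ?_⟩
  rw [tendsto_subtype_rng]
  exact hlim


theorem H10_closed {N : ℕ} (Ω : Set (E N)) : IsClosed (H10 Ω) := isClosed_closure

end Pool.Agent.Helper420.SC
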