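import Pool.Agent.Helper420.SC.Defs
import Pool.Agent.Helper420.QI.Sob2

set_option autoImplicit false

open MeasureTheory Set Filter Topology
open scoped ENNReal NNReal InnerProductSpace

namespace Pool.Agent.Helper420.SC

theorem poincare {N : ℕ} {Ω : Set (E N)} (hN : 2 ≤ N) (hΩ : Bornology.IsBounded Ω) : ∃ C : ℝ, 0 < C ∧
    ∀ φ : E N → ℝ, IsTest Ω φ →
      eLpNorm φ 2 volume ≤ ENNReal.ofReal C * eLpNorm (gradient φ) 2 volume := by
  obtain ⟨C, hC⟩ := Pool.Agent.Helper420.QI.Sob.sobolev (q := 2) hN hΩ (by norm_num)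
    (by push_cast; linarith)
  refine ⟨C + 1, by positivity, fun φ hφ => ?_⟩
  have h1 := hC φ (hφ.1.of_le (by simp)) ((subset_tsupport φ).trans hφ.2.2)
  have h2 : eLpNorm (gradient φ) 2 volume = eLpNorm (fderiv ℝ φ) 2 volume :=
    Pool.Agent.Helper420.QI.Sob.eLpNorm_gradient φ 2
  rw [h2]
  refine (by simpa using h1 : eLpNorm φ 2 volume ≤ C * eLpNorm (fderiv ℝ φ) 2 volume).trans ?_
  gcongr
  rw [ENNReal.ofReal_add (by positivity) (by norm_num), ENNReal.ofReal_coe_nnreal]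
  exact le_self_add

end Pool.Agent.Helper420.SC
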