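import Mathlib
import Pool.Agent.Helper420.SC.L01
import Pool.Agent.Helper420.SC.Poinc

set_option autoImplicit false
set_option linter.unusedVariables false

open MeasureTheory Set Filter Topology
open scoped ENNReal NNReal InnerProductSpace

namespace Pool.Agent.Helper420.SC


variable {N : ℕ} {Ω : Set (E N)}


theorem exists_unique_prim_ga {φ ψ : E N → ℝ} (hφ : Differentiable ℝ φ)
    (hψ : Differentiable ℝ ψ) (x : E N) :
    gradient (φ + ψ) x = gradient φ x + gradient ψ x := by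
  unfold gradient
  rw [fderiv_add (hφ x) (hψ x), map_add]

theorem exists_unique_prim_gs (c : ℝ) {φ : E N → ℝ} (hφ : Differentiable ℝ φ) (x : E N) :
    gradient (c • φ) x = c • gradient φ x := by
  unfold gradient
  rw [fderiv_const_smul (hφ x)]
  simp

theorem exists_unique_prim_supp {φ : E N → ℝ} (h : IsTest Ω φ) :
    Function.support (gradient φ) ⊆ Ω := by
  intro x hx
  apply h.2.2
  by_contra hn
  apply hx
  unfold gradient
  rw [fderiv_of_notMem_tsupport ℝ hn, map_zero]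

theorem exists_unique_prim_diff {φ : E N → ℝ} (h : IsTest Ω φ) : Differentiable ℝ φ :=
  h.1.differentiable (by simp)

/-- pairs of test functions and gradients -/
def exists_unique_prim_P (Ω : Set (E N)) : Submodule ℝ (L2 Ω × L2v Ω) where
  carrier := {p | ∃ φ : E N → ℝ, IsTest Ω φ ∧
    (p.1 : E N → ℝ) =ᵐ[volume.restrict Ω] φ ∧
    (p.2 : E N → E N) =ᵐ[volume.restrict Ω] gradient φ}
  add_mem' := by
    rintro p q ⟨φ, hφ, h1, h2⟩ ⟨ψ, hψ, h3, h4⟩
    refine ⟨φ + ψ, ⟨hφ.1.add hψ.1, hφ.2.1.add hψ.2.1,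
      (tsupport_add φ ψ).trans (Set.union_subset hφ.2.2 hψ.2.2)⟩, ?_, ?_⟩
    · filter_upwards [Lp.coeFn_add p.1 q.1, h1, h3] with x a b c
      show (p.1 + q.1 : L2 Ω) x = φ x + ψ x
      rw [a, Pi.add_apply, b, c]
    · filter_upwards [Lp.coeFn_add p.2 q.2, h2, h4] with x a b c
      show (p.2 + q.2 : L2v Ω) x = _
      rw [a, Pi.add_apply, b, c, exists_unique_prim_ga (exists_unique_prim_diff hφ)
        (exists_unique_prim_diff hψ)]
  zero_mem' := by
    refine ⟨0, ⟨contDiff_const, HasCompactSupport.zero, by simp [tsupport]⟩, ?_, ?_⟩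
    · exact Lp.coeFn_zero _ _ _
    · filter_upwards [Lp.coeFn_zero (E N) 2 ((volume : Measure (E N)).restrict Ω)] with x a
      show (0 : L2v Ω) x = _
      rw [a]
      unfold gradient
      simp
  smul_mem' := by
    rintro c p ⟨φ, hφ, h1, h2⟩
    refine ⟨c • φ, ⟨hφ.1.const_smul c, hφ.2.1.smul_left, ?_⟩, ?_, ?_⟩
    · refine (closure_mono ?_).trans hφ.2.2
      intro x hx hx'
      apply hx
      show c • φ x = 0
      rw [hx', smul_zero]
    · filter_upwards [Lp.coeFn_smul c p.1, h1] with x a b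
      show (c • p.1 : L2 Ω) x = c • φ x
      rw [a, Pi.smul_apply, b]
    · filter_upwards [Lp.coeFn_smul c p.2, h2] with x a b
      show (c • p.2 : L2v Ω) x = _
      rw [a, Pi.smul_apply, b, exists_unique_prim_gs c (exists_unique_prim_diff hφ)]

theorem exists_unique_prim_H (Ω : Set (E N)) :
    H10 Ω = ((exists_unique_prim_P Ω).topologicalClosure : Set (L2 Ω × L2v Ω)) := by
  rw [Submodule.topologicalClosure_coe]
  rfl

theorem exists_unique_prim_bd (C : ℝ) (hC : 0 < C)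
    (hP : ∀ φ : E N → ℝ, IsTest Ω φ →
      eLpNorm φ 2 volume ≤ ENNReal.ofReal C * eLpNorm (gradient φ) 2 volume)
    (p : L2 Ω × L2v Ω) (hp : p ∈ H10 Ω) : ‖p.1‖ ≤ C * ‖p.2‖ := by
  have hcl : IsClosed {p : L2 Ω × L2v Ω | ‖p.1‖ ≤ C * ‖p.2‖} :=
    isClosed_le (by fun_prop) (by fun_prop)
  refine (closure_minimal ?_ hcl) hp
  rintro q ⟨φ, hφ, h1, h2⟩
  show ‖q.1‖ ≤ C * ‖q.2‖
  have h3 := hP φ hφ
  have h4 : eLpNorm (q.1 : E N → ℝ) 2 (volume.restrict Ω) = eLpNorm φ 2 volume := by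
    rw [eLpNorm_congr_ae h1, eLpNorm_restrict_eq_of_support_subset]
    exact (subset_tsupport φ).trans hφ.2.2
  have h5 : eLpNorm (q.2 : E N → E N) 2 (volume.restrict Ω) = eLpNorm (gradient φ) 2 volume := by
    rw [eLpNorm_congr_ae h2, eLpNorm_restrict_eq_of_support_subset]
    exact exists_unique_prim_supp hφ
  rw [← h4, ← h5] at h3
  rw [Lp.norm_def, Lp.norm_def]
  have h6 : C * (eLpNorm (q.2 : E N → E N) 2 (volume.restrict Ω)).toReal =
      (ENNReal.ofReal C * eLpNorm (q.2 : E N → E N) 2 (volume.restrict Ω)).toReal := by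
    rw [ENNReal.toReal_mul, ENNReal.toReal_ofReal hC.le]
  rw [h6]
  exact ENNReal.toReal_mono (ENNReal.mul_ne_top ENNReal.ofReal_ne_top (Lp.eLpNorm_ne_top _)) h3

/-- every element of `Grad Ω` is the gradient of exactly one element of `H^1_0(Ω)` -/
theorem exists_unique_prim (hN : 2 ≤ N) (hΩo : IsOpen Ω) (hΩ : Bornology.IsBounded Ω) (g : Grad Ω) :
    ∃! u : L2 Ω, (u, (g : L2v Ω)) ∈ H10 Ω := by
  obtain ⟨C, hC, hP⟩ := poincare hN hΩ
  have hbd := exists_unique_prim_bd (Ω := Ω) C hC hP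
  set Q := (exists_unique_prim_P Ω).topologicalClosure with hQ
  have hHQ : H10 Ω = (Q : Set (L2 Ω × L2v Ω)) := exists_unique_prim_H Ω
  have hQc : IsClosed (Q : Set (L2 Ω × L2v Ω)) := (exists_unique_prim_P Ω).isClosed_topologicalClosure
  have : CompleteSpace Q := hQc.completeSpace_coe
  let f : Q →L[ℝ] L2v Ω := (ContinuousLinearMap.snd ℝ (L2 Ω) (L2v Ω)).comp Q.subtypeL
  have hf : ∀ x : Q, ‖x‖ ≤ ((max C 1).toNNReal : ℝ) * ‖f x‖ := by
    intro x
    have h1 := hbd x.1 (by rw [hHQ]; exact x.2)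
    have h2 : ‖x‖ = max ‖x.1.1‖ ‖x.1.2‖ := rfl
    have h3 : f x = x.1.2 := rfl
    rw [h2, h3, Real.coe_toNNReal _ (by positivity)]
    refine max_le (h1.trans ?_) ?_
    · gcongr
      exact le_max_left _ _
    · calc ‖x.1.2‖ = 1 * ‖x.1.2‖ := (one_mul _).symm
        _ ≤ max C 1 * ‖x.1.2‖ := by
          gcongr
          exact le_max_right _ _
  have hanti : AntilipschitzWith (max C 1).toNNReal f :=
    AddMonoidHomClass.antilipschitz_of_bound f hf
  have hclosed : IsClosed (Set.range f) := hanti.isClosed_range f.uniformContinuous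
  have hle : Grad Ω ≤ LinearMap.range (f : Q →ₗ[ℝ] L2v Ω) := by
    refine Submodule.topologicalClosure_minimal _ ?_ (by rw [LinearMap.coe_range]; exact hclosed)
    rw [Submodule.span_le]
    rintro g ⟨φ, hφ, h1⟩
    have hm : MemLp φ 2 (volume.restrict Ω) :=
      (hφ.1.continuous.memLp_of_hasCompactSupport (μ := (volume : Measure (E N))) hφ.2.1).restrict Ω
    have hmem : ((hm.toLp φ, g) : L2 Ω × L2v Ω) ∈ Q :=
      Submodule.le_topologicalClosure _ ⟨φ, hφ, hm.coeFn_toLp, h1⟩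
    exact ⟨⟨_, hmem⟩, rfl⟩
  obtain ⟨q, hq⟩ := hle g.2
  refine ⟨q.1.1, ?_, ?_⟩
  · show ((q.1.1, (g : L2v Ω)) : L2 Ω × L2v Ω) ∈ H10 Ω
    rw [← hq, hHQ]
    exact q.2
  · intro v hv
    have hv' : ((v, (g : L2v Ω)) : L2 Ω × L2v Ω) ∈ Q := by
      have : ((v, (g : L2v Ω)) : L2 Ω × L2v Ω) ∈ H10 Ω := hv
      rwa [hHQ] at this
    have h1 : f ⟨_, hv'⟩ = f q := by
      rw [show f q = g from hq]
      rfl
    have h2 := hanti.injective h1
    rw [← h2]



end Pool.Agent.Helper420.SC
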