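import Pool.Agent.Helper420.SC.Defs
import Pool.Agent.Helper420.SC.FDefs
import Pool.Agent.Helper420.SC.L01
import Pool.Agent.Helper420.SC.L14

set_option autoImplicit false
set_option linter.unusedVariables false

open MeasureTheory Set Filter Topology
open scoped ENNReal NNReal InnerProductSpace

namespace Pool.Agent.Helper420.SC

variable {N : ℕ} {Ω : Set (E N)} {a α : ℝ}

/-- the functions `x` represent the element `X` -/
def Rep (Ω : Set (E N)) (x : (E N → E N) × (E N → ℝ)) (Y : X Ω) : Prop :=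
  ((Y.fst : L2v Ω) : E N → E N) =ᵐ[volume.restrict Ω] x.1 ∧
  (Y.snd : E N → ℝ) =ᵐ[volume.restrict Ω] x.2



theorem auxRep_norm_sq {α : Type*} [MeasurableSpace α] {μ : Measure α} {F : Type*}
    [NormedAddCommGroup F] [InnerProductSpace ℝ F] (f : Lp F 2 μ) :
    ‖f‖ ^ 2 = ∫ y, ‖f y‖ ^ 2 ∂μ := by
  rw [← real_inner_self_eq_norm_sq, MeasureTheory.L2.inner_def]
  refine integral_congr_ae (Eventually.of_forall fun y => ?_)
  simp only [real_inner_self_eq_norm_sq]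

theorem auxRep_int {α : Type*} [MeasurableSpace α] {μ : Measure α} {F : Type*}
    [NormedAddCommGroup F] [InnerProductSpace ℝ F] (f : Lp F 2 μ) :
    Integrable (fun y => ‖f y‖ ^ 2) μ :=
  (memLp_two_iff_integrable_sq_norm (Lp.aestronglyMeasurable f)).1 (Lp.memLp f)

theorem auxRep_sum {α : Type*} [MeasurableSpace α] {μ : Measure α} (f : Lp ℝ 2 μ) {F : Type*}
    [NormedAddCommGroup F] [InnerProductSpace ℝ F] (g : Lp F 2 μ) {u : α → ℝ} {w : α → F}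
    (hu : (f : α → ℝ) =ᵐ[μ] u) (hw : (g : α → F) =ᵐ[μ] w) :
    ‖f‖ ^ 2 + ‖g‖ ^ 2 = ∫ y, ((u y) ^ 2 + ‖w y‖ ^ 2) ∂μ := by
  rw [auxRep_norm_sq, auxRep_norm_sq, ← integral_add (auxRep_int f) (auxRep_int g)]
  apply integral_congr_ae
  filter_upwards [hu, hw] with y h1 h2
  rw [h1, h2, Real.norm_eq_abs, sq_abs]

theorem IsH10_of_mem {p : L2 Ω × L2v Ω} (hp : p ∈ H10 Ω) {u : E N → ℝ} {g : E N → E N}
    (hu : (p.1 : E N → ℝ) =ᵐ[volume.restrict Ω] u)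
    (hg : (p.2 : E N → E N) =ᵐ[volume.restrict Ω] g) : SCF.IsH10 Ω u g := by
  refine ⟨(memLp_congr_ae hu).1 (Lp.memLp p.1), (memLp_congr_ae hg).1 (Lp.memLp p.2), ?_⟩
  intro ε hε
  obtain ⟨q, ⟨φ, hφ, hq1, hq2⟩, hq⟩ := Metric.mem_closure_iff.1 hp (Real.sqrt (ε / 4))
    (Real.sqrt_pos.2 (by linarith))
  refine ⟨φ, hφ, ?_⟩
  have h1 : ((p.1 - q.1 : L2 Ω) : E N → ℝ) =ᵐ[volume.restrict Ω] fun z => u z - φ z := by
    filter_upwards [Lp.coeFn_sub p.1 q.1, hu, hq1] with z a b c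
    rw [a, Pi.sub_apply, b, c]
  have h2 : ((p.2 - q.2 : L2v Ω) : E N → E N) =ᵐ[volume.restrict Ω] fun z => g z - gradient φ z := by
    filter_upwards [Lp.coeFn_sub p.2 q.2, hg, hq2] with z a b c
    rw [a, Pi.sub_apply, b, c]
  rw [← auxRep_sum _ _ h1 h2]
  rw [Prod.dist_eq, max_lt_iff, dist_eq_norm, dist_eq_norm] at hq
  have h3 : ‖p.1 - q.1‖ ^ 2 < ε / 4 := by
    have := pow_lt_pow_left₀ hq.1 (norm_nonneg _) two_ne_zero
    rwa [Real.sq_sqrt (by linarith)] at this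
  have h4 : ‖p.2 - q.2‖ ^ 2 < ε / 4 := by
    have := pow_lt_pow_left₀ hq.2 (norm_nonneg _) two_ne_zero
    rwa [Real.sq_sqrt (by linarith)] at this
  linarith

theorem auxRep_memφ {φ : E N → ℝ} (hφ : IsTest Ω φ) : MemLp φ 2 (volume.restrict Ω) :=
  (hφ.1.continuous.memLp_of_hasCompactSupport hφ.2.1).restrict Ω

theorem auxRep_memg {φ : E N → ℝ} (hφ : IsTest Ω φ) : MemLp (gradient φ) 2 (volume.restrict Ω) := by
  have h1 : Continuous (gradient φ) := by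
    have h2 : Continuous (fderiv ℝ φ) := hφ.1.continuous_fderiv (by simp)
    exact (LinearIsometryEquiv.continuous _).comp h2
  have h3 : HasCompactSupport (gradient φ) := by
    have h2 : HasCompactSupport (fderiv ℝ φ) := hφ.2.1.fderiv ℝ
    exact h2.comp_left (g := (InnerProductSpace.toDual ℝ (E N)).symm) (map_zero _)
  exact (h1.memLp_of_hasCompactSupport h3).restrict Ω

theorem mem_of_IsH10 {u : E N → ℝ} {g : E N → E N} (h : SCF.IsH10 Ω u g) :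
    (h.1.toLp, h.2.1.toLp) ∈ H10 Ω := by
  rw [H10, Metric.mem_closure_iff]
  intro ε hε
  obtain ⟨φ, hφ, hint⟩ := h.2.2 (ε ^ 2) (by positivity)
  have hφ' : IsTest Ω φ := hφ
  refine ⟨((auxRep_memφ hφ').toLp, (auxRep_memg hφ').toLp), ⟨φ, hφ',
    (auxRep_memφ hφ').coeFn_toLp, (auxRep_memg hφ').coeFn_toLp⟩, ?_⟩
  have h1 : ((h.1.toLp - (auxRep_memφ hφ').toLp : L2 Ω) : E N → ℝ) =ᵐ[volume.restrict Ω]
      fun z => u z - φ z := by
    filter_upwards [Lp.coeFn_sub h.1.toLp (auxRep_memφ hφ').toLp, h.1.coeFn_toLp,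
      (auxRep_memφ hφ').coeFn_toLp] with z a b c
    rw [a, Pi.sub_apply, b, c]
  have h2 : ((h.2.1.toLp - (auxRep_memg hφ').toLp : L2v Ω) : E N → E N) =ᵐ[volume.restrict Ω]
      fun z => g z - gradient φ z := by
    filter_upwards [Lp.coeFn_sub h.2.1.toLp (auxRep_memg hφ').toLp, h.2.1.coeFn_toLp,
      (auxRep_memg hφ').coeFn_toLp] with z a b c
    rw [a, Pi.sub_apply, b, c]
  rw [← auxRep_sum _ _ h1 h2] at hint
  rw [Prod.dist_eq, max_lt_iff, dist_eq_norm, dist_eq_norm]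
  constructor
  · apply lt_of_pow_lt_pow_left₀ 2 hε.le
    have := sq_nonneg ‖h.2.1.toLp - (auxRep_memg hφ').toLp‖
    linarith
  · apply lt_of_pow_lt_pow_left₀ 2 hε.le
    have := sq_nonneg ‖h.1.toLp - (auxRep_memφ hφ').toLp‖
    linarith

theorem exists_rep {x : (E N → E N) × (E N → ℝ)} (hx : SCF.IsState Ω x) : ∃ Y : X Ω, Rep Ω x Y := by
  obtain ⟨⟨u, hu⟩, hx2⟩ := hx
  exact ⟨WithLp.toLp 2 (⟨hu.2.1.toLp, H10_grad (mem_of_IsH10 hu)⟩, hx2.toLp),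
    hu.2.1.coeFn_toLp, hx2.coeFn_toLp⟩

theorem state_of_rep (hN : 2 ≤ N) (hΩo : IsOpen Ω) (hΩ : Bornology.IsBounded Ω)
    {x : (E N → E N) × (E N → ℝ)} {Y : X Ω} (h : Rep Ω x Y) : SCF.IsState Ω x := by
  obtain ⟨u, hu, -⟩ := exists_unique_prim hN hΩo hΩ Y.fst
  exact ⟨⟨u, IsH10_of_mem hu (Filter.EventuallyEq.refl _ _) h.1⟩,
    (memLp_congr_ae h.2).1 (Lp.memLp Y.snd)⟩

theorem rep_unique {x : (E N → E N) × (E N → ℝ)} {Y Z : X Ω} (h : Rep Ω x Y) (h' : Rep Ω x Z) :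
    Y = Z := by
  have h1 : Y.fst = Z.fst := Subtype.ext (Lp.ext (h.1.trans h'.1.symm))
  have h2 : Y.snd = Z.snd := Lp.ext (h.2.trans h'.2.symm)
  apply (WithLp.equiv 2 _).injective
  exact Prod.ext h1 h2

theorem rep_energy {x : (E N → E N) × (E N → ℝ)} {Y : X Ω} (h : Rep Ω x Y) :
    SCF.energy Ω x = ‖Y‖ ^ 2 := by
  rw [WithLp.prod_norm_sq_eq_of_L2, add_comm, Submodule.coe_norm, auxRep_sum _ _ h.2 h.1]
  unfold SCF.energy
  congr 1
  funext z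
  rw [add_comm]

theorem rep_sqDist {x y : (E N → E N) × (E N → ℝ)} {Y Z : X Ω} (h : Rep Ω x Y) (h' : Rep Ω y Z) :
    SCF.sqDist Ω x y = ‖Y - Z‖ ^ 2 := by
  unfold SCF.sqDist
  apply rep_energy
  constructor
  · filter_upwards [Lp.coeFn_sub (Y.fst : L2v Ω) (Z.fst : L2v Ω), h.1, h'.1] with z a b c
    show ((Y.fst : L2v Ω) - (Z.fst : L2v Ω) : L2v Ω) z = _
    rw [a, Pi.sub_apply, b, c]
  · filter_upwards [Lp.coeFn_sub Y.snd Z.snd, h.2, h'.2] with z a b c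
    show (Y.snd - Z.snd : L2 Ω) z = _
    rw [a, Pi.sub_apply, b, c]




theorem waveOp_of_step {h : ℝ} (hh : 0 < h) {x y : (E N → E N) × (E N → ℝ)} {Y Z : X Ω}
    (hx : Rep Ω x Y) (hy : Rep Ω y Z) (hs : SCF.IsStep Ω a α h x y) :
    (Z, h⁻¹ • (Y - Z)) ∈ waveOp Ω a α := by
  obtain ⟨hst, hmem, ⟨gv, hgv, hae⟩, hweak⟩ := hs
  have hv : hgv.1.toLp = Z.snd := Lp.ext (hgv.1.coeFn_toLp.trans hy.2.symm)
  have hH := mem_of_IsH10 hgv
  have hne : h ≠ 0 := hh.ne'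
  refine ⟨Z.fst, ⟨hgv.2.1.toLp, H10_grad hH⟩, Z.snd, h⁻¹ • (Y.snd - Z.snd), ?_, ?_, ?_, ?_⟩
  · rw [← hv]
    exact hH
  · exact hmem.ae_eq hy.2.symm
  · intro p hp hpm
    have h1 := hweak p.1 p.2 (IsH10_of_mem hp Filter.EventuallyEq.rfl Filter.EventuallyEq.rfl) hpm
    have e1 : ∫ z in Ω, (h⁻¹ • (Y.snd - Z.snd) : L2 Ω) z * p.1 z =
        -h⁻¹ * ∫ z in Ω, (y.2 z - x.2 z) * p.1 z := by
      rw [← integral_const_mul]
      refine integral_congr_ae ?_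
      filter_upwards [Lp.coeFn_smul h⁻¹ (Y.snd - Z.snd), Lp.coeFn_sub Y.snd Z.snd, hx.2, hy.2]
        with z h2 h3 h4 h5
      rw [h2, Pi.smul_apply, h3, Pi.sub_apply, h4, h5, smul_eq_mul]
      ring
    have e2 : (∫ z in Ω, inner ℝ ((Z.fst : L2v Ω) z) (p.2 z)) = ∫ z in Ω, inner ℝ (y.1 z) (p.2 z) := by
      refine integral_congr_ae ?_
      filter_upwards [hy.1] with z h2
      rw [h2]
    have e3 : (∫ z in Ω, |Z.snd z| ^ α * Z.snd z * p.1 z) = ∫ z in Ω, |y.2 z| ^ α * y.2 z * p.1 z := by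
      refine integral_congr_ae ?_
      filter_upwards [hy.2] with z h2
      rw [h2]
    rw [e1, e2, e3]
    have h2 : (∫ z in Ω, (y.2 z - x.2 z) * p.1 z) =
        -(h * ((∫ z in Ω, inner ℝ (y.1 z) (p.2 z)) + a * ∫ z in Ω, |y.2 z| ^ α * y.2 z * p.1 z)) := by
      linarith
    rw [h2]
    field_simp
  · refine Prod.ext rfl ?_
    have hfst : h⁻¹ • (Y.fst - Z.fst) = -(⟨hgv.2.1.toLp, H10_grad hH⟩ : Grad Ω) := by
      apply Subtype.ext
      change h⁻¹ • ((Y.fst : L2v Ω) - (Z.fst : L2v Ω)) = -(hgv.2.1.toLp)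
      refine Lp.ext ?_
      filter_upwards [Lp.coeFn_smul h⁻¹ ((Y.fst : L2v Ω) - (Z.fst : L2v Ω)),
        Lp.coeFn_sub (Y.fst : L2v Ω) (Z.fst : L2v Ω), Lp.coeFn_neg (hgv.2.1.toLp),
        hgv.2.1.coeFn_toLp, hx.1, hy.1, hae] with z h2 h3 h4 h5 h6 h7 h8
      rw [h2, Pi.smul_apply, h3, Pi.sub_apply, h4, Pi.neg_apply, h5, h6, h7, h8]
      rw [sub_add_cancel_left, smul_neg, smul_smul, inv_mul_cancel₀ hne, one_smul]
    change h⁻¹ • (Y - Z) = WithLp.toLp 2 (-(⟨hgv.2.1.toLp, H10_grad hH⟩ : Grad Ω), h⁻¹ • (Y.snd - Z.snd))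
    rw [← hfst]
    rfl




theorem step_of_waveOp {h : ℝ} (hh : 0 < h) {x y : (E N → E N) × (E N → ℝ)} {Y Z : X Ω}
    (hx : Rep Ω x Y) (hy : Rep Ω y Z) (hyst : SCF.IsState Ω y)
    (hs : (Z, h⁻¹ • (Y - Z)) ∈ waveOp Ω a α) : SCF.IsStep Ω a α h x y := by
  obtain ⟨g, gv, v, w, hH, hLp, hweak, heq⟩ := hs
  rw [Prod.mk.injEq] at heq
  obtain ⟨hZ, hYZ⟩ := heq
  have hZ1 : Z.fst = g := by rw [hZ]; rfl
  have hZ2 : Z.snd = v := by rw [hZ]; rfl
  have h1 : h⁻¹ • (Y.fst - Z.fst) = -gv := by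
    have := congrArg WithLp.fst hYZ
    simpa using this
  have h2 : h⁻¹ • (Y.snd - Z.snd) = w := by
    have := congrArg WithLp.snd hYZ
    simpa using this
  have hh0 : h ≠ 0 := hh.ne'
  have h1' : Z.fst = Y.fst + h • gv := by
    have : Y.fst - Z.fst = h • (-gv) := by
      rw [← h1, smul_smul, mul_inv_cancel₀ hh0, one_smul]
    rw [smul_neg] at this
    have h3 : Y.fst = Z.fst - h • gv := by
      rw [sub_eq_iff_eq_add.1 this]; abel
    rw [h3]; abel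
  have h2' : Z.snd - Y.snd = -(h • w) := by
    rw [← h2, smul_smul, mul_inv_cancel₀ hh0, one_smul]; abel
  have hv : (v : E N → ℝ) =ᵐ[volume.restrict Ω] y.2 := by rw [← hZ2]; exact hy.2
  have hg : ((g : L2v Ω) : E N → E N) =ᵐ[volume.restrict Ω] y.1 := by rw [← hZ1]; exact hy.1
  refine ⟨hyst, (memLp_congr_ae hv).1 hLp, ⟨((gv : L2v Ω) : E N → E N), ?_, ?_⟩, ?_⟩
  · exact IsH10_of_mem hH hv (by rfl)
  · have e1 : (Z.fst : L2v Ω) = (Y.fst : L2v Ω) + h • (gv : L2v Ω) := by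
      rw [h1']; rfl
    have e2 : ((Z.fst : L2v Ω) : E N → E N) =ᵐ[volume.restrict Ω]
        fun z => (Y.fst : L2v Ω) z + h • (gv : L2v Ω) z := by
      rw [e1]
      filter_upwards [Lp.coeFn_add (Y.fst : L2v Ω) (h • (gv : L2v Ω)),
        Lp.coeFn_smul h (gv : L2v Ω)] with z hz1 hz2
      rw [hz1, Pi.add_apply, hz2, Pi.smul_apply]
    filter_upwards [hx.1, hy.1, e2] with z a1 a2 a3
    rw [← a2, a3, a1]
  · intro ψ gψ hψ hψp
    have hm := mem_of_IsH10 hψ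
    have hp1 : (hψ.1.toLp ψ : E N → ℝ) =ᵐ[volume.restrict Ω] ψ := hψ.1.coeFn_toLp
    have hp2 : (hψ.2.1.toLp gψ : E N → E N) =ᵐ[volume.restrict Ω] gψ := hψ.2.1.coeFn_toLp
    have hw := hweak _ hm ((memLp_congr_ae hp1).2 hψp)
    simp only at hw
    have i1 : ∫ z in Ω, w z * (hψ.1.toLp ψ : E N → ℝ) z = ∫ z in Ω, w z * ψ z := by
      refine integral_congr_ae ?_
      filter_upwards [hp1] with z hz
      rw [hz]
    have i2 : ∫ z in Ω, inner ℝ ((g : L2v Ω) z) ((hψ.2.1.toLp gψ : E N → E N) z) =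
        ∫ z in Ω, inner ℝ (y.1 z) (gψ z) := by
      refine integral_congr_ae ?_
      filter_upwards [hp2, hg] with z hz hz'
      rw [hz, hz']
    have i3 : ∫ z in Ω, |v z| ^ α * v z * (hψ.1.toLp ψ : E N → ℝ) z =
        ∫ z in Ω, |y.2 z| ^ α * y.2 z * ψ z := by
      refine integral_congr_ae ?_
      filter_upwards [hp1, hv] with z hz hz'
      rw [hz, hz']
    have e3 : ((Z.snd - Y.snd : L2 Ω) : E N → ℝ) =ᵐ[volume.restrict Ω] fun z => -(h * w z) := by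
      rw [h2']
      filter_upwards [Lp.coeFn_neg (h • w), Lp.coeFn_smul h w] with z hz1 hz2
      rw [hz1, Pi.neg_apply, hz2, Pi.smul_apply, smul_eq_mul]
    have i4 : ∫ z in Ω, (y.2 z - x.2 z) * ψ z = -h * ∫ z in Ω, w z * ψ z := by
      rw [← integral_const_mul]
      refine integral_congr_ae ?_
      filter_upwards [hx.2, hy.2, e3, Lp.coeFn_sub Z.snd Y.snd] with z a1 a2 a3 a4
      rw [← a1, ← a2]
      have : Z.snd z - Y.snd z = -(h * w z) := by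
        rw [← a3, a4, Pi.sub_apply]
      rw [this]
      ring
    rw [i1, i2, i3] at hw
    rw [i4, hw]
    ring


end Pool.Agent.Helper420.SC
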