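import Pool.Agent.Helper420.SC.Main
import Pool.Agent.Helper420.SC.Rep

set_option autoImplicit false

open MeasureTheory Set Filter Topology
open scoped ENNReal NNReal InnerProductSpace

namespace Pool.Agent.Helper420.SC

theorem resolvent_eq {H : Type*} [NormedAddCommGroup H] [InnerProductSpace ℝ H] {A : Set (H × H)}
    (hm : IsMonotone A) (hr : ∀ h : ℝ, 0 < h → ∀ x : H, ∃ y z : H, (y, z) ∈ A ∧ y + h • z = x)
    {h : ℝ} (hh : 0 < h) {y z : H} (hz : (z, h⁻¹ • (y - z)) ∈ A) : resolvent A h y = z := by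
  have h1 := resolvent_spec hr hh y
  set r := resolvent A h y with hrr
  have h2 := hm _ h1 _ hz
  have h3 : inner ℝ (r - z) (h⁻¹ • (y - r) - h⁻¹ • (y - z)) = -(h⁻¹ * ‖r - z‖ ^ 2) := by
    rw [← smul_sub, real_inner_smul_right]
    have : y - r - (y - z) = -(r - z) := by abel
    rw [this, inner_neg_right, real_inner_self_eq_norm_sq]
    ring
  have h4 : 0 ≤ -(h⁻¹ * ‖r - z‖ ^ 2) := h3 ▸ h2
  have h5 : 0 < h⁻¹ := inv_pos.mpr hh
  have h6 : ‖r - z‖ ^ 2 ≤ 0 := by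
    by_contra hc
    push Not at hc
    have := mul_pos h5 hc
    linarith
  have h7 : ‖r - z‖ = 0 := by nlinarith [norm_nonneg (r - z)]
  exact sub_eq_zero.mp (norm_eq_zero.mp h7)

variable {N : ℕ} {Ω : Set (E N)} {a α : ℝ}

/-- the functions of an element of the energy space -/
noncomputable def fns (Y : X Ω) : (E N → E N) × (E N → ℝ) :=
  (((Y.fst : L2v Ω) : E N → E N), (Y.snd : E N → ℝ))

theorem rep_fns (Y : X Ω) : Rep Ω (fns Y) Y := ⟨ae_eq_refl _, ae_eq_refl _⟩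

theorem shift_lim {S : ℝ → X Ω → X Ω} (hS : IsGenerated (waveOp Ω a α) S) {t : ℝ} (ht : 0 ≤ t)
    (Y : X Ω) : Tendsto (fun n : ℕ => (resolvent (waveOp Ω a α) (t / ((n : ℝ) + 1)))^[n + 1] Y) atTop
      (𝓝 (S t Y)) := by
  have h1 := (hS t ht Y).comp (tendsto_add_atTop_nat 1)
  refine h1.congr fun n => ?_
  simp only [Function.comp_apply]
  push_cast
  rfl

theorem traj_rep (ha : 0 < a) (hα : 0 < α)
    {S : ℝ → X Ω → X Ω} (hS : IsGenerated (waveOp Ω a α) S)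
    {x : ℝ → (E N → E N) × (E N → ℝ)} (hx : SCF.IsTrajectory Ω a α x) {Y : X Ω}
    (h0 : Rep Ω (x 0) Y) {t : ℝ} (ht : 0 ≤ t) : Rep Ω (x t) (S t Y) := by
  have hm : IsMonotone (waveOp Ω a α) := waveOp_mono ha hα
  have hr : ∀ h : ℝ, 0 < h → ∀ x : X Ω, ∃ y z : X Ω, (y, z) ∈ waveOp Ω a α ∧ y + h • z = x :=
    fun h hh x => waveOp_range ha hα hh x
  rcases ht.eq_or_lt with h | h
  · rw [← h, generated_zero hS]; exact h0
  obtain ⟨z, hz0, hz1, hz2⟩ := hx.2 t h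
  obtain ⟨T, hT⟩ := exists_rep (hx.1 t ht)
  have key : ∀ n k : ℕ, Rep Ω (z n k) ((resolvent (waveOp Ω a α) (t / ((n : ℝ) + 1)))^[k] Y) := by
    intro n k
    induction k with
    | zero => rw [hz0]; exact h0
    | succ k ih =>
      have hst := hz1 n k
      obtain ⟨Z, hZ⟩ := exists_rep hst.1
      have hh : 0 < t / ((n : ℝ) + 1) := by positivity
      have h2 := waveOp_of_step hh ih hZ hst
      rw [Function.iterate_succ_apply', resolvent_eq hm hr hh h2]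
      exact hZ
  have h3 : Tendsto (fun n : ℕ =>
      ‖(resolvent (waveOp Ω a α) (t / ((n : ℝ) + 1)))^[n + 1] Y - T‖ ^ 2) atTop (𝓝 0) := by
    refine hz2.congr fun n => ?_
    exact rep_sqDist (key n (n + 1)) hT
  have h4 : Tendsto (fun n : ℕ =>
      ‖(resolvent (waveOp Ω a α) (t / ((n : ℝ) + 1)))^[n + 1] Y - T‖ ^ 2) atTop
      (𝓝 (‖S t Y - T‖ ^ 2)) := (((shift_lim hS ht Y).sub_const T).norm).pow 2
  have h5 := tendsto_nhds_unique h3 h4
  have h6 : ‖S t Y - T‖ = 0 := by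
    have : ‖S t Y - T‖ ^ 2 = 0 := h5.symm
    exact pow_eq_zero_iff (two_ne_zero) |>.mp this
  have h7 : S t Y = T := sub_eq_zero.mp (norm_eq_zero.mp h6)
  rw [h7]
  exact hT

theorem traj_of_rep (hN : 2 ≤ N) (hΩo : IsOpen Ω) (hΩ : Bornology.IsBounded Ω) (ha : 0 < a)
    (hα : 0 < α) {S : ℝ → X Ω → X Ω} (hS : IsGenerated (waveOp Ω a α) S)
    {x : ℝ → (E N → E N) × (E N → ℝ)} {Y : X Ω} (h : ∀ t, 0 ≤ t → Rep Ω (x t) (S t Y)) :
    SCF.IsTrajectory Ω a α x := by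
  have hr : ∀ h : ℝ, 0 < h → ∀ x : X Ω, ∃ y z : X Ω, (y, z) ∈ waveOp Ω a α ∧ y + h • z = x :=
    fun h hh x => waveOp_range ha hα hh x
  have h0 : Rep Ω (x 0) Y := by
    have := h 0 le_rfl
    rwa [generated_zero hS] at this
  refine ⟨fun t ht => state_of_rep hN hΩo hΩ (h t ht), fun t ht => ?_⟩
  refine ⟨fun n k => if k = 0 then x 0 else
    fns ((resolvent (waveOp Ω a α) (t / ((n : ℝ) + 1)))^[k] Y), fun n => by simp, ?_, ?_⟩
  · intro n k
    have hh : 0 < t / ((n : ℝ) + 1) := by positivity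
    have h1 : Rep Ω (if k = 0 then x 0 else
        fns ((resolvent (waveOp Ω a α) (t / ((n : ℝ) + 1)))^[k] Y))
        ((resolvent (waveOp Ω a α) (t / ((n : ℝ) + 1)))^[k] Y) := by
      split_ifs with hk
      · rw [hk]; exact h0
      · exact rep_fns _
    have h2 : Rep Ω (fns ((resolvent (waveOp Ω a α) (t / ((n : ℝ) + 1)))^[k + 1] Y))
        ((resolvent (waveOp Ω a α) (t / ((n : ℝ) + 1)))^[k + 1] Y) := rep_fns _
    have h3 := resolvent_spec hr hh ((resolvent (waveOp Ω a α) (t / ((n : ℝ) + 1)))^[k] Y)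
    rw [← Function.iterate_succ_apply' (resolvent (waveOp Ω a α) (t / ((n : ℝ) + 1))) k Y] at h3
    have h4 := step_of_waveOp hh h1 h2 (state_of_rep hN hΩo hΩ h2) h3
    simpa using h4
  · have h5 : Tendsto (fun n : ℕ =>
        ‖(resolvent (waveOp Ω a α) (t / ((n : ℝ) + 1)))^[n + 1] Y - S t Y‖ ^ 2) atTop (𝓝 0) := by
      have := (((shift_lim hS ht.le Y).sub_const (S t Y)).norm).pow 2
      simpa using this
    refine h5.congr fun n => ?_
    simp only [Nat.add_eq_zero_iff, one_ne_zero, and_false, if_false]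
    exact (rep_sqDist (rep_fns _) (h t ht.le)).symm

/-- the whole supercritical statement for functions -/
theorem supercritical_fns (hN : 3 ≤ N) (hΩo : IsOpen Ω) (hΩb : Bornology.IsBounded Ω)
    (hne : Ω.Nonempty) (ha : 0 < a) (hα : 4 / ((N : ℝ) - 2) < α) :
    (∀ x, SCF.IsState Ω x → ∃ y, SCF.IsTrajectory Ω a α y ∧ y 0 = x) ∧
    (∀ x y, SCF.IsTrajectory Ω a α x → SCF.IsTrajectory Ω a α y → ∀ t, 0 ≤ t →
      SCF.sqDist Ω (x t) (y t) ≤ SCF.sqDist Ω (x 0) (y 0)) ∧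
    (∀ x, SCF.IsTrajectory Ω a α x → ∀ s, 0 ≤ s → SCF.IsTrajectory Ω a α (fun t => x (s + t))) ∧
    ∀ ρ : ℝ → ℝ, (∀ t, 0 ≤ t → 0 < ρ t) → Tendsto ρ atTop (𝓝 0) →
      ∀ x, SCF.IsState Ω x → ∀ ε > 0, ∃ y, SCF.IsState Ω y ∧ SCF.sqDist Ω x y < ε ∧
        0 < SCF.energy Ω y ∧ ∀ z, SCF.IsTrajectory Ω a α z → z 0 = y →
          ∀ C : ℝ, ∃ t, 0 ≤ t ∧ C * ρ t < SCF.energy Ω (z t) := by
  have hN2 : (0 : ℝ) < (N : ℝ) - 2 := by
    have : (3 : ℝ) ≤ N := by exact_mod_cast hN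
    linarith
  have hN' : 2 ≤ N := by omega
  have hα0 : 0 < α := lt_trans (by positivity) hα
  have hm : IsMonotone (waveOp Ω a α) := waveOp_mono ha hα0
  have hr : ∀ h : ℝ, 0 < h → ∀ x : X Ω, ∃ y z : X Ω, (y, z) ∈ waveOp Ω a α ∧ y + h • z = x :=
    fun h hh x => waveOp_range ha hα0 hh x
  have hd : Dense {y : X Ω | ∃ z : X Ω, (y, z) ∈ waveOp Ω a α} := waveOp_dense hΩo hα0
  obtain ⟨S, hS⟩ := cl_exists hm hr hd
  refine ⟨?_, ?_, ?_, ?_⟩
  · intro x hx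
    obtain ⟨Y, hY⟩ := exists_rep hx
    refine ⟨fun t => if t = 0 then x else fns (S t Y), ?_, by simp⟩
    refine traj_of_rep hN' hΩo hΩb ha hα0 hS (Y := Y) fun t _ => ?_
    show Rep Ω (if t = 0 then x else fns (S t Y)) (S t Y)
    split_ifs with h
    · rw [h, generated_zero hS]; exact hY
    · exact rep_fns _
  · intro x y hx hy t ht
    obtain ⟨Y, hY⟩ := exists_rep (hx.1 0 le_rfl)
    obtain ⟨Z, hZ⟩ := exists_rep (hy.1 0 le_rfl)
    rw [rep_sqDist (traj_rep ha hα0 hS hx hY ht) (traj_rep ha hα0 hS hy hZ ht), rep_sqDist hY hZ]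
    have := generated_nonexp hm hr hS ht Y Z
    gcongr
  · intro x hx s hs
    obtain ⟨Y, hY⟩ := exists_rep (hx.1 0 le_rfl)
    refine traj_of_rep hN' hΩo hΩb ha hα0 hS (Y := S s Y) fun t ht => ?_
    have h1 := traj_rep ha hα0 hS hx hY (add_nonneg hs ht)
    rw [← generated_add hm hr hd hS ht hs Y, add_comm t s]
    exact h1
  · intro ρ hρ hρ0 x hx ε hε
    obtain ⟨Y, hY⟩ := exists_rep hx
    obtain ⟨-, hdense⟩ := supercritical hN hΩo hne ha hα hS hρ hρ0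
    obtain ⟨Z, hZ, hYZ⟩ := hdense.exists_dist_lt Y (ε := Real.sqrt ε) (Real.sqrt_pos.mpr hε)
    have hYZ' : ‖Y - Z‖ ^ 2 < ε := by
      rw [dist_eq_norm] at hYZ
      calc ‖Y - Z‖ ^ 2 < Real.sqrt ε ^ 2 := by gcongr
        _ = ε := Real.sq_sqrt hε.le
    have hZ0 : Z ≠ 0 := by
      rintro rfl
      obtain ⟨t, ht, h1⟩ := hZ 0
      rw [zero_fixed ha hα0 hS ht, energy_eq] at h1
      simp at h1
    refine ⟨fns Z, state_of_rep hN' hΩo hΩb (rep_fns Z), ?_, ?_, ?_⟩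
    · rw [rep_sqDist hY (rep_fns Z)]; exact hYZ'
    · rw [rep_energy (rep_fns Z)]
      have := norm_pos_iff.mpr hZ0
      positivity
    · intro z hz hz0 C
      obtain ⟨t, ht, h1⟩ := hZ C
      refine ⟨t, ht, ?_⟩
      have h2 : Rep Ω (z 0) Z := by rw [hz0]; exact rep_fns Z
      rw [rep_energy (traj_rep ha hα0 hS hz h2 ht)]
      rwa [energy_eq] at h1

end Pool.Agent.Helper420.SC
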