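import Mathlib
import Pool.Agent.Helper420.SC.L01

set_option autoImplicit false
set_option linter.unusedVariables false

open MeasureTheory Set Filter Topology
open scoped ENNReal NNReal InnerProductSpace

namespace Pool.Agent.Helper420.SC


variable {N : ℕ} {Ω : Set (E N)} {a α : ℝ}





theorem pow_mono_aux (hα : 0 < α) {r s : ℝ} (h : s ≤ r) : |s| ^ α * s ≤ |r| ^ α * r := by
  rcases le_or_gt 0 s with hs | hs
  · have hr : 0 ≤ r := hs.trans h
    rw [abs_of_nonneg hs, abs_of_nonneg hr]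
    exact mul_le_mul (Real.rpow_le_rpow hs h hα.le) h hs (Real.rpow_nonneg hr _)
  · rcases le_or_gt 0 r with hr | hr
    · have h1 : |s| ^ α * s ≤ 0 :=
        mul_nonpos_of_nonneg_of_nonpos (Real.rpow_nonneg (abs_nonneg _) _) hs.le
      have h2 : 0 ≤ |r| ^ α * r := mul_nonneg (Real.rpow_nonneg (abs_nonneg _) _) hr
      exact h1.trans h2
    · rw [abs_of_neg hs, abs_of_neg hr]
      have h1 : (-r) ^ α * (-r) ≤ (-s) ^ α * (-s) :=
        mul_le_mul (Real.rpow_le_rpow (by linarith) (by linarith) hα.le) (by linarith)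
          (by linarith) (Real.rpow_nonneg (by linarith) _)
      linarith

theorem pow_mono (hα : 0 < α) (r s : ℝ) : 0 ≤ (|r| ^ α * r - |s| ^ α * s) * (r - s) := by
  rcases le_total s r with h | h
  · exact mul_nonneg (sub_nonneg.2 (pow_mono_aux hα h)) (sub_nonneg.2 h)
  · exact mul_nonneg_of_nonpos_of_nonpos (sub_nonpos.2 (pow_mono_aux hα h)) (sub_nonpos.2 h)

theorem pow_bound_aux (hα : 0 < α) {r s : ℝ} (hr : 0 ≤ r) (hs : 0 ≤ s) :
    r ^ α * r * s ≤ r ^ (α + 2) + s ^ (α + 2) := by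
  have key : ∀ t : ℝ, 0 ≤ t → t ^ α * t * t = t ^ (α + 2) := by
    intro t ht
    rcases ht.eq_or_lt with rfl | ht
    · simp [Real.zero_rpow (by linarith : α + 2 ≠ 0)]
    · rw [Real.rpow_add ht, Real.rpow_two]; ring
  rcases le_total r s with h | h
  · have h1 : r ^ α * r * s ≤ s ^ α * s * s := by
      apply mul_le_mul_of_nonneg_right _ hs
      exact mul_le_mul (Real.rpow_le_rpow hr h hα.le) h hr (Real.rpow_nonneg hs _)
    rw [key s hs] at h1
    have := Real.rpow_nonneg hr (α + 2)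
    linarith
  · have h1 : r ^ α * r * s ≤ r ^ α * r * r :=
      mul_le_mul_of_nonneg_left h (mul_nonneg (Real.rpow_nonneg hr _) hr)
    rw [key r hr] at h1
    have := Real.rpow_nonneg hs (α + 2)
    linarith

theorem int_aux (hα : 0 < α) {μ : Measure (E N)} {f h : E N → ℝ}
    (hf : MemLp f (ENNReal.ofReal (α + 2)) μ) (hh : MemLp h (ENNReal.ofReal (α + 2)) μ) :
    Integrable (fun y => |f y| ^ α * f y * h y) μ := by
  have hp0 : ENNReal.ofReal (α + 2) ≠ 0 := by
    rw [Ne, ENNReal.ofReal_eq_zero]; linarith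
  have hpt : (ENNReal.ofReal (α + 2)).toReal = α + 2 := ENNReal.toReal_ofReal (by linarith)
  have h1 := hf.integrable_norm_rpow hp0 ENNReal.ofReal_ne_top
  have h2 := hh.integrable_norm_rpow hp0 ENNReal.ofReal_ne_top
  rw [hpt] at h1 h2
  refine (h1.add h2).mono' ?_ ?_
  · have hfm := hf.1.aemeasurable
    have hhm := hh.1.aemeasurable
    exact (((hfm.abs.pow_const α).mul hfm).mul hhm).aestronglyMeasurable
  · refine Filter.Eventually.of_forall fun y => ?_
    simp only [Real.norm_eq_abs, abs_mul, Pi.add_apply]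
    rw [abs_of_nonneg (Real.rpow_nonneg (abs_nonneg (f y)) α)]
    exact pow_bound_aux hα (abs_nonneg _) (abs_nonneg _)

theorem inner_L2_aux (f h : L2 Ω) : ∫ y in Ω, f y * h y = inner ℝ h f := by
  rw [MeasureTheory.L2.inner_def]
  refine integral_congr_ae (Filter.Eventually.of_forall fun y => ?_)
  simp

theorem waveOp_mono (ha : 0 < a) (hα : 0 < α) : IsMonotone (waveOp Ω a α) := by
  rintro p ⟨g, gv, v, w, hv, hvm, hw, rfl⟩ q ⟨g', gv', v', w', hv', hvm', hw', rfl⟩
  have hP : ((v - v' : L2 Ω), ((gv : L2v Ω) - (gv' : L2v Ω))) ∈ H10 Ω := by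
    have h := H10_add hv (H10_smul (-1) hv')
    convert h using 1
    simp [sub_eq_add_neg]
  have hPm : MemLp (v - v' : L2 Ω) (ENNReal.ofReal (α + 2)) (volume.restrict Ω) :=
    (memLp_congr_ae (Lp.coeFn_sub v v')).2 (hvm.sub hvm')
  have e1 := hw _ hP hPm
  have e2 := hw' _ hP hPm
  simp only [] at e1 e2
  rw [inner_L2_aux, ← MeasureTheory.L2.inner_def (𝕜 := ℝ) (g : L2v Ω)
    ((gv : L2v Ω) - (gv' : L2v Ω))] at e1
  rw [inner_L2_aux, ← MeasureTheory.L2.inner_def (𝕜 := ℝ) (g' : L2v Ω)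
    ((gv : L2v Ω) - (gv' : L2v Ω))] at e2
  have i1 : Integrable (fun y => |v y| ^ α * v y * (v - v' : L2 Ω) y) (volume.restrict Ω) :=
    int_aux hα hvm hPm
  have i2 : Integrable (fun y => |v' y| ^ α * v' y * (v - v' : L2 Ω) y) (volume.restrict Ω) :=
    int_aux hα hvm' hPm
  have hI : 0 ≤ (∫ y in Ω, |v y| ^ α * v y * (v - v' : L2 Ω) y) -
      ∫ y in Ω, |v' y| ^ α * v' y * (v - v' : L2 Ω) y := by
    rw [← integral_sub i1 i2]
    apply integral_nonneg_of_ae
    filter_upwards [Lp.coeFn_sub v v'] with y hy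
    rw [hy]
    simp only [Pi.sub_apply, Pi.zero_apply]
    have := pow_mono hα (v y) (v' y)
    linarith
  have hinner : inner ℝ ((WithLp.toLp 2 (g, v) : X Ω) - WithLp.toLp 2 (g', v'))
      ((WithLp.toLp 2 (-gv, w) : X Ω) - WithLp.toLp 2 (-gv', w')) =
      - inner ℝ ((g : L2v Ω) - (g' : L2v Ω)) ((gv : L2v Ω) - (gv' : L2v Ω)) +
        inner ℝ (v - v') (w - w') := by
    rw [← WithLp.toLp_sub, ← WithLp.toLp_sub, WithLp.prod_inner_apply]
    simp only [Prod.mk_sub_mk]
    congr 1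
    rw [← inner_neg_right]
    show inner ℝ ((g - g' : Grad Ω) : L2v Ω) ((-gv - -gv' : Grad Ω) : L2v Ω) = _
    congr 1
    push_cast
    abel
  show 0 ≤ inner ℝ ((WithLp.toLp 2 (g, v) : X Ω) - WithLp.toLp 2 (g', v'))
      ((WithLp.toLp 2 (-gv, w) : X Ω) - WithLp.toLp 2 (-gv', w'))
  rw [hinner, inner_sub_left, inner_sub_right (v - v') w w', e1, e2]
  have := mul_nonneg ha.le hI
  linarith


end Pool.Agent.Helper420.SC
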