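import Mathlib
import Pool.Agent.Helper420.SC.Defs

set_option autoImplicit false
set_option linter.unusedVariables false

open MeasureTheory Set Filter Topology
open scoped ENNReal NNReal InnerProductSpace

namespace Pool.Agent.Helper420.SC


variable {H : Type*} [NormedAddCommGroup H] [InnerProductSpace ℝ H]

/-- Minty (easy half): monotone + range implies maximal monotone -/
theorem maximal_of_range {A : Set (H × H)} (hm : IsMonotone A)
    (hr : ∀ x : H, ∃ y z : H, (y, z) ∈ A ∧ y + (1 : ℝ) • z = x) : IsMaximalMonotone A := by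
  refine ⟨hm, ?_⟩
  intro B hB hAB
  refine Set.Subset.antisymm ?_ hAB
  rintro ⟨u, v⟩ huv
  obtain ⟨y, z, hyz, hsum⟩ := hr (u + v)
  rw [one_smul] at hsum
  have h1 := hB (u, v) huv (y, z) (hAB hyz)
  simp only at h1
  have h2 : v - z = -(u - y) := by
    have : v = y + z - u := by rw [hsum]; abel
    rw [this]; abel
  rw [h2, inner_neg_right, real_inner_self_eq_norm_sq] at h1
  have h3 : ‖u - y‖ = 0 := by
    have : ‖u - y‖ ^ 2 ≤ 0 := by linarith
    exact pow_eq_zero_iff (two_ne_zero) |>.1 (le_antisymm this (by positivity))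
  have h4 : u = y := sub_eq_zero.1 (norm_eq_zero.1 h3)
  have h5 : v = z := by
    rw [h4, sub_self, neg_zero] at h2
    exact sub_eq_zero.1 h2
  rw [h4, h5]
  exact hyz

theorem resolvent_spec {A : Set (H × H)} 
    (hr : ∀ h : ℝ, 0 < h → ∀ x : H, ∃ y z : H, (y, z) ∈ A ∧ y + h • z = x) {h : ℝ} (hh : 0 < h) (x : H) :
    (resolvent A h x, h⁻¹ • (x - resolvent A h x)) ∈ A := by
  have hx := hr h hh x
  have hres : resolvent A h x = hx.choose := by
    unfold resolvent
    rw [dif_pos hx]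
  obtain ⟨z, hz, hsum⟩ := hx.choose_spec
  rw [← hres] at hz hsum
  have h1 : h⁻¹ • (x - resolvent A h x) = z := by
    have : x - resolvent A h x = h • z := by
      rw [sub_eq_iff_eq_add, add_comm]; exact hsum.symm
    rw [this, smul_smul, inv_mul_cancel₀ hh.ne', one_smul]
  rw [h1]
  exact hz

theorem resolvent_zero (A : Set (H × H)) (x : H) : resolvent A 0 x = x := by
  unfold resolvent
  split_ifs with hx
  · obtain ⟨z, _, hsum⟩ := hx.choose_spec
    rw [zero_smul, add_zero] at hsum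
    exact hsum
  · rfl

theorem resolvent_nonexp {A : Set (H × H)} (hm : IsMonotone A)
    (hr : ∀ h : ℝ, 0 < h → ∀ x : H, ∃ y z : H, (y, z) ∈ A ∧ y + h • z = x) {h : ℝ} (hh : 0 ≤ h) (x y : H) :
    ‖resolvent A h x - resolvent A h y‖ ≤ ‖x - y‖ := by
  rcases hh.eq_or_lt with h0 | hh
  · rw [← h0, resolvent_zero, resolvent_zero]
  have hp := resolvent_spec hr hh x
  have hq := resolvent_spec hr hh y
  have h1 := hm _ hp _ hq
  simp only at h1
  rw [← smul_sub, inner_smul_right] at h1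
  have h2 : 0 ≤ inner ℝ (resolvent A h x - resolvent A h y)
      ((x - resolvent A h x) - (y - resolvent A h y)) := by
    by_contra hcon
    push Not at hcon
    have := mul_neg_of_pos_of_neg (inv_pos.2 hh) hcon
    linarith
  have h3 : (x - resolvent A h x) - (y - resolvent A h y) =
      (x - y) - (resolvent A h x - resolvent A h y) := by abel
  rw [h3, inner_sub_right, real_inner_self_eq_norm_sq] at h2
  have h4 := real_inner_le_norm (resolvent A h x - resolvent A h y) (x - y)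
  by_contra hcon
  push Not at hcon
  have h5 : 0 < ‖resolvent A h x - resolvent A h y‖ := lt_of_le_of_lt (norm_nonneg _) hcon
  nlinarith

theorem resolvent_unique {A : Set (H × H)} (hm : IsMonotone A)
    (hr : ∀ h : ℝ, 0 < h → ∀ x : H, ∃ y z : H, (y, z) ∈ A ∧ y + h • z = x) {h : ℝ} (hh : 0 < h)
    {y z w : H} (hyz : (y, z) ∈ A) (hw : y + h • z = w) : resolvent A h w = y := by
  have hp := resolvent_spec hr hh w
  have h1 := hm _ hp _ hyz
  simp only at h1
  have hz : z = h⁻¹ • (w - y) := by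
    have : w - y = h • z := by rw [← hw]; abel
    rw [this, smul_smul, inv_mul_cancel₀ hh.ne', one_smul]
  rw [hz, ← smul_sub] at h1
  have h2 : (w - resolvent A h w) - (w - y) = -(resolvent A h w - y) := by abel
  rw [h2, inner_smul_right, inner_neg_right, real_inner_self_eq_norm_sq] at h1
  have h3 : ‖resolvent A h w - y‖ ^ 2 ≤ 0 := by
    by_contra hcon
    push Not at hcon
    have := mul_pos (inv_pos.2 hh) hcon
    nlinarith
  have h4 : ‖resolvent A h w - y‖ = 0 :=
    pow_eq_zero_iff (two_ne_zero) |>.1 (le_antisymm h3 (by positivity))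
  exact sub_eq_zero.1 (norm_eq_zero.1 h4)

theorem iter_nonexp {A : Set (H × H)} (hm : IsMonotone A)
    (hr : ∀ h : ℝ, 0 < h → ∀ x : H, ∃ y z : H, (y, z) ∈ A ∧ y + h • z = x) {h : ℝ} (hh : 0 ≤ h)
    (n : ℕ) (x y : H) :
    ‖(resolvent A h)^[n] x - (resolvent A h)^[n] y‖ ≤ ‖x - y‖ := by
  induction n with
  | zero => simp
  | succ n ih =>
    rw [Function.iterate_succ_apply', Function.iterate_succ_apply']
    exact (resolvent_nonexp hm hr hh _ _).trans ih

theorem iter_bound {A : Set (H × H)} (hm : IsMonotone A)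
    (hr : ∀ h : ℝ, 0 < h → ∀ x : H, ∃ y z : H, (y, z) ∈ A ∧ y + h • z = x) {l : ℝ} (hl : 0 < l)
    {x z : H} (hx : (x, z) ∈ A) (m : ℕ) : ‖(resolvent A l)^[m] x - x‖ ≤ m * l * ‖z‖ := by
  have h1 : ‖resolvent A l x - x‖ ≤ l * ‖z‖ := by
    have h2 : resolvent A l (x + l • z) = x := resolvent_unique hm hr hl hx rfl
    calc ‖resolvent A l x - x‖ = ‖resolvent A l x - resolvent A l (x + l • z)‖ := by rw [h2]
      _ ≤ ‖x - (x + l • z)‖ := resolvent_nonexp hm hr hl.le _ _
      _ = l * ‖z‖ := by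
        rw [sub_add_cancel_left, norm_neg, norm_smul, Real.norm_of_nonneg hl.le]
  induction m with
  | zero => simp
  | succ m ih =>
    rw [Function.iterate_succ_apply']
    have h3 : ‖resolvent A l ((resolvent A l)^[m] x) - resolvent A l x‖ ≤
        ‖(resolvent A l)^[m] x - x‖ := resolvent_nonexp hm hr hl.le _ _
    have h4 : resolvent A l ((resolvent A l)^[m] x) - x =
        (resolvent A l ((resolvent A l)^[m] x) - resolvent A l x) + (resolvent A l x - x) := by abel
    rw [h4]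
    refine (norm_add_le _ _).trans ?_
    push_cast
    linarith

theorem koba_step {A : Set (H × H)} (hm : IsMonotone A)
    (hr : ∀ h : ℝ, 0 < h → ∀ x : H, ∃ y z : H, (y, z) ∈ A ∧ y + h • z = x) {l μ : ℝ} (hl : 0 < l)
    (hμ : 0 < μ) (p' q' : H) :
    (l + μ) * ‖resolvent A l p' - resolvent A μ q'‖ ≤
      μ * ‖p' - resolvent A μ q'‖ + l * ‖resolvent A l p' - q'‖ := by
  obtain ⟨p, hp⟩ : ∃ p, p = resolvent A l p' := ⟨_, rfl⟩
  obtain ⟨q, hq⟩ : ∃ q, q = resolvent A μ q' := ⟨_, rfl⟩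
  have h1 := resolvent_spec hr hl p'
  have h2 := resolvent_spec hr hμ q'
  rw [← hp] at h1 ⊢
  rw [← hq] at h2 ⊢
  have h3 := hm _ h1 _ h2
  simp only at h3
  have h4 : (l * μ) • (l⁻¹ • (p' - p) - μ⁻¹ • (q' - q)) =
      μ • (p' - q) + l • (p - q') - (l + μ) • (p - q) := by
    rw [smul_sub, smul_smul, smul_smul]
    have e1 : l * μ * l⁻¹ = μ := by field_simp
    have e2 : l * μ * μ⁻¹ = l := by field_simp
    rw [e1, e2]
    simp only [smul_sub, add_smul]
    abel
  have h5 : 0 ≤ inner ℝ (p - q) (μ • (p' - q) + l • (p - q') - (l + μ) • (p - q)) := by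
    rw [← h4, inner_smul_right]
    exact mul_nonneg (mul_pos hl hμ).le h3
  rw [inner_sub_right, inner_add_right, inner_smul_right, inner_smul_right, inner_smul_right,
    real_inner_self_eq_norm_sq] at h5
  have h6 := real_inner_le_norm (p - q) (p' - q)
  have h7 := real_inner_le_norm (p - q) (p - q')
  rcases (norm_nonneg (p - q)).eq_or_lt with h8 | h8
  · rw [← h8, mul_zero]
    positivity
  · have h9 : μ * inner ℝ (p - q) (p' - q) ≤ μ * (‖p - q‖ * ‖p' - q‖) :=
      mul_le_mul_of_nonneg_left h6 hμ.le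
    have h10 : l * inner ℝ (p - q) (p - q') ≤ l * (‖p - q‖ * ‖p - q'‖) :=
      mul_le_mul_of_nonneg_left h7 hl.le
    have h11 : ‖p - q‖ * ((l + μ) * ‖p - q‖) ≤ ‖p - q‖ * (μ * ‖p' - q‖ + l * ‖p - q'‖) := by
      nlinarith
    exact le_of_mul_le_mul_left h11 h8

/-- Kobayashi estimate -/
theorem kobayashi {A : Set (H × H)} (hm : IsMonotone A)
    (hr : ∀ h : ℝ, 0 < h → ∀ x : H, ∃ y z : H, (y, z) ∈ A ∧ y + h • z = x) {l μ : ℝ} (hl : 0 < l)
    (hμ : 0 < μ) {x z : H} (hx : (x, z) ∈ A) (m n : ℕ) :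
    ‖(resolvent A l)^[m] x - (resolvent A μ)^[n] x‖ ≤
      ‖z‖ * Real.sqrt ((m * l - n * μ) ^ 2 + m * l ^ 2 + n * μ ^ 2) := by
  induction m generalizing n with
  | zero =>
    have h1 := iter_bound hm hr hμ hx n
    rw [Function.iterate_zero_apply, norm_sub_rev]
    refine h1.trans ?_
    rw [mul_comm]
    apply mul_le_mul_of_nonneg_left _ (norm_nonneg z)
    apply Real.le_sqrt_of_sq_le
    push_cast
    nlinarith [mul_nonneg (Nat.cast_nonneg (α := ℝ) n) (sq_nonneg μ)]
  | succ m ihm =>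
    induction n with
    | zero =>
      have h1 := iter_bound hm hr hl hx (m + 1)
      rw [Function.iterate_zero_apply]
      refine h1.trans ?_
      rw [mul_comm]
      apply mul_le_mul_of_nonneg_left _ (norm_nonneg z)
      apply Real.le_sqrt_of_sq_le
      push_cast
      nlinarith [mul_nonneg (Nat.cast_nonneg (α := ℝ) (m + 1)) (sq_nonneg l),
        mul_nonneg (Nat.cast_nonneg (α := ℝ) m) (sq_nonneg l), sq_nonneg l]
    | succ n ihn =>
      have h1 := koba_step hm hr hl hμ ((resolvent A l)^[m] x) ((resolvent A μ)^[n] x)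
      rw [← Function.iterate_succ_apply' (resolvent A l), ← Function.iterate_succ_apply'
        (resolvent A μ)] at h1
      have h2 := ihm (n + 1)
      have h3 := ihn
      obtain ⟨a, ha⟩ : ∃ a : ℝ, a = (((m + 1 : ℕ) : ℝ) * l - (n : ℝ) * μ) ^ 2 +
        ((m + 1 : ℕ) : ℝ) * l ^ 2 + (n : ℝ) * μ ^ 2 := ⟨_, rfl⟩
      obtain ⟨b, hb⟩ : ∃ b : ℝ, b = ((m : ℝ) * l - ((n + 1 : ℕ) : ℝ) * μ) ^ 2 +
        (m : ℝ) * l ^ 2 + ((n + 1 : ℕ) : ℝ) * μ ^ 2 := ⟨_, rfl⟩
      obtain ⟨c, hc⟩ : ∃ c : ℝ, c = (((m + 1 : ℕ) : ℝ) * l - ((n + 1 : ℕ) : ℝ) * μ) ^ 2 +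
        ((m + 1 : ℕ) : ℝ) * l ^ 2 + ((n + 1 : ℕ) : ℝ) * μ ^ 2 := ⟨_, rfl⟩
      rw [← ha] at h3
      rw [← hb] at h2
      rw [← hc]
      have ha0 : 0 ≤ a := by rw [ha]; positivity
      have hb0 : 0 ≤ b := by rw [hb]; positivity
      have hc0 : 0 ≤ c := by rw [hc]; positivity
      have hrel : l * a + μ * b = (l + μ) * c := by
        rw [ha, hb, hc]; push_cast; ring
      have hlμ : 0 < l + μ := by linarith
      have hconc : l * Real.sqrt a + μ * Real.sqrt b ≤ (l + μ) * Real.sqrt c := by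
        have hsa := Real.sq_sqrt ha0
        have hsb := Real.sq_sqrt hb0
        have hsc := Real.sq_sqrt hc0
        have h4 : (l * Real.sqrt a + μ * Real.sqrt b) ^ 2 ≤ ((l + μ) * Real.sqrt c) ^ 2 := by
          have h5 : ((l + μ) * Real.sqrt c) ^ 2 = (l + μ) * (l * a + μ * b) := by
            rw [mul_pow, hsc, hrel]; ring
          rw [h5]
          have h6 : (l + μ) * (l * a + μ * b) - (l * Real.sqrt a + μ * Real.sqrt b) ^ 2 =
              l * μ * (Real.sqrt a - Real.sqrt b) ^ 2 := by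
            have e1 : (l + μ) * (l * a + μ * b) = (l + μ) * (l * (Real.sqrt a) ^ 2 +
              μ * (Real.sqrt b) ^ 2) := by rw [hsa, hsb]
            rw [e1]; ring
          have h7 : 0 ≤ l * μ * (Real.sqrt a - Real.sqrt b) ^ 2 := by positivity
          linarith
        exact (pow_le_pow_iff_left₀ (by positivity) (by positivity) two_ne_zero).1 h4
      have h8 : (l + μ) * ‖(resolvent A l)^[m + 1] x - (resolvent A μ)^[n + 1] x‖ ≤
          (l + μ) * (‖z‖ * Real.sqrt c) := by
        have e1 : μ * ‖(resolvent A l)^[m] x - (resolvent A μ)^[n + 1] x‖ ≤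
            μ * (‖z‖ * Real.sqrt b) := mul_le_mul_of_nonneg_left h2 hμ.le
        have e2 : l * ‖(resolvent A l)^[m + 1] x - (resolvent A μ)^[n] x‖ ≤
            l * (‖z‖ * Real.sqrt a) := mul_le_mul_of_nonneg_left h3 hl.le
        have e3 : ‖z‖ * (l * Real.sqrt a + μ * Real.sqrt b) ≤ ‖z‖ * ((l + μ) * Real.sqrt c) :=
          mul_le_mul_of_nonneg_left hconc (norm_nonneg z)
        refine h1.trans ?_
        nlinarith
      exact le_of_mul_le_mul_left h8 hlμ

theorem cl_cauchy {A : Set (H × H)} (hm : IsMonotone A)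
    (hr : ∀ h : ℝ, 0 < h → ∀ x : H, ∃ y z : H, (y, z) ∈ A ∧ y + h • z = x)
    {t : ℝ} (ht : 0 < t) {x z : H} (hx : (x, z) ∈ A) (ε : ℝ) (hε : 0 < ε) :
    ∃ N : ℕ, ∀ m ≥ N, ∀ n ≥ N,
      ‖(resolvent A (t / m))^[m] x - (resolvent A (t / n))^[n] x‖ < ε := by
  have hlim : Tendsto (fun N : ℕ => ‖z‖ * Real.sqrt (2 * t ^ 2 / N)) atTop (𝓝 0) := by
    have h1 : Tendsto (fun N : ℕ => (2 * t ^ 2) / (N : ℝ)) atTop (𝓝 0) :=
      tendsto_const_div_atTop_nhds_zero_nat _
    have h2 := (Real.continuous_sqrt.tendsto 0).comp h1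
    rw [Real.sqrt_zero] at h2
    have h3 := h2.const_mul ‖z‖
    rw [mul_zero] at h3
    exact h3
  obtain ⟨N, hN⟩ := ((hlim.eventually_lt_const hε).and (eventually_ge_atTop 1)).exists
  obtain ⟨hN1, hN2⟩ := hN
  refine ⟨N, ?_⟩
  intro m hmN n hnN
  have hN0 : (0 : ℝ) < N := by exact_mod_cast hN2
  have hm0 : (0 : ℝ) < m := by exact_mod_cast (lt_of_lt_of_le hN2 hmN)
  have hn0 : (0 : ℝ) < n := by exact_mod_cast (lt_of_lt_of_le hN2 hnN)
  have h1 := kobayashi hm hr (div_pos ht hm0) (div_pos ht hn0) hx m n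
  refine lt_of_le_of_lt (h1.trans ?_) hN1
  apply mul_le_mul_of_nonneg_left _ (norm_nonneg z)
  apply Real.sqrt_le_sqrt
  have e1 : (m : ℝ) * (t / m) = t := by field_simp
  have e2 : (n : ℝ) * (t / n) = t := by field_simp
  have e3 : (m : ℝ) * (t / m) ^ 2 = t ^ 2 / m := by field_simp
  have e4 : (n : ℝ) * (t / n) ^ 2 = t ^ 2 / n := by field_simp
  rw [e1, e2, e3, e4, sub_self]
  have e5 : t ^ 2 / m ≤ t ^ 2 / N := by
    apply div_le_div_of_nonneg_left (by positivity) hN0
    exact_mod_cast hmN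
  have e6 : t ^ 2 / n ≤ t ^ 2 / N := by
    apply div_le_div_of_nonneg_left (by positivity) hN0
    exact_mod_cast hnN
  have e7 : 2 * t ^ 2 / N = t ^ 2 / N + t ^ 2 / N := by ring
  rw [e7]
  nlinarith

theorem cl_exists [CompleteSpace H] {A : Set (H × H)} (hm : IsMonotone A)
    (hr : ∀ h : ℝ, 0 < h → ∀ x : H, ∃ y z : H, (y, z) ∈ A ∧ y + h • z = x)
    (hd : Dense {y : H | ∃ z : H, (y, z) ∈ A}) : ∃ S : ℝ → H → H, IsGenerated A S := by
  have key : ∀ t : ℝ, ∀ x : H, ∃ y : H, 0 ≤ t →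
      Tendsto (fun n : ℕ => (resolvent A (t / n))^[n] x) atTop (𝓝 y) := by
    intro t x
    by_cases ht : 0 ≤ t
    swap
    · exact ⟨x, fun h => absurd h ht⟩
    rcases ht.eq_or_lt with h0 | htpos
    · refine ⟨x, fun _ => ?_⟩
      have h1 : ∀ n : ℕ, (resolvent A (t / n))^[n] x = x := by
        intro n
        rw [← h0, zero_div]
        apply Function.iterate_fixed
        exact resolvent_zero A x
      simp only [h1]
      exact tendsto_const_nhds
    · have hc : CauchySeq (fun n : ℕ => (resolvent A (t / n))^[n] x) := by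
        rw [Metric.cauchySeq_iff]
        intro ε hε
        obtain ⟨y, hxy, ⟨z, hyz⟩⟩ := Metric.dense_iff.1 hd x (ε / 3) (by linarith)
        rw [Metric.mem_ball, dist_comm, dist_eq_norm] at hxy
        obtain ⟨N, hN⟩ := cl_cauchy hm hr htpos hyz (ε / 3) (by linarith)
        refine ⟨N, ?_⟩
        intro m hmN n hnN
        have h1 := hN m hmN n hnN
        have h2 : ‖(resolvent A (t / m))^[m] x - (resolvent A (t / m))^[m] y‖ ≤ ‖x - y‖ :=
          iter_nonexp hm hr (by positivity) m x y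
        have h3 : ‖(resolvent A (t / n))^[n] x - (resolvent A (t / n))^[n] y‖ ≤ ‖x - y‖ :=
          iter_nonexp hm hr (by positivity) n x y
        rw [dist_eq_norm]
        have h4 : (resolvent A (t / m))^[m] x - (resolvent A (t / n))^[n] x =
            ((resolvent A (t / m))^[m] x - (resolvent A (t / m))^[m] y) +
            ((resolvent A (t / m))^[m] y - (resolvent A (t / n))^[n] y) -
            ((resolvent A (t / n))^[n] x - (resolvent A (t / n))^[n] y) := by abel
        rw [h4]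
        have h5 := norm_sub_le (((resolvent A (t / m))^[m] x - (resolvent A (t / m))^[m] y) +
            ((resolvent A (t / m))^[m] y - (resolvent A (t / n))^[n] y))
            ((resolvent A (t / n))^[n] x - (resolvent A (t / n))^[n] y)
        have h6 := norm_add_le ((resolvent A (t / m))^[m] x - (resolvent A (t / m))^[m] y)
            ((resolvent A (t / m))^[m] y - (resolvent A (t / n))^[n] y)
        linarith
      obtain ⟨y, hy⟩ := cauchySeq_tendsto_of_complete hc
      exact ⟨y, fun _ => hy⟩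
  choose S hS using key
  exact ⟨S, fun t ht x => hS t x ht⟩

theorem generated_nonexp {A : Set (H × H)} (hm : IsMonotone A)
    (hr : ∀ h : ℝ, 0 < h → ∀ x : H, ∃ y z : H, (y, z) ∈ A ∧ y + h • z = x)
    {S : ℝ → H → H} (hS : IsGenerated A S) {t : ℝ} (ht : 0 ≤ t) (x y : H) :
    ‖S t x - S t y‖ ≤ ‖x - y‖ := by
  have h1 := ((hS t ht x).sub (hS t ht y)).norm
  apply le_of_tendsto h1
  exact Filter.Eventually.of_forall fun n => iter_nonexp hm hr (by positivity) n x y


end Pool.Agent.Helper420.SC
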