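import Mathlib
import Pool.Agent.Helper420.SC.L03

set_option autoImplicit false
set_option linter.unusedVariables false

open MeasureTheory Set Filter Topology
open scoped ENNReal NNReal InnerProductSpace

namespace Pool.Agent.Helper420.SC


variable {H : Type*} [NormedAddCommGroup H] [InnerProductSpace ℝ H]





theorem generated_zero {A : Set (H × H)} {S : ℝ → H → H} (hS : IsGenerated A S) (x : H) :
    S 0 x = x := by
  have h := hS 0 le_rfl x
  have h2 : (fun n : ℕ => (resolvent A (0 / n))^[n] x) = fun _ => x := by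
    funext n
    rw [zero_div]
    have : resolvent A 0 = id := by
      funext y
      exact resolvent_zero A y
    rw [this, Function.iterate_id]
    rfl
  rw [h2] at h
  exact (tendsto_nhds_unique h tendsto_const_nhds)


theorem lip_pos833 {A : Set (H × H)} (hm : IsMonotone A)
    (hr : ∀ h : ℝ, 0 < h → ∀ x : H, ∃ y z : H, (y, z) ∈ A ∧ y + h • z = x)
    {S : ℝ → H → H} (hS : IsGenerated A S) {x z : H} (hx : (x, z) ∈ A) {s t : ℝ}
    (hs : 0 < s) (ht : 0 < t) : ‖S t x - S s x‖ ≤ ‖z‖ * |t - s| := by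
  have h1 := hS t ht.le x
  have h2 := hS s hs.le x
  have h3 : Tendsto (fun n : ℕ => ‖(resolvent A (t / n))^[n] x - (resolvent A (s / n))^[n] x‖)
      atTop (𝓝 ‖S t x - S s x‖) := (h1.sub h2).norm
  have h4 : Tendsto (fun n : ℕ => ‖z‖ * Real.sqrt ((t - s) ^ 2 + t ^ 2 / n + s ^ 2 / n)) atTop
      (𝓝 (‖z‖ * Real.sqrt ((t - s) ^ 2 + 0 + 0))) := by
    have a1 : Tendsto (fun n : ℕ => t ^ 2 / (n : ℝ)) atTop (𝓝 0) :=
      tendsto_const_div_atTop_nhds_zero_nat _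
    have a2 : Tendsto (fun n : ℕ => s ^ 2 / (n : ℝ)) atTop (𝓝 0) :=
      tendsto_const_div_atTop_nhds_zero_nat _
    have a3 := ((tendsto_const_nhds (x := (t - s) ^ 2) (f := (atTop : Filter ℕ))).add a1).add a2
    exact (((Real.continuous_sqrt.tendsto _).comp a3).const_mul ‖z‖)
  have h5 : ‖z‖ * Real.sqrt ((t - s) ^ 2 + 0 + 0) = ‖z‖ * |t - s| := by
    rw [add_zero, add_zero, Real.sqrt_sq_eq_abs]
  rw [h5] at h4
  refine le_of_tendsto_of_tendsto h3 h4 ?_
  filter_upwards [eventually_gt_atTop 0] with n hn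
  have hn' : (0 : ℝ) < n := by exact_mod_cast hn
  have hk := kobayashi hm hr (div_pos ht hn') (div_pos hs hn') hx n n
  have e : ((n : ℝ) * (t / n) - n * (s / n)) ^ 2 + n * (t / n) ^ 2 + n * (s / n) ^ 2
      = (t - s) ^ 2 + t ^ 2 / n + s ^ 2 / n := by
    field_simp
  rw [e] at hk
  exact hk

theorem lip_zero833 {A : Set (H × H)} (hm : IsMonotone A)
    (hr : ∀ h : ℝ, 0 < h → ∀ x : H, ∃ y z : H, (y, z) ∈ A ∧ y + h • z = x)
    {S : ℝ → H → H} (hS : IsGenerated A S) {x z : H} (hx : (x, z) ∈ A) {t : ℝ}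
    (ht : 0 < t) : ‖S t x - x‖ ≤ ‖z‖ * t := by
  have h1 := hS t ht.le x
  have h3 : Tendsto (fun n : ℕ => ‖(resolvent A (t / n))^[n] x - x‖)
      atTop (𝓝 ‖S t x - x‖) := (h1.sub tendsto_const_nhds).norm
  have h4 : Tendsto (fun n : ℕ => ‖z‖ * Real.sqrt (t ^ 2 + t ^ 2 / n)) atTop
      (𝓝 (‖z‖ * Real.sqrt (t ^ 2 + 0))) := by
    have a1 : Tendsto (fun n : ℕ => t ^ 2 / (n : ℝ)) atTop (𝓝 0) :=
      tendsto_const_div_atTop_nhds_zero_nat _
    have a3 := (tendsto_const_nhds (x := t ^ 2) (f := (atTop : Filter ℕ))).add a1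
    exact (((Real.continuous_sqrt.tendsto _).comp a3).const_mul ‖z‖)
  have h5 : ‖z‖ * Real.sqrt (t ^ 2 + 0) = ‖z‖ * t := by
    rw [add_zero, Real.sqrt_sq ht.le]
  rw [h5] at h4
  refine le_of_tendsto_of_tendsto h3 h4 ?_
  filter_upwards [eventually_gt_atTop 0] with n hn
  have hn' : (0 : ℝ) < n := by exact_mod_cast hn
  have hk := kobayashi hm hr (div_pos ht hn') one_pos hx n 0
  have e : ((n : ℝ) * (t / n) - (0 : ℕ) * 1) ^ 2 + n * (t / n) ^ 2 + (0 : ℕ) * 1 ^ 2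
      = t ^ 2 + t ^ 2 / n := by
    simp only [Nat.cast_zero]
    field_simp
    ring
  rw [e] at hk
  exact hk

theorem lip833 {A : Set (H × H)} (hm : IsMonotone A)
    (hr : ∀ h : ℝ, 0 < h → ∀ x : H, ∃ y z : H, (y, z) ∈ A ∧ y + h • z = x)
    {S : ℝ → H → H} (hS : IsGenerated A S) {x z : H} (hx : (x, z) ∈ A) {s t : ℝ}
    (hs : 0 ≤ s) (ht : 0 ≤ t) : ‖S t x - S s x‖ ≤ ‖z‖ * |t - s| := by
  rcases hs.eq_or_lt with rfl | hs
  · rcases ht.eq_or_lt with rfl | ht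
    · simp
    · rw [generated_zero hS, sub_zero, abs_of_pos ht]
      exact lip_zero833 hm hr hS hx ht
  · rcases ht.eq_or_lt with rfl | ht
    · rw [generated_zero hS, zero_sub, abs_neg, abs_of_pos hs, norm_sub_rev]
      exact lip_zero833 hm hr hS hx hs
    · exact lip_pos833 hm hr hS hx hs ht

theorem generated_cont {A : Set (H × H)} (hm : IsMonotone A)
    (hr : ∀ h : ℝ, 0 < h → ∀ x : H, ∃ y z : H, (y, z) ∈ A ∧ y + h • z = x)
    (hd : Dense {y : H | ∃ z : H, (y, z) ∈ A}) {S : ℝ → H → H} (hS : IsGenerated A S) (x : H) :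
    ContinuousOn (fun t => S t x) (Ici 0) := by
  rw [Metric.continuousOn_iff]
  intro s hs ε hε
  have hs0 : 0 ≤ s := hs
  obtain ⟨y, ⟨z, hyz⟩, hxy⟩ := hd.exists_dist_lt x (show (0 : ℝ) < ε / 3 by positivity)
  have hz1 : 0 < ‖z‖ + 1 := by positivity
  refine ⟨ε / 3 / (‖z‖ + 1), by positivity, ?_⟩
  intro t ht hts
  have ht0 : 0 ≤ t := ht
  rw [dist_eq_norm] at hxy ⊢
  rw [Real.dist_eq] at hts
  have h1 : ‖S t x - S t y‖ ≤ ‖x - y‖ := generated_nonexp hm hr hS ht0 x y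
  have h2 : ‖S s y - S s x‖ ≤ ‖x - y‖ := by
    rw [norm_sub_rev]
    exact generated_nonexp hm hr hS hs0 x y
  have h3 : ‖S t y - S s y‖ ≤ ‖z‖ * |t - s| := lip833 hm hr hS hyz hs0 ht0
  have h4 : ‖z‖ * |t - s| < ε / 3 := by
    have h5 : (‖z‖ + 1) * |t - s| < ε / 3 := by
      rw [lt_div_iff₀ hz1] at hts
      linarith
    have h6 : 0 ≤ |t - s| := abs_nonneg _
    nlinarith
  have h7 : S t x - S s x = (S t x - S t y) + (S t y - S s y) + (S s y - S s x) := by abel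
  show ‖S t x - S s x‖ < ε
  rw [h7]
  calc ‖(S t x - S t y) + (S t y - S s y) + (S s y - S s x)‖
      ≤ ‖S t x - S t y‖ + ‖S t y - S s y‖ + ‖S s y - S s x‖ := norm_add₃_le
    _ < ε := by linarith


theorem iter_nonexp833 {A : Set (H × H)} (hm : IsMonotone A)
    (hr : ∀ h : ℝ, 0 < h → ∀ x : H, ∃ y z : H, (y, z) ∈ A ∧ y + h • z = x) {h : ℝ} (hh : 0 ≤ h)
    (k : ℕ) (x y : H) :
    ‖(resolvent A h)^[k] x - (resolvent A h)^[k] y‖ ≤ ‖x - y‖ := by
  induction k generalizing x y with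
  | zero => exact le_rfl
  | succ k ih =>
    rw [Function.iterate_succ_apply, Function.iterate_succ_apply]
    exact (ih _ _).trans (resolvent_nonexp hm hr hh x y)

theorem sub_tendsto833 {A : Set (H × H)} {S : ℝ → H → H} (hS : IsGenerated A S) (p : ℕ) {r : ℝ}
    (hr0 : 0 ≤ r) (y : H) :
    Tendsto (fun k : ℕ => (resolvent A (r / k))^[p * k] y) atTop (𝓝 (S (p * r) y)) := by
  rcases Nat.eq_zero_or_pos p with rfl | hp
  · have : S ((0 : ℕ) * r) y = y := by
      rw [Nat.cast_zero, zero_mul]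
      exact generated_zero hS y
    rw [this]
    have e : (fun k : ℕ => (resolvent A (r / k))^[0 * k] y) = fun _ => y := by
      funext k
      rw [zero_mul]
      rfl
    rw [e]
    exact tendsto_const_nhds
  · have hp' : (p : ℝ) ≠ 0 := by exact_mod_cast hp.ne'
    have h1 := hS (p * r) (by positivity) y
    have h2 : Tendsto (fun k : ℕ => p * k) atTop atTop :=
      tendsto_id.const_mul_atTop' hp
    have h3 := h1.comp h2
    refine h3.congr (fun k => ?_)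
    show (resolvent A ((p : ℝ) * r / ((p * k : ℕ) : ℝ)))^[p * k] y = _
    have e : (p : ℝ) * r / ((p * k : ℕ) : ℝ) = r / k := by
      rw [Nat.cast_mul]
      exact mul_div_mul_left _ _ hp'
    rw [e]

theorem add_rat833 {A : Set (H × H)} (hm : IsMonotone A)
    (hr : ∀ h : ℝ, 0 < h → ∀ x : H, ∃ y z : H, (y, z) ∈ A ∧ y + h • z = x)
    {S : ℝ → H → H} (hS : IsGenerated A S) (p q : ℕ) {r : ℝ} (hr0 : 0 ≤ r) (x : H) :
    S (p * r + q * r) x = S (p * r) (S (q * r) x) := by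
  have h1 := sub_tendsto833 hS (p + q) hr0 x
  have h2 := sub_tendsto833 hS q hr0 x
  have h3 := sub_tendsto833 hS p hr0 (S (q * r) x)
  have e : ((p + q : ℕ) : ℝ) * r = p * r + q * r := by push_cast; ring
  rw [e] at h1
  refine tendsto_nhds_unique h1 ?_
  rw [tendsto_iff_norm_sub_tendsto_zero] at h2 h3 ⊢
  have h4 := h2.add h3
  rw [add_zero] at h4
  refine squeeze_zero (fun k => norm_nonneg _) (fun k => ?_) h4
  have hk : 0 ≤ r / (k : ℝ) := by positivity
  have e2 : (resolvent A (r / k))^[(p + q) * k] x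
      = (resolvent A (r / k))^[p * k] ((resolvent A (r / k))^[q * k] x) := by
    rw [add_mul, Function.iterate_add_apply]
  rw [e2]
  have e3 : (resolvent A (r / k))^[p * k] ((resolvent A (r / k))^[q * k] x)
      - S (p * r) (S (q * r) x)
      = ((resolvent A (r / k))^[p * k] ((resolvent A (r / k))^[q * k] x)
        - (resolvent A (r / k))^[p * k] (S (q * r) x))
        + ((resolvent A (r / k))^[p * k] (S (q * r) x) - S (p * r) (S (q * r) x)) := by abel
  rw [e3]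
  refine (norm_add_le _ _).trans (add_le_add ?_ le_rfl)
  exact iter_nonexp833 hm hr hk _ _ _

theorem generated_add {A : Set (H × H)} (hm : IsMonotone A)
    (hr : ∀ h : ℝ, 0 < h → ∀ x : H, ∃ y z : H, (y, z) ∈ A ∧ y + h • z = x)
    (hd : Dense {y : H | ∃ z : H, (y, z) ∈ A}) {S : ℝ → H → H} (hS : IsGenerated A S)
    {s t : ℝ} (hs : 0 ≤ s) (ht : 0 ≤ t) (x : H) : S (s + t) x = S s (S t x) := by
  rcases ht.eq_or_lt with rfl | ht
  · rw [add_zero, generated_zero hS]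
  · have hf : Tendsto (fun n : ℕ => ((⌊(s / t) * (n : ℝ)⌋₊ : ℝ) / (n : ℝ)) * t) atTop (𝓝 s) := by
      have h1 : Tendsto (fun n : ℕ => (⌊(s / t) * (n : ℝ)⌋₊ : ℝ) / (n : ℝ)) atTop (𝓝 (s / t)) :=
        (tendsto_nat_floor_mul_div_atTop (div_nonneg hs ht.le)).comp tendsto_natCast_atTop_atTop
      have h2 := h1.mul_const t
      rw [div_mul_cancel₀ s ht.ne'] at h2
      exact h2
    have hmem : ∀ n : ℕ, ((⌊(s / t) * (n : ℝ)⌋₊ : ℝ) / (n : ℝ)) * t ∈ Ici (0 : ℝ) := by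
      intro n
      show 0 ≤ ((⌊(s / t) * (n : ℝ)⌋₊ : ℝ) / (n : ℝ)) * t
      positivity
    have hf' : Tendsto (fun n : ℕ => ((⌊(s / t) * (n : ℝ)⌋₊ : ℝ) / (n : ℝ)) * t) atTop
        (𝓝[Ici 0] s) :=
      tendsto_nhdsWithin_iff.mpr ⟨hf, Eventually.of_forall hmem⟩
    have hg : Tendsto (fun n : ℕ => ((⌊(s / t) * (n : ℝ)⌋₊ : ℝ) / (n : ℝ)) * t + t) atTop
        (𝓝[Ici 0] (s + t)) :=
      tendsto_nhdsWithin_iff.mpr ⟨hf.add_const t, Eventually.of_forall fun n =>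
        add_nonneg (hmem n) ht.le⟩
    have hst : s + t ∈ Ici (0 : ℝ) := add_nonneg hs ht.le
    have c1 : Tendsto (fun n : ℕ => S (((⌊(s / t) * (n : ℝ)⌋₊ : ℝ) / (n : ℝ)) * t + t) x) atTop
        (𝓝 (S (s + t) x)) := ((generated_cont hm hr hd hS x) (s + t) hst).tendsto.comp hg
    have c2 : Tendsto (fun n : ℕ => S (((⌊(s / t) * (n : ℝ)⌋₊ : ℝ) / (n : ℝ)) * t) (S t x)) atTop
        (𝓝 (S s (S t x))) := ((generated_cont hm hr hd hS (S t x)) s hs).tendsto.comp hf'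
    refine tendsto_nhds_unique c1 (c2.congr' ?_)
    filter_upwards [eventually_gt_atTop 0] with n hn
    have hn' : (n : ℝ) ≠ 0 := by exact_mod_cast hn.ne'
    have h := add_rat833 hm hr hS ⌊(s / t) * (n : ℝ)⌋₊ n (r := t / n) (by positivity) x
    have e1 : (n : ℝ) * (t / n) = t := by field_simp
    have e2 : (⌊(s / t) * (n : ℝ)⌋₊ : ℝ) * (t / n)
        = ((⌊(s / t) * (n : ℝ)⌋₊ : ℝ) / (n : ℝ)) * t := by ring
    rw [e1, e2] at h
    exact h.symm


end Pool.Agent.Helper420.SC
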