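import Mathlib
import Pool.Agent.Helper420.SC.L01

set_option autoImplicit false
set_option linter.unusedVariables false

open MeasureTheory Set Filter Topology
open scoped ENNReal NNReal InnerProductSpace

namespace Pool.Agent.Helper420.SC


variable {N : ℕ} {Ω : Set (E N)} {a α : ℝ}





/-- the functional minimised by the resolvent -/
noncomputable def JJ (a α h : ℝ) (F : L2v Ω) (g : L2 Ω) (q : L2 Ω × L2v Ω) : ℝ :=
  ‖q.1‖ ^ 2 / 2 + h ^ 2 / 2 * ‖q.2‖ ^ 2 + h * a / (α + 2) * (∫ y in Ω, |q.1 y| ^ (α + 2))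
    - inner ℝ g q.1 + h * inner ℝ F q.2

/-- derivative of the `L^{α+2}` functional -/
theorem hasDerivAt_pow_integral (hα : 0 < α) {v w : L2 Ω}
    (hv : MemLp v (ENNReal.ofReal (α + 2)) (volume.restrict Ω))
    (hw : MemLp w (ENNReal.ofReal (α + 2)) (volume.restrict Ω)) :
    HasDerivAt (fun s : ℝ => ∫ y in Ω, |v y + s * w y| ^ (α + 2))
      ((α + 2) * ∫ y in Ω, |v y| ^ α * v y * w y) 0 := by
  have hp0 : ENNReal.ofReal (α + 2) ≠ 0 := by
    rw [Ne, ENNReal.ofReal_eq_zero, not_le]; linarith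
  have hpt : ENNReal.ofReal (α + 2) ≠ ⊤ := ENNReal.ofReal_ne_top
  have htr : (ENNReal.ofReal (α + 2)).toReal = α + 2 := ENNReal.toReal_ofReal (by linarith)
  have hvm : AEStronglyMeasurable (v : E N → ℝ) (volume.restrict Ω) := hv.1
  have hwm : AEStronglyMeasurable (w : E N → ℝ) (volume.restrict Ω) := hw.1
  have hmeas : ∀ s : ℝ, AEStronglyMeasurable (fun y => v y + s * w y) (volume.restrict Ω) :=
    fun s => hvm.add (hwm.const_mul s)
  have hmeas2 : ∀ (s b : ℝ), AEStronglyMeasurable (fun y => |v y + s * w y| ^ b)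
      (volume.restrict Ω) := fun s b =>
    (((hmeas s).aemeasurable.norm).pow_const b).aestronglyMeasurable
  have hF0 : Integrable (fun y => |v y + (0:ℝ) * w y| ^ (α + 2)) (volume.restrict Ω) := by
    have := hv.integrable_norm_rpow hp0 hpt
    rw [htr] at this
    refine this.congr (Eventually.of_forall fun y => ?_)
    simp [Real.norm_eq_abs]
  have hbd : Integrable (fun y => (α + 2) * (|v y| + |w y|) ^ (α + 2)) (volume.restrict Ω) := by
    have h1 := (hv.norm.add hw.norm).integrable_norm_rpow hp0 hpt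
    rw [htr] at h1
    refine (h1.congr (Eventually.of_forall fun y => ?_)).const_mul (α + 2)
    simp only [Pi.add_apply, Real.norm_eq_abs]
    rw [abs_of_nonneg (add_nonneg (abs_nonneg _) (abs_nonneg _))]
  have key := (hasDerivAt_integral_of_dominated_loc_of_deriv_le (μ := volume.restrict Ω)
    (F := fun s y => |v y + s * w y| ^ (α + 2))
    (F' := fun s y => (α + 2) * |v y + s * w y| ^ α * (v y + s * w y) * w y)
    (x₀ := (0:ℝ)) (s := Metric.ball 0 1) (bound := fun y => (α + 2) * (|v y| + |w y|) ^ (α + 2))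
    (Metric.ball_mem_nhds _ one_pos) (Eventually.of_forall fun s => hmeas2 s (α + 2)) hF0
    ?_ ?_ hbd ?_).2
  · refine key.congr_deriv ?_
    rw [← integral_const_mul]
    refine integral_congr_ae (Eventually.of_forall fun y => ?_)
    simp only [zero_mul, add_zero]
    ring
  · exact (((hmeas2 0 α).const_mul (α + 2)).mul (hmeas 0)).mul hwm
  · refine Eventually.of_forall fun y s hs => ?_
    rw [Metric.mem_ball, dist_zero_right, Real.norm_eq_abs] at hs
    rw [Real.norm_eq_abs, abs_mul, abs_mul, abs_mul, abs_of_nonneg (by linarith : 0 ≤ α + 2),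
      abs_of_nonneg (Real.rpow_nonneg (abs_nonneg _) _)]
    have hM0 : 0 ≤ |v y| + |w y| := add_nonneg (abs_nonneg _) (abs_nonneg _)
    have h1 : |v y + s * w y| ≤ |v y| + |w y| := by
      refine (abs_add_le _ _).trans ?_
      rw [abs_mul]
      have : |s| * |w y| ≤ 1 * |w y| := mul_le_mul_of_nonneg_right hs.le (abs_nonneg _)
      linarith
    have h2 : |w y| ≤ |v y| + |w y| := by linarith [abs_nonneg (v y)]
    have h3 : |v y + s * w y| ^ α ≤ (|v y| + |w y|) ^ α :=
      Real.rpow_le_rpow (abs_nonneg _) h1 hα.le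
    have h4 : (|v y| + |w y|) ^ (α + 2) = (|v y| + |w y|) ^ α * (|v y| + |w y|) *
        (|v y| + |w y|) := by
      rw [Real.rpow_add_of_nonneg hM0 hα.le (by norm_num)]
      rw [show (2:ℝ) = ((2:ℕ):ℝ) by norm_num, Real.rpow_natCast]
      ring
    rw [h4]
    have hα2 : 0 ≤ α + 2 := by linarith
    calc (α + 2) * |v y + s * w y| ^ α * |v y + s * w y| * |w y|
        = (α + 2) * ((|v y + s * w y| ^ α * |v y + s * w y|) * |w y|) := by ring
      _ ≤ (α + 2) * (((|v y| + |w y|) ^ α * (|v y| + |w y|)) * (|v y| + |w y|)) := by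
          refine mul_le_mul_of_nonneg_left ?_ hα2
          refine mul_le_mul ?_ h2 (abs_nonneg _) (mul_nonneg (Real.rpow_nonneg hM0 _) hM0)
          exact mul_le_mul h3 h1 (abs_nonneg _) (Real.rpow_nonneg hM0 _)
  · refine Eventually.of_forall fun y s _ => ?_
    have h1 := hasDerivAt_abs_rpow (v y + s * w y) (p := α + 2) (by linarith)
    have h2 : HasDerivAt (fun s : ℝ => v y + s * w y) (w y) s := by
      simpa using ((hasDerivAt_id s).mul_const (w y)).const_add (v y)
    have h3 := h1.comp s h2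
    refine h3.congr_deriv ?_
    rw [show α + 2 - 2 = α by ring]

theorem euler (ha : 0 < a) (hα : 0 < α) {h : ℝ} (hh : 0 < h) (F : L2v Ω) (g : L2 Ω)
    {m : L2 Ω × L2v Ω} (hm : m ∈ H10 Ω)
    (hmp : MemLp m.1 (ENNReal.ofReal (α + 2)) (volume.restrict Ω))
    (hmin : ∀ q ∈ H10 Ω, MemLp q.1 (ENNReal.ofReal (α + 2)) (volume.restrict Ω) →
        JJ a α h F g m ≤ JJ a α h F g q)
    {q : L2 Ω × L2v Ω} (hq : q ∈ H10 Ω)
    (hqp : MemLp q.1 (ENNReal.ofReal (α + 2)) (volume.restrict Ω)) :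
    inner ℝ m.1 q.1 + h ^ 2 * inner ℝ m.2 q.2 + h * a * (∫ y in Ω, |m.1 y| ^ α * m.1 y * q.1 y)
      - inner ℝ g q.1 + h * inner ℝ F q.2 = 0 := by
  have hae : ∀ s : ℝ, (fun y => (m + s • q).1 y) =ᵐ[volume.restrict Ω]
      fun y => m.1 y + s * q.1 y := by
    intro s
    have h1 : ((m.1 + s • q.1 : L2 Ω) : E N → ℝ) =ᵐ[volume.restrict Ω] _ :=
      Lp.coeFn_add m.1 (s • q.1)
    have h2 := Lp.coeFn_smul s q.1
    filter_upwards [h1, h2] with y hy1 hy2
    show ((m.1 + s • q.1 : L2 Ω) : E N → ℝ) y = _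
    rw [hy1, Pi.add_apply, hy2, Pi.smul_apply, smul_eq_mul]
  have hmem : ∀ s : ℝ, MemLp (m + s • q).1 (ENNReal.ofReal (α + 2)) (volume.restrict Ω) := by
    intro s
    refine (memLp_congr_ae (hae s)).2 ?_
    exact hmp.add (hqp.const_mul s)
  have hJ : ∀ s : ℝ, JJ a α h F g (m + s • q) =
      ‖m.1 + s • q.1‖ ^ 2 / 2 + h ^ 2 / 2 * ‖m.2 + s • q.2‖ ^ 2 +
        h * a / (α + 2) * (∫ y in Ω, |m.1 y + s * q.1 y| ^ (α + 2))
        - (inner ℝ g m.1 + s * inner ℝ g q.1) + h * (inner ℝ F m.2 + s * inner ℝ F q.2) := by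
    intro s
    unfold JJ
    have h1 : (∫ y in Ω, |(m + s • q).1 y| ^ (α + 2)) =
        ∫ y in Ω, |m.1 y + s * q.1 y| ^ (α + 2) := by
      refine integral_congr_ae ?_
      filter_upwards [hae s] with y hy
      rw [hy]
    have h2 : inner ℝ g (m + s • q).1 = inner ℝ g m.1 + s * inner ℝ g q.1 := by
      rw [Prod.fst_add, Prod.smul_fst, inner_add_right, real_inner_smul_right]
    have h3 : inner ℝ F (m + s • q).2 = inner ℝ F m.2 + s * inner ℝ F q.2 := by
      rw [Prod.snd_add, Prod.smul_snd, inner_add_right, real_inner_smul_right]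
    rw [h1, h2, h3, Prod.fst_add, Prod.smul_fst, Prod.snd_add, Prod.smul_snd]
  have hn1 : HasDerivAt (fun s : ℝ => ‖m.1 + s • q.1‖ ^ 2) (2 * inner ℝ m.1 q.1) 0 := by
    have h1 : HasDerivAt (fun s : ℝ => m.1 + s • q.1) q.1 0 := by
      simpa using ((hasDerivAt_id (0:ℝ)).smul_const q.1).const_add m.1
    have := h1.norm_sq
    simpa using this
  have hn2 : HasDerivAt (fun s : ℝ => ‖m.2 + s • q.2‖ ^ 2) (2 * inner ℝ m.2 q.2) 0 := by
    have h1 : HasDerivAt (fun s : ℝ => m.2 + s • q.2) q.2 0 := by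
      simpa using ((hasDerivAt_id (0:ℝ)).smul_const q.2).const_add m.2
    have := h1.norm_sq
    simpa using this
  have hl : ∀ c d : ℝ, HasDerivAt (fun s : ℝ => c + s * d) d 0 := by
    intro c d
    simpa using ((hasDerivAt_id (0:ℝ)).mul_const d).const_add c
  have hI := hasDerivAt_pow_integral hα hmp hqp
  have hD := ((((hn1.div_const 2).add (hn2.const_mul (h ^ 2 / 2))).add
    (hI.const_mul (h * a / (α + 2)))).sub (hl (inner ℝ g m.1) (inner ℝ g q.1))).add
    ((hl (inner ℝ F m.2) (inner ℝ F q.2)).const_mul h)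
  have hD' : HasDerivAt (fun s : ℝ => JJ a α h F g (m + s • q)) _ 0 :=
    hD.congr_of_eventuallyEq (Eventually.of_forall fun s => hJ s)
  have hloc : IsLocalMin (fun s : ℝ => JJ a α h F g (m + s • q)) 0 := by
    refine Eventually.of_forall fun s => ?_
    simp only [zero_smul, add_zero]
    exact hmin _ (H10_add hm (H10_smul s hq)) (hmem s)
  have h0 := hloc.hasDerivAt_eq_zero hD'
  have hα2 : α + 2 ≠ 0 := by linarith
  have h5 : h * a / (α + 2) * ((α + 2) * ∫ y in Ω, |m.1 y| ^ α * m.1 y * q.1 y) =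
      h * a * ∫ y in Ω, |m.1 y| ^ α * m.1 y * q.1 y := by
    field_simp
  rw [h5] at h0
  linarith


end Pool.Agent.Helper420.SC
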