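import Mathlib
import Pool.Agent.Helper420.SC.L06

set_option autoImplicit false
set_option linter.unusedVariables false

open MeasureTheory Set Filter Topology
open scoped ENNReal NNReal InnerProductSpace

namespace Pool.Agent.Helper420.SC


variable {N : ℕ} {Ω : Set (E N)} {a α : ℝ}






theorem exm_fatou {β : ℝ} (hβ : 0 < β) (μ : Measure (E N)) (f : ℕ → E N → ℝ) (f0 : E N → ℝ)
    (hint : ∀ n, Integrable (fun y => |f n y| ^ β) μ)
    (hlim : ∀ᵐ y ∂μ, Tendsto (fun n => f n y) atTop (𝓝 (f0 y))) (h0 : AEStronglyMeasurable f0 μ)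
    {L : ℝ} (hL : Tendsto (fun n => ∫ y, |f n y| ^ β ∂μ) atTop (𝓝 L)) :
    Integrable (fun y => |f0 y| ^ β) μ ∧ ∫ y, |f0 y| ^ β ∂μ ≤ L := by
  have hL0 : 0 ≤ L := ge_of_tendsto' hL (fun n => integral_nonneg fun y => by positivity)
  have h1 : ∫⁻ y, ENNReal.ofReal (|f0 y| ^ β) ∂μ ≤ ENNReal.ofReal L := by
    calc ∫⁻ y, ENNReal.ofReal (|f0 y| ^ β) ∂μ
        = ∫⁻ y, liminf (fun n => ENNReal.ofReal (|f n y| ^ β)) atTop ∂μ := by
          apply lintegral_congr_ae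
          filter_upwards [hlim] with y hy
          have : Tendsto (fun n => ENNReal.ofReal (|f n y| ^ β)) atTop
              (𝓝 (ENNReal.ofReal (|f0 y| ^ β))) := by
            apply ENNReal.tendsto_ofReal
            exact (hy.abs).rpow_const (Or.inr hβ.le)
          exact this.liminf_eq.symm
      _ ≤ liminf (fun n => ∫⁻ y, ENNReal.ofReal (|f n y| ^ β) ∂μ) atTop :=
          lintegral_liminf_le' (fun n => (hint n).1.aemeasurable.ennreal_ofReal)
      _ = ENNReal.ofReal L := by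
          have : (fun n => ∫⁻ y, ENNReal.ofReal (|f n y| ^ β) ∂μ) =
              fun n => ENNReal.ofReal (∫ y, |f n y| ^ β ∂μ) := by
            funext n
            exact (ofReal_integral_eq_lintegral_ofReal (hint n)
              (ae_of_all _ fun y => by positivity)).symm
          rw [this]
          exact (ENNReal.tendsto_ofReal hL).liminf_eq
  have hm : AEStronglyMeasurable (fun y => |f0 y| ^ β) μ :=
    (h0.norm.aemeasurable.pow_const β).aestronglyMeasurable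
  have hi : Integrable (fun y => |f0 y| ^ β) μ := by
    refine ⟨hm, ?_⟩
    rw [hasFiniteIntegral_iff_ofReal (ae_of_all _ fun y => by positivity)]
    exact h1.trans_lt ENNReal.ofReal_lt_top
  refine ⟨hi, ?_⟩
  rw [← ENNReal.ofReal_le_ofReal_iff hL0, ofReal_integral_eq_lintegral_ofReal hi
    (ae_of_all _ fun y => by positivity)]
  exact h1

theorem exm_conv {β : ℝ} (hβ : 1 ≤ β) (s t : ℝ) :
    |(1 / 2 : ℝ) * (s + t)| ^ β ≤ (|s| ^ β + |t| ^ β) / 2 := by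
  have h1 : |(1 / 2 : ℝ) * (s + t)| ≤ (1 / 2 : ℝ) * |s| + (1 / 2 : ℝ) * |t| := by
    rw [abs_mul, abs_of_pos (by norm_num : (0 : ℝ) < 1 / 2)]
    have := abs_add_le s t
    linarith
  have h2 := (convexOn_rpow hβ).2 (abs_nonneg s : |s| ∈ Ici (0 : ℝ)) (abs_nonneg t)
    (by norm_num : (0 : ℝ) ≤ 1 / 2) (by norm_num : (0 : ℝ) ≤ 1 / 2) (by norm_num)
  simp only [smul_eq_mul] at h2
  calc |(1 / 2 : ℝ) * (s + t)| ^ β ≤ ((1 / 2 : ℝ) * |s| + (1 / 2 : ℝ) * |t|) ^ β :=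
        Real.rpow_le_rpow (abs_nonneg _) h1 (by linarith)
    _ ≤ 1 / 2 * |s| ^ β + 1 / 2 * |t| ^ β := h2
    _ = _ := by ring

theorem exm_mid {H : Type*} [NormedAddCommGroup H] [InnerProductSpace ℝ H] (x y : H) :
    ‖(1 / 2 : ℝ) • (x + y)‖ ^ 2 = (‖x‖ ^ 2 + ‖y‖ ^ 2) / 2 - ‖x - y‖ ^ 2 / 4 := by
  have h1 := parallelogram_law_with_norm ℝ x y
  rw [norm_smul, Real.norm_of_nonneg (by norm_num : (0 : ℝ) ≤ 1 / 2)]
  nlinarith [h1]

/-- the quadratic and linear part -/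
noncomputable def exmQ (h : ℝ) (F : L2v Ω) (g : L2 Ω) (q : L2 Ω × L2v Ω) : ℝ :=
  ‖q.1‖ ^ 2 / 2 + h ^ 2 / 2 * ‖q.2‖ ^ 2 - inner ℝ g q.1 + h * inner ℝ F q.2

theorem exm_JJ (h : ℝ) (F : L2v Ω) (g : L2 Ω) (q : L2 Ω × L2v Ω) :
    JJ a α h F g q = exmQ h F g q + h * a / (α + 2) * (∫ y in Ω, |q.1 y| ^ (α + 2)) := by
  unfold JJ exmQ
  ring

theorem exm_int (hα : 0 < α) {f : L2 Ω} :
    Integrable (fun y => |f y| ^ (α + 2)) (volume.restrict Ω) ↔
    MemLp f (ENNReal.ofReal (α + 2)) (volume.restrict Ω) := by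
  have h0 : ENNReal.ofReal (α + 2) ≠ 0 := by
    rw [Ne, ENNReal.ofReal_eq_zero]
    linarith
  have := integrable_norm_rpow_iff (Lp.aestronglyMeasurable f) h0 ENNReal.ofReal_ne_top
  rw [ENNReal.toReal_ofReal (by linarith)] at this
  exact this

theorem exm_key (ha : 0 < a) (hα : 0 < α) {h : ℝ} (hh : 0 < h) (F : L2v Ω) (g : L2 Ω)
    (q q' : L2 Ω × L2v Ω)
    (hq : Integrable (fun y => |q.1 y| ^ (α + 2)) (volume.restrict Ω))
    (hq' : Integrable (fun y => |q'.1 y| ^ (α + 2)) (volume.restrict Ω)) :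
    Integrable (fun y => |((1 / 2 : ℝ) • (q + q')).1 y| ^ (α + 2)) (volume.restrict Ω) ∧
    JJ a α h F g ((1 / 2 : ℝ) • (q + q')) ≤ (JJ a α h F g q + JJ a α h F g q') / 2 -
      (‖q.1 - q'.1‖ ^ 2 + h ^ 2 * ‖q.2 - q'.2‖ ^ 2) / 8 := by
  have hae : ∀ᵐ y ∂(volume.restrict Ω), ((1 / 2 : ℝ) • (q + q')).1 y =
      (1 / 2 : ℝ) * (q.1 y + q'.1 y) := by
    have e1 := Lp.coeFn_smul (1 / 2 : ℝ) (q.1 + q'.1)
    have e2 := Lp.coeFn_add q.1 q'.1
    filter_upwards [e1, e2] with y h1 h2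
    show ((1 / 2 : ℝ) • (q.1 + q'.1) : L2 Ω) y = _
    rw [h1, Pi.smul_apply, h2, Pi.add_apply, smul_eq_mul]
  have hle : ∀ᵐ y ∂(volume.restrict Ω), |((1 / 2 : ℝ) • (q + q')).1 y| ^ (α + 2) ≤
      (|q.1 y| ^ (α + 2) + |q'.1 y| ^ (α + 2)) / 2 := by
    filter_upwards [hae] with y hy
    rw [hy]
    exact exm_conv (by linarith) _ _
  have hdom : Integrable (fun y => (|q.1 y| ^ (α + 2) + |q'.1 y| ^ (α + 2)) / 2)
      (volume.restrict Ω) := (hq.add hq').div_const 2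
  have hint : Integrable (fun y => |((1 / 2 : ℝ) • (q + q')).1 y| ^ (α + 2))
      (volume.restrict Ω) := by
    refine hdom.mono' ?_ ?_
    · exact ((Lp.aestronglyMeasurable ((1 / 2 : ℝ) • (q + q')).1).norm.aemeasurable.pow_const
        (α + 2)).aestronglyMeasurable
    · filter_upwards [hle] with y hy
      rw [Real.norm_of_nonneg (by positivity)]
      exact hy
  refine ⟨hint, ?_⟩
  have hI : ∫ y in Ω, |((1 / 2 : ℝ) • (q + q')).1 y| ^ (α + 2) ≤
      ((∫ y in Ω, |q.1 y| ^ (α + 2)) + ∫ y in Ω, |q'.1 y| ^ (α + 2)) / 2 := by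
    calc _ ≤ ∫ y in Ω, (|q.1 y| ^ (α + 2) + |q'.1 y| ^ (α + 2)) / 2 :=
          integral_mono_ae hint hdom hle
      _ = _ := by
          rw [integral_div, integral_add hq hq']
  have hc : 0 < h * a / (α + 2) := by positivity
  have m1 : ‖((1 / 2 : ℝ) • (q + q')).1‖ ^ 2 = (‖q.1‖ ^ 2 + ‖q'.1‖ ^ 2) / 2 -
      ‖q.1 - q'.1‖ ^ 2 / 4 := exm_mid q.1 q'.1
  have m2 : ‖((1 / 2 : ℝ) • (q + q')).2‖ ^ 2 = (‖q.2‖ ^ 2 + ‖q'.2‖ ^ 2) / 2 -
      ‖q.2 - q'.2‖ ^ 2 / 4 := exm_mid q.2 q'.2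
  have i1 : inner ℝ g ((1 / 2 : ℝ) • (q + q')).1 = (inner ℝ g q.1 + inner ℝ g q'.1) / 2 := by
    show inner ℝ g ((1 / 2 : ℝ) • (q.1 + q'.1)) = _
    rw [inner_smul_right, inner_add_right]
    ring
  have i2 : inner ℝ F ((1 / 2 : ℝ) • (q + q')).2 = (inner ℝ F q.2 + inner ℝ F q'.2) / 2 := by
    show inner ℝ F ((1 / 2 : ℝ) • (q.2 + q'.2)) = _
    rw [inner_smul_right, inner_add_right]
    ring
  unfold JJ
  rw [m1, m2, i1, i2]
  have := mul_le_mul_of_nonneg_left hI hc.le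
  nlinarith [this]

theorem exists_minimizer (ha : 0 < a) (hα : 0 < α) {h : ℝ} (hh : 0 < h) (F : L2v Ω) (g : L2 Ω) :
    ∃ m ∈ H10 Ω, MemLp m.1 (ENNReal.ofReal (α + 2)) (volume.restrict Ω) ∧
      ∀ q ∈ H10 Ω, MemLp q.1 (ENNReal.ofReal (α + 2)) (volume.restrict Ω) →
        JJ a α h F g m ≤ JJ a α h F g q := by
  have hc : 0 < h * a / (α + 2) := by positivity
  set K : Set (L2 Ω × L2v Ω) := {q | q ∈ H10 Ω ∧
    Integrable (fun y => |q.1 y| ^ (α + 2)) (volume.restrict Ω)} with hK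
  -- lower bound
  have hlb : ∀ q : L2 Ω × L2v Ω, -(‖g‖ ^ 2 / 2) - ‖F‖ ^ 2 / 2 ≤ JJ a α h F g q := by
    intro q
    rw [exm_JJ]
    have h1 : 0 ≤ ∫ y in Ω, |q.1 y| ^ (α + 2) := integral_nonneg fun y => by positivity
    have h2 := real_inner_le_norm g q.1
    have h3 := neg_le_of_abs_le (abs_real_inner_le_norm F q.2)
    have h4 := mul_nonneg hc.le h1
    have h5 := mul_le_mul_of_nonneg_left h3 hh.le
    unfold exmQ
    nlinarith [sq_nonneg (‖q.1‖ - ‖g‖), sq_nonneg (h * ‖q.2‖ - ‖F‖)]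
  -- nonempty
  have h0H : (0 : L2 Ω × L2v Ω) ∈ H10 Ω := by
    apply subset_closure
    refine ⟨fun _ => 0, ⟨contDiff_const, HasCompactSupport.zero, ?_⟩, ?_, ?_⟩
    · have : tsupport (fun _ : E N => (0 : ℝ)) = ∅ := by
        rw [tsupport_eq_empty_iff]
        rfl
      rw [this]
      exact empty_subset _
    · exact Lp.coeFn_zero _ _ _
    · have e1 : gradient (fun _ : E N => (0 : ℝ)) = fun _ => 0 := by
        funext x
        unfold gradient
        rw [fderiv_fun_const]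
        simp
      rw [e1]
      exact Lp.coeFn_zero _ _ _
  have h0K : (0 : L2 Ω × L2v Ω) ∈ K := by
    refine ⟨h0H, ?_⟩
    have e1 : (fun y => |(0 : L2 Ω × L2v Ω).1 y| ^ (α + 2)) =ᵐ[volume.restrict Ω]
        fun _ => (0 : ℝ) := by
      filter_upwards [Lp.coeFn_zero ℝ 2 (volume.restrict Ω)] with y hy
      show |(0 : L2 Ω) y| ^ (α + 2) = 0
      rw [hy, Pi.zero_apply, abs_zero, Real.zero_rpow (by linarith)]
    exact (integrable_zero _ _ _).congr e1.symm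
  set S : Set ℝ := (JJ a α h F g) '' K with hS
  have hSb : BddBelow S := ⟨-(‖g‖ ^ 2 / 2) - ‖F‖ ^ 2 / 2, by
    rintro _ ⟨q, _, rfl⟩
    exact hlb q⟩
  have hSn : S.Nonempty := ⟨_, 0, h0K, rfl⟩
  set I : ℝ := sInf S with hI
  have hIle : ∀ q ∈ K, I ≤ JJ a α h F g q := fun q hq => csInf_le hSb ⟨q, hq, rfl⟩
  have hseq : ∀ n : ℕ, ∃ q ∈ K, JJ a α h F g q < I + 1 / ((n : ℝ) + 1) := by
    intro n
    obtain ⟨_, ⟨q, hq, rfl⟩, hlt⟩ := exists_lt_of_csInf_lt hSn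
      (show sInf S < I + 1 / ((n : ℝ) + 1) by
        have : 0 < 1 / ((n : ℝ) + 1) := by positivity
        linarith)
    exact ⟨q, hq, hlt⟩
  choose q hqK hqlt using hseq
  have hJlim : Tendsto (fun n => JJ a α h F g (q n)) atTop (𝓝 I) := by
    refine tendsto_of_tendsto_of_tendsto_of_le_of_le (g := fun _ => I)
      (h := fun n : ℕ => I + 1 / ((n : ℝ) + 1)) tendsto_const_nhds ?_ (fun n => hIle _ (hqK n))
      (fun n => (hqlt n).le)
    have := (tendsto_one_div_add_atTop_nhds_zero_nat (𝕜 := ℝ)).const_add I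
    simpa using this
  -- the key inequality
  have hkey : ∀ n m : ℕ, ‖(q n).1 - (q m).1‖ ^ 2 + h ^ 2 * ‖(q n).2 - (q m).2‖ ^ 2 ≤
      4 * (1 / ((n : ℝ) + 1) + 1 / ((m : ℝ) + 1)) := by
    intro n m
    obtain ⟨hi, hle⟩ := exm_key ha hα hh F g (q n) (q m) (hqK n).2 (hqK m).2
    have hmem : ((1 / 2 : ℝ) • (q n + q m)) ∈ K :=
      ⟨H10_smul _ (H10_add (hqK n).1 (hqK m).1), hi⟩
    have h1 := hIle _ hmem
    have h2 := hqlt n
    have h3 := hqlt m
    linarith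
  have hz : Tendsto (fun n : ℕ => 4 * (1 / ((n : ℝ) + 1) + 1 / ((n : ℝ) + 1))) atTop (𝓝 0) := by
    have h1 := (tendsto_one_div_add_atTop_nhds_zero_nat (𝕜 := ℝ))
    have := (h1.add h1).const_mul 4
    simpa using this
  have hcau : CauchySeq q := by
    rw [Metric.cauchySeq_iff]
    intro ε hε
    have hδ : 0 < min 1 (h ^ 2) * ε ^ 2 := by positivity
    obtain ⟨n0, hn0⟩ := (hz.eventually (gt_mem_nhds hδ)).exists_forall_of_atTop
    refine ⟨n0, fun n hn m hm => ?_⟩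
    have hdec : ∀ k : ℕ, n0 ≤ k → 1 / ((k : ℝ) + 1) ≤ 1 / ((n0 : ℝ) + 1) := by
      intro k hk
      apply one_div_le_one_div_of_le (by positivity)
      have : (n0 : ℝ) ≤ k := by exact_mod_cast hk
      linarith
    have h1 := hkey n m
    have h2 := hdec n hn
    have h3 := hdec m hm
    have h4 := hn0 n0 le_rfl
    have h5 : ‖(q n).1 - (q m).1‖ ^ 2 + h ^ 2 * ‖(q n).2 - (q m).2‖ ^ 2 <
        min 1 (h ^ 2) * ε ^ 2 := by linarith
    have h6 : ‖(q n).1 - (q m).1‖ ^ 2 < ε ^ 2 := by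
      have : min 1 (h ^ 2) * ε ^ 2 ≤ 1 * ε ^ 2 :=
        mul_le_mul_of_nonneg_right (min_le_left _ _) (sq_nonneg _)
      have : 0 ≤ h ^ 2 * ‖(q n).2 - (q m).2‖ ^ 2 := by positivity
      linarith
    have h7 : ‖(q n).2 - (q m).2‖ ^ 2 < ε ^ 2 := by
      have e1 : min 1 (h ^ 2) * ε ^ 2 ≤ h ^ 2 * ε ^ 2 :=
        mul_le_mul_of_nonneg_right (min_le_right _ _) (sq_nonneg _)
      have e2 : 0 ≤ ‖(q n).1 - (q m).1‖ ^ 2 := by positivity
      have e3 : h ^ 2 * ‖(q n).2 - (q m).2‖ ^ 2 < h ^ 2 * ε ^ 2 := by linarith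
      exact lt_of_mul_lt_mul_left e3 (by positivity)
    rw [dist_eq_norm, Prod.norm_def, Prod.fst_sub, Prod.snd_sub, max_lt_iff]
    exact ⟨lt_of_pow_lt_pow_left₀ 2 hε.le h6, lt_of_pow_lt_pow_left₀ 2 hε.le h7⟩
  obtain ⟨m, hm⟩ := cauchySeq_tendsto_of_complete hcau
  have hmH : m ∈ H10 Ω := (H10_closed Ω).mem_of_tendsto hm (Eventually.of_forall fun n => (hqK n).1)
  have hm1 : Tendsto (fun n => (q n).1) atTop (𝓝 m.1) := (continuous_fst.tendsto m).comp hm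
  have hm2 : Tendsto (fun n => (q n).2) atTop (𝓝 m.2) := (continuous_snd.tendsto m).comp hm
  have hQlim : Tendsto (fun n => exmQ h F g (q n)) atTop (𝓝 (exmQ h F g m)) := by
    unfold exmQ
    exact ((((hm1.norm.pow 2).div_const 2).add ((hm2.norm.pow 2).const_mul _)).sub
      (tendsto_const_nhds.inner hm1)).add ((tendsto_const_nhds.inner hm2).const_mul h)
  set L : ℝ := (I - exmQ h F g m) / (h * a / (α + 2)) with hL
  have hPhi : Tendsto (fun n => ∫ y in Ω, |(q n).1 y| ^ (α + 2)) atTop (𝓝 L) := by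
    have h1 := (hJlim.sub hQlim).div_const (h * a / (α + 2))
    refine h1.congr fun n => ?_
    rw [exm_JJ]
    field_simp
    ring
  -- an a.e. convergent subsequence
  obtain ⟨ns, hns, hae⟩ := (tendstoInMeasure_of_tendsto_Lp hm1).exists_seq_tendsto_ae
  obtain ⟨hmi, hmle⟩ := exm_fatou (β := α + 2) (by linarith) (volume.restrict Ω)
    (fun i => ((q (ns i)).1 : E N → ℝ)) (m.1 : E N → ℝ) (fun i => (hqK (ns i)).2) hae
    (Lp.aestronglyMeasurable m.1) (hPhi.comp hns.tendsto_atTop)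
  refine ⟨m, hmH, (exm_int hα).mp hmi, ?_⟩
  intro p hp hpm
  have hpK : p ∈ K := ⟨hp, (exm_int hα).mpr hpm⟩
  have h1 := hIle p hpK
  have h2 : JJ a α h F g m ≤ I := by
    rw [exm_JJ]
    have h3 := mul_le_mul_of_nonneg_left hmle hc.le
    have h4 : h * a / (α + 2) * L = I - exmQ h F g m := by
      rw [hL, mul_div_cancel₀ _ hc.ne']
    linarith
  exact h2.trans h1


end Pool.Agent.Helper420.SC
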