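import Mathlib
import Pool.Agent.Helper420.SC.L05

set_option autoImplicit false
set_option linter.unusedVariables false

open MeasureTheory Set Filter Topology
open scoped ENNReal NNReal InnerProductSpace

namespace Pool.Agent.Helper420.SC


variable {N : ℕ} {Ω : Set (E N)} {a α : ℝ}








theorem waveOp_range (ha : 0 < a) (hα : 0 < α) {h : ℝ} (hh : 0 < h) (x : X Ω) :
    ∃ y z : X Ω, (y, z) ∈ waveOp Ω a α ∧ y + h • z = x := by
  obtain ⟨m, hm, hmp, hmin⟩ := exists_minimizer (Ω := Ω) ha hα hh (x.fst : L2v Ω) x.snd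
  let gv : Grad Ω := ⟨m.2, H10_grad hm⟩
  let G : Grad Ω := x.fst + h • gv
  let w : L2 Ω := h⁻¹ • (x.snd - m.1)
  refine ⟨WithLp.toLp 2 (G, m.1), WithLp.toLp 2 (-gv, w), ⟨G, gv, m.1, w, hm, hmp, ?_, rfl⟩, ?_⟩
  · intro p hp hpp
    have he := euler (Ω := Ω) ha hα hh (x.fst : L2v Ω) x.snd hm hmp hmin hp hpp
    have h1 : ∫ y in Ω, w y * p.1 y = inner ℝ w p.1 := by
      rw [MeasureTheory.L2.inner_def]
      refine integral_congr_ae (Filter.Eventually.of_forall fun y => ?_)
      simp [mul_comm]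
    have h2 : ∫ y in Ω, inner ℝ ((G : L2v Ω) y) (p.2 y) = inner ℝ (G : L2v Ω) p.2 := by
      rw [MeasureTheory.L2.inner_def]
    rw [h1, h2]
    have h3 : (G : L2v Ω) = (x.fst : L2v Ω) + h • m.2 := rfl
    have h4 : w = h⁻¹ • (x.snd - m.1) := rfl
    rw [h3, h4, inner_smul_left, inner_sub_left, inner_add_left, inner_smul_left]
    simp only [conj_trivial]
    have hne : h ≠ 0 := hh.ne'
    rw [inv_mul_eq_iff_eq_mul₀ hne]
    linarith
  · have hne : h ≠ 0 := hh.ne'
    have e1 : G + h • (-gv) = x.fst := by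
      show x.fst + h • gv + h • (-gv) = x.fst
      rw [smul_neg]; abel
    have e2 : m.1 + h • w = x.snd := by
      show m.1 + h • (h⁻¹ • (x.snd - m.1)) = x.snd
      rw [smul_inv_smul₀ hne]; abel
    rw [← WithLp.toLp_smul, ← WithLp.toLp_add]
    have : (G, m.1) + h • ((-gv : Grad Ω), w) = (x.fst, x.snd) := by
      rw [Prod.smul_mk, Prod.mk_add_mk, e1, e2]
    rw [this]
    rfl


end Pool.Agent.Helper420.SC
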