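import Mathlib
import Pool.Agent.Helper420.SC.Defs

set_option autoImplicit false
set_option linter.unusedVariables false

open MeasureTheory Set Filter Topology
open scoped ENNReal NNReal InnerProductSpace

namespace Pool.Agent.Helper420.SC


variable {N : ℕ} {Ω : Set (E N)} {a α : ℝ}

/-- integration by parts: the function `ψ = -Δφ` -/
theorem exists_lap {Ω : Set (E N)} {φ : E N → ℝ} (hφ : IsTest Ω φ) : ∃ ψ : E N → ℝ,
    Continuous ψ ∧ HasCompactSupport ψ ∧ tsupport ψ ⊆ tsupport φ ∧
    ∀ χ : E N → ℝ, ContDiff ℝ 1 χ → HasCompactSupport χ →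
      ∫ y, inner ℝ (gradient φ y) (gradient χ y) = ∫ y, ψ y * χ y := by
  obtain ⟨hsm, hcs, hsub⟩ := hφ
  set b := EuclideanSpace.basisFun (Fin N) ℝ with hb
  -- first derivatives
  have hd : ∀ v : E N, ContDiff ℝ 1 (fun y => fderiv ℝ φ y v) := by
    intro v
    have h2 : ContDiff ℝ 2 φ := hsm.of_le (by exact WithTop.coe_le_coe.2 le_top)
    exact (h2.fderiv_right (m := 1) (by norm_num)).clm_apply contDiff_const
  have hd2 : ∀ v : E N, Continuous (fun y => fderiv ℝ (fun z => fderiv ℝ φ z v) y v) := by
    intro v
    exact ((hd v).continuous_fderiv (by norm_num)).clm_apply continuous_const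
  have hts1 : ∀ v : E N, tsupport (fun y => fderiv ℝ φ y v) ⊆ tsupport φ :=
    fun v => tsupport_fderiv_apply_subset ℝ v
  have hts2 : ∀ v : E N, tsupport (fun y => fderiv ℝ (fun z => fderiv ℝ φ z v) y v) ⊆ tsupport φ :=
    fun v => (tsupport_fderiv_apply_subset ℝ v).trans (hts1 v)
  refine ⟨fun y => - ∑ i, fderiv ℝ (fun z => fderiv ℝ φ z (b i)) y (b i), ?_, ?_, ?_, ?_⟩
  · exact (continuous_finsetSum _ fun i _ => hd2 (b i)).neg
  · refine HasCompactSupport.intro hcs (fun x hx => ?_)
    rw [neg_eq_zero]
    refine Finset.sum_eq_zero fun i _ => ?_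
    by_contra hne
    exact hx (hts2 (b i) (subset_tsupport _ hne))
  · refine closure_minimal (fun x hx => ?_) (isClosed_tsupport _)
    by_contra hxx
    apply hx
    show - ∑ i, fderiv ℝ (fun z => fderiv ℝ φ z (b i)) x (b i) = 0
    rw [neg_eq_zero]
    refine Finset.sum_eq_zero fun i _ => ?_
    by_contra hne
    exact hxx (hts2 (b i) (subset_tsupport _ hne))
  · intro χ hχ hχc
    have hinner : ∀ y, inner ℝ (gradient φ y) (gradient χ y)
        = ∑ i, fderiv ℝ φ y (b i) * fderiv ℝ χ y (b i) := by
      intro y
      rw [← b.sum_inner_mul_inner]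
      refine Finset.sum_congr rfl fun i _ => ?_
      rw [real_inner_comm]
      have h1 : inner ℝ (b i) (gradient φ y) = fderiv ℝ φ y (b i) := by
        rw [real_inner_comm]
        unfold gradient
        exact InnerProductSpace.toDual_symm_apply
      have h2 : inner ℝ (b i) (gradient χ y) = fderiv ℝ χ y (b i) := by
        rw [real_inner_comm]
        unfold gradient
        exact InnerProductSpace.toDual_symm_apply
      first
        | rw [h1, h2]
        | (rw [real_inner_comm, h1, h2])
        | (rw [real_inner_comm] at h1; rw [h1, h2])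
    have hχd : ∀ v : E N, Continuous (fun y => fderiv ℝ χ y v) := fun v =>
      (hχ.continuous_fderiv (by norm_num)).clm_apply continuous_const
    have hI1 : ∀ i, Integrable (fun y => fderiv ℝ φ y (b i) * fderiv ℝ χ y (b i)) := by
      intro i
      refine Continuous.integrable_of_hasCompactSupport (((hd (b i)).continuous).mul (hχd _)) ?_
      refine HasCompactSupport.mul_right ?_
      exact HasCompactSupport.intro hcs (fun x hx => by
        by_contra hne
        exact hx (hts1 (b i) (subset_tsupport _ hne)))
    have hI2 : ∀ i, Integrable (fun y => fderiv ℝ (fun z => fderiv ℝ φ z (b i)) y (b i) * χ y) := by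
      intro i
      exact Continuous.integrable_of_hasCompactSupport ((hd2 (b i)).mul hχ.continuous)
        (HasCompactSupport.mul_left hχc)
    have hI3 : ∀ i, Integrable (fun y => fderiv ℝ φ y (b i) * χ y) := by
      intro i
      exact Continuous.integrable_of_hasCompactSupport (((hd (b i)).continuous).mul hχ.continuous)
        (HasCompactSupport.mul_left hχc)
    have hip : ∀ i, ∫ y, fderiv ℝ φ y (b i) * fderiv ℝ χ y (b i)
        = - ∫ y, fderiv ℝ (fun z => fderiv ℝ φ z (b i)) y (b i) * χ y := by
      intro i
      exact integral_mul_fderiv_eq_neg_fderiv_mul_of_integrable (hI2 i) (hI1 i) (hI3 i)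
        (fun x _ => ((hd (b i)).differentiable (by norm_num)).differentiableAt)
        (fun x _ => (hχ.differentiable (by norm_num)).differentiableAt)
    simp_rw [hinner]
    rw [integral_finsetSum _ (fun i _ => hI1 i)]
    simp_rw [hip]
    rw [Finset.sum_neg_distrib, ← integral_finsetSum _ (fun i _ => hI2 i), ← integral_neg]
    refine integral_congr_ae (Filter.Eventually.of_forall fun y => ?_)
    show -∑ i, fderiv ℝ (fun z => fderiv ℝ φ z (b i)) y (b i) * χ y = (-∑ i, fderiv ℝ (fun z => fderiv ℝ φ z (b i)) y (b i)) * χ y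
    rw [← Finset.sum_mul, neg_mul]


end Pool.Agent.Helper420.SC
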