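import Mathlib
import Pool.Agent.Helper420.SC.L08

set_option autoImplicit false
set_option linter.unusedVariables false

open MeasureTheory Set Filter Topology
open scoped ENNReal NNReal InnerProductSpace

namespace Pool.Agent.Helper420.SC


variable {N : ℕ} {Ω : Set (E N)} {a α : ℝ}


theorem scal_int_29494 (c : ℝ) (hc : 0 < c) (y0 : E N) (g : E N → ℝ) :
    ∫ y, g (c • (y - y0)) = (c ^ N)⁻¹ * ∫ y, g y := by
  have h1 := integral_sub_right_eq_self (μ := (volume : Measure (E N))) (fun y => g (c • y)) y0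
  have h2 := Measure.integral_comp_smul (volume : Measure (E N)) g c
  rw [finrank_euclideanSpace_fin, abs_of_pos (by positivity), smul_eq_mul] at h2
  rw [← h2, ← h1]

theorem scal_grad_29494 (c m : ℝ) (y0 : E N) (f : E N → ℝ) (hf : Differentiable ℝ f) (y : E N) :
    gradient (fun y => m * f (c • (y - y0))) y = (m * c) • gradient f (c • (y - y0)) := by
  have h1 : HasFDerivAt (fun y : E N => c • (y - y0)) (c • ContinuousLinearMap.id ℝ (E N)) y :=
    ((hasFDerivAt_id y).sub_const y0).const_smul c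
  have h2 : HasFDerivAt (fun y => f (c • (y - y0)))
      ((fderiv ℝ f (c • (y - y0))).comp (c • ContinuousLinearMap.id ℝ (E N))) y :=
    (hf _).hasFDerivAt.comp y h1
  have h3 := h2.const_mul m
  unfold gradient
  rw [h3.fderiv]
  have e : m • (fderiv ℝ f (c • (y - y0))).comp (c • ContinuousLinearMap.id ℝ (E N)) =
      (m * c) • fderiv ℝ f (c • (y - y0)) := by
    ext v
    simp [mul_assoc]
  rw [e, map_smulₛₗ, conj_trivial]

theorem scal_weak_29494 (c m : ℝ) (hc : 0 < c) (y0 : E N) (φ0 ψ0 : E N → ℝ)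
    (hφ0 : Differentiable ℝ φ0)
    (hw : ∀ χ : E N → ℝ, ContDiff ℝ 1 χ → HasCompactSupport χ →
      ∫ y, inner ℝ (gradient φ0 y) (gradient χ y) = ∫ y, ψ0 y * χ y)
    (χ : E N → ℝ) (hχ : ContDiff ℝ 1 χ) (hχc : HasCompactSupport χ) :
    ∫ y, inner ℝ (gradient (fun y => m * φ0 (c • (y - y0))) y) (gradient χ y) =
      ∫ y, (m * c ^ 2 * ψ0 (c • (y - y0))) * χ y := by
  obtain ⟨χ', hχ'⟩ : ∃ χ' : E N → ℝ, χ' = fun z => χ (c⁻¹ • z + y0) := ⟨_, rfl⟩
  have e1 : ∀ y, χ' (c • (y - y0)) = χ y := by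
    intro y
    rw [hχ']
    show χ (c⁻¹ • (c • (y - y0)) + y0) = χ y
    rw [inv_smul_smul₀ hc.ne', sub_add_cancel]
  have h1 : ContDiff ℝ 1 χ' := by
    rw [hχ']
    exact hχ.comp (by fun_prop)
  have h2 : HasCompactSupport χ' := by
    have := hχc.comp_homeomorph ((Homeomorph.smulOfNeZero c⁻¹ (inv_ne_zero hc.ne')).trans
      (Homeomorph.addRight y0) : E N ≃ₜ E N)
    rw [hχ']
    exact this
  have h3 := hw χ' h1 h2
  have e2 : ∀ y, gradient χ y = c • gradient χ' (c • (y - y0)) := by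
    intro y
    have h4 := scal_grad_29494 c 1 y0 χ' (h1.differentiable one_ne_zero) y
    have h5 : (fun y => 1 * χ' (c • (y - y0))) = χ := by
      funext y
      rw [e1, one_mul]
    rw [h5, one_mul] at h4
    exact h4
  have h6 := scal_int_29494 c hc y0
    (fun z => m * c ^ 2 * inner ℝ (gradient φ0 z) (gradient χ' z))
  have h7 := scal_int_29494 c hc y0 (fun z => m * c ^ 2 * (ψ0 z * χ' z))
  have h8 : ∫ z, m * c ^ 2 * inner ℝ (gradient φ0 z) (gradient χ' z) =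
      ∫ z, m * c ^ 2 * (ψ0 z * χ' z) := by
    rw [integral_const_mul, integral_const_mul, h3]
  rw [h8, ← h7] at h6
  have e3 : ∀ y, inner ℝ (gradient (fun y => m * φ0 (c • (y - y0))) y) (gradient χ y) =
      m * c ^ 2 * inner ℝ (gradient φ0 (c • (y - y0))) (gradient χ' (c • (y - y0))) := by
    intro y
    rw [e2, scal_grad_29494 c m y0 φ0 hφ0, inner_smul_left, inner_smul_right, conj_trivial]
    ring
  have e4 : ∀ y, (m * c ^ 2 * ψ0 (c • (y - y0))) * χ y =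
      m * c ^ 2 * (ψ0 (c • (y - y0)) * χ' (c • (y - y0))) := by
    intro y
    rw [e1]
    ring
  simp only [e3, e4]
  exact h6

theorem bump_29494 (hN : 3 ≤ N) : ∃ f : E N → ℝ, ContDiff ℝ ((⊤ : ℕ∞) : WithTop ℕ∞) f ∧
    HasCompactSupport f ∧ (∀ y, 1 ≤ ‖y‖ → f y = 0) ∧ 0 < ∫ y, ‖gradient f y‖ ^ 2 := by
  obtain ⟨F, hF1, hF2⟩ : ∃ F : ContDiffBump (0 : E N), F.rIn = 1 / 2 ∧ F.rOut = 1 :=
    ⟨⟨1 / 2, 1, by norm_num, by norm_num⟩, rfl, rfl⟩
  refine ⟨F, F.contDiff, F.hasCompactSupport, ?_, ?_⟩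
  · intro y hy
    apply F.zero_of_le_dist
    rw [hF2, dist_zero_right]
    exact hy
  · have hg : ∀ y, ‖gradient F y‖ = ‖fderiv ℝ F y‖ := by
      intro y
      unfold gradient
      rw [LinearIsometryEquiv.norm_map]
    simp only [hg]
    have hdiff : Differentiable ℝ F := (F.contDiff (n := 1)).differentiable one_ne_zero
    obtain ⟨x, hx⟩ : ∃ x, fderiv ℝ F x ≠ 0 := by
      by_contra hcon
      have hcon' : ∀ x, fderiv ℝ F x = 0 := by
        intro x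
        by_contra h
        exact hcon ⟨x, h⟩
      have h1 := is_const_of_fderiv_eq_zero hdiff hcon' 0
        (EuclideanSpace.single (⟨0, by omega⟩ : Fin N) (1 : ℝ))
      rw [F.one_of_mem_closedBall (by
          rw [hF1]
          exact Metric.mem_closedBall_self (by norm_num)),
        F.zero_of_le_dist (by
          rw [hF2, dist_zero_right]
          simp)] at h1
      exact one_ne_zero h1
    have hcont : Continuous fun y => ‖fderiv ℝ F y‖ ^ 2 :=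
      ((F.contDiff (n := 1)).continuous_fderiv one_ne_zero).norm.pow 2
    have hsupp : HasCompactSupport fun y => ‖fderiv ℝ F y‖ ^ 2 := by
      have h1 : HasCompactSupport (fderiv ℝ F) := F.hasCompactSupport.fderiv ℝ
      have h2 := h1.comp_left (g := fun L : E N →L[ℝ] ℝ => ‖L‖ ^ 2) (by simp)
      exact h2
    refine hcont.integral_pos_of_hasCompactSupport_nonneg_nonzero hsupp
      (fun y => sq_nonneg _) (x := x) ?_
    exact pow_ne_zero 2 (norm_ne_zero_iff.2 hx)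

theorem expo_29494 (hN : 3 ≤ N) {α : ℝ} (hα : 4 / ((N : ℝ) - 2) < α) :
    0 < α ∧ 0 < N * ((α + 1) / (α + 2)) - N / 2 - 1 := by
  have hN' : (3 : ℝ) ≤ N := by exact_mod_cast hN
  have h2 : (0 : ℝ) < (N : ℝ) - 2 := by linarith
  have hα0 : 0 < α := lt_trans (by positivity) hα
  rw [div_lt_iff₀ h2] at hα
  refine ⟨hα0, ?_⟩
  have h3 : (N : ℝ) * ((α + 1) / (α + 2)) - N / 2 - 1 = (α * ((N : ℝ) - 2) - 4) / (2 * (α + 2)) := by
    field_simp
    ring
  rw [h3]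
  apply div_pos
  · linarith
  · linarith

theorem rp_29494 (c κ J s b n : ℝ) (hc : 0 < c) (hκ : 0 ≤ κ) (hJ : 0 ≤ J) (hbs : b * s = 1) :
    ((κ * c ^ (n / 2 + 1)) ^ b * ((c ^ n)⁻¹ * J)) ^ s =
      κ * J ^ s * c ^ (-(n * s - n / 2 - 1)) := by
  have h1 : 0 ≤ κ * c ^ (n / 2 + 1) := mul_nonneg hκ (Real.rpow_nonneg hc.le _)
  rw [Real.mul_rpow (Real.rpow_nonneg h1 _) (mul_nonneg (inv_nonneg.2 (Real.rpow_nonneg hc.le _)) hJ),
    Real.mul_rpow (inv_nonneg.2 (Real.rpow_nonneg hc.le _)) hJ, ← Real.rpow_mul h1, hbs,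
    Real.rpow_one, ← Real.rpow_neg hc.le, ← Real.rpow_mul hc.le]
  have h2 : c ^ (-(n * s - n / 2 - 1)) = c ^ (n / 2 + 1) * c ^ (-n * s) := by
    rw [← Real.rpow_add hc]
    congr 1
    ring
  rw [h2]
  ring

/-- concentrated test functions: `φ_λ(y) = λ^{1-N/2} φ((y-y0)/λ)` -/
theorem exists_conc (hN : 3 ≤ N) (hΩ : IsOpen Ω) (hne : Ω.Nonempty) {α : ℝ}
    (hα : 4 / ((N : ℝ) - 2) < α) {δ : ℝ} (hδ : 0 < δ) :
    ∃ φ ψ : E N → ℝ, IsTest Ω φ ∧ Continuous ψ ∧ HasCompactSupport ψ ∧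
      (∀ χ : E N → ℝ, ContDiff ℝ 1 χ → HasCompactSupport χ →
        ∫ y, inner ℝ (gradient φ y) (gradient χ y) = ∫ y, ψ y * χ y) ∧
      ∫ y, ‖gradient φ y‖ ^ 2 = 1 ∧
      (∫ y, |ψ y| ^ ((α + 2) / (α + 1))) ^ ((α + 1) / (α + 2)) ≤ δ := by
  obtain ⟨hα0, hexp⟩ := expo_29494 hN hα
  obtain ⟨f, hf1, hf2, hf3, hI⟩ := bump_29494 hN
  have hfd : Differentiable ℝ f := hf1.differentiable (by simp)
  obtain ⟨ψ0, hψ1, hψ2, _, hψ4⟩ := exists_lap (Ω := univ) ⟨hf1, hf2, subset_univ _⟩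
  obtain ⟨y0, hy0⟩ := hne
  obtain ⟨r, hr, hrΩ⟩ := Metric.isOpen_iff.1 hΩ y0 hy0
  obtain ⟨I, hIe⟩ : ∃ I, I = ∫ y, ‖gradient f y‖ ^ 2 := ⟨_, rfl⟩
  rw [← hIe] at hI
  obtain ⟨κ, hκ⟩ : ∃ κ, κ = 1 / √I := ⟨_, rfl⟩
  have hκ0 : 0 ≤ κ := by
    rw [hκ]
    positivity
  have hκI : κ ^ 2 * I = 1 := by
    rw [hκ, div_pow, Real.sq_sqrt hI.le, one_pow, one_div, inv_mul_cancel₀ hI.ne']
  obtain ⟨s, hs⟩ : ∃ s, s = (α + 1) / (α + 2) := ⟨_, rfl⟩
  obtain ⟨b, hb⟩ : ∃ b, b = (α + 2) / (α + 1) := ⟨_, rfl⟩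
  have hbs : b * s = 1 := by
    rw [hb, hs]
    have : α + 1 ≠ 0 := by linarith
    have : α + 2 ≠ 0 := by linarith
    field_simp
  rw [← hs] at hexp
  obtain ⟨J, hJ⟩ : ∃ J, J = ∫ y, |ψ0 y| ^ b := ⟨_, rfl⟩
  have hJ0 : 0 ≤ J := by
    rw [hJ]
    exact integral_nonneg fun y => Real.rpow_nonneg (abs_nonneg _) _
  -- choose the scale
  have htend : Tendsto (fun c : ℝ => κ * J ^ s * c ^ (-(N * s - N / 2 - 1))) atTop (𝓝 0) := by
    have := (tendsto_rpow_neg_atTop hexp).const_mul (κ * J ^ s)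
    rwa [mul_zero] at this
  obtain ⟨c, hc1, hc2, hc3⟩ := ((htend.eventually (gt_mem_nhds hδ)).and
    ((eventually_gt_atTop (0 : ℝ)).and (eventually_gt_atTop (1 / r)))).exists
  have hcr : 1 / c < r := by
    rw [div_lt_iff₀ hc2]
    rw [div_lt_iff₀ hr] at hc3
    linarith
  obtain ⟨m, hm⟩ : ∃ m, m = κ * c ^ ((N : ℝ) / 2 - 1) := ⟨_, rfl⟩
  have hmc : m * c = κ * c ^ ((N : ℝ) / 2) := by
    rw [hm, mul_assoc]
    congr 1
    nth_rewrite 2 [← Real.rpow_one c]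
    rw [← Real.rpow_add hc2]
    congr 1
    ring
  have hmc2 : m * c ^ 2 = κ * c ^ ((N : ℝ) / 2 + 1) := by
    rw [Real.rpow_add_one hc2.ne', ← mul_assoc, ← hmc]
    ring
  have hmcN : (m * c) ^ 2 = κ ^ 2 * c ^ N := by
    rw [hmc, mul_pow]
    congr 1
    rw [← Real.rpow_natCast, ← Real.rpow_mul hc2.le, ← Real.rpow_natCast]
    congr 1
    push_cast
    ring
  have hsuppφ : Function.support (fun y => m * f (c • (y - y0))) ⊆ Metric.closedBall y0 (1 / c) := by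
    intro y hy
    rw [Metric.mem_closedBall, dist_eq_norm]
    by_contra hcon
    apply hy
    show m * f (c • (y - y0)) = 0
    rw [hf3, mul_zero]
    rw [norm_smul, Real.norm_of_nonneg hc2.le]
    have h1 := not_le.1 hcon
    rw [div_lt_iff₀ hc2] at h1
    linarith
  have htsupp : tsupport (fun y => m * f (c • (y - y0))) ⊆ Metric.closedBall y0 (1 / c) :=
    closure_minimal hsuppφ Metric.isClosed_closedBall
  refine ⟨fun y => m * f (c • (y - y0)), fun y => m * c ^ 2 * ψ0 (c • (y - y0)),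
    ⟨?_, ?_, ?_⟩, ?_, ?_, ?_, ?_, ?_⟩
  · exact contDiff_const.mul (hf1.comp (by fun_prop))
  · exact (isCompact_closedBall y0 (1 / c)).of_isClosed_subset (isClosed_tsupport _) htsupp
  · exact htsupp.trans ((Metric.closedBall_subset_ball hcr).trans hrΩ)
  · exact continuous_const.mul (hψ1.comp (by fun_prop))
  · have h1 := hψ2.comp_homeomorph ((Homeomorph.subRight y0).trans
      (Homeomorph.smulOfNeZero c hc2.ne') : E N ≃ₜ E N)
    exact h1.mul_left (f := fun _ => m * c ^ 2)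
  · intro χ hχ hχc
    exact scal_weak_29494 c m hc2 y0 f ψ0 hfd hψ4 χ hχ hχc
  · have h1 := scal_int_29494 c hc2 y0 (fun z => (m * c) ^ 2 * ‖gradient f z‖ ^ 2)
    have e1 : ∀ y, ‖gradient (fun y => m * f (c • (y - y0))) y‖ ^ 2 =
        (m * c) ^ 2 * ‖gradient f (c • (y - y0))‖ ^ 2 := by
      intro y
      rw [scal_grad_29494 c m y0 f hfd, norm_smul, mul_pow, Real.norm_eq_abs, sq_abs]
    simp only [e1]
    rw [h1, integral_const_mul, ← hIe, hmcN]
    have : c ^ N ≠ 0 := pow_ne_zero _ hc2.ne'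
    calc (c ^ N)⁻¹ * (κ ^ 2 * c ^ N * I) = (κ ^ 2 * I) * ((c ^ N)⁻¹ * c ^ N) := by ring
      _ = 1 := by rw [hκI, inv_mul_cancel₀ this, one_mul]
  · rw [← hb, ← hs]
    have h1 := scal_int_29494 c hc2 y0 (fun z => (κ * c ^ ((N : ℝ) / 2 + 1)) ^ b * |ψ0 z| ^ b)
    have h2 : 0 ≤ κ * c ^ ((N : ℝ) / 2 + 1) := mul_nonneg hκ0 (Real.rpow_nonneg hc2.le _)
    have e1 : ∀ y, |m * c ^ 2 * ψ0 (c • (y - y0))| ^ b =
        (κ * c ^ ((N : ℝ) / 2 + 1)) ^ b * |ψ0 (c • (y - y0))| ^ b := by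
      intro y
      rw [hmc2, abs_mul, abs_of_nonneg h2, Real.mul_rpow h2 (abs_nonneg _)]
    simp only [e1]
    rw [h1, integral_const_mul, ← hJ]
    have h3 := rp_29494 c κ J s b N hc2 hκ0 hJ0 hbs
    rw [Real.rpow_natCast] at h3
    have h4 : (c ^ N)⁻¹ * ((κ * c ^ ((N : ℝ) / 2 + 1)) ^ b * J) =
        (κ * c ^ ((N : ℝ) / 2 + 1)) ^ b * ((c ^ N)⁻¹ * J) := by ring
    rw [h4, h3]
    exact hc1.le


end Pool.Agent.Helper420.SC
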