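import Mathlib
import Pool.Agent.Helper420.SC.Defs

set_option autoImplicit false
set_option linter.unusedVariables false

open MeasureTheory Set Filter Topology
open scoped ENNReal NNReal InnerProductSpace

namespace Pool.Agent.Helper420.SC


variable {N : ℕ} {Ω : Set (E N)} {a α : ℝ}

theorem exists_test_near (hΩ : IsOpen Ω) (v : L2 Ω) {ε : ℝ} (hε : 0 < ε) :
    ∃ (χ : E N → ℝ) (w : L2 Ω), IsTest Ω χ ∧ w =ᵐ[volume.restrict Ω] χ ∧ ‖v - w‖ < ε := by
  classical
  -- the subspace of test functions
  let K : Submodule ℝ (L2 Ω) :=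
    { carrier := {w | ∃ χ : E N → ℝ, IsTest Ω χ ∧ w =ᵐ[volume.restrict Ω] χ}
      add_mem' := by
        rintro w1 w2 ⟨χ1, h1, e1⟩ ⟨χ2, h2, e2⟩
        refine ⟨χ1 + χ2, ⟨h1.1.add h2.1, h1.2.1.add h2.2.1, ?_⟩, ?_⟩
        · refine (tsupport_add χ1 χ2).trans (Set.union_subset h1.2.2 h2.2.2)
        · filter_upwards [Lp.coeFn_add w1 w2, e1, e2] with x a b c
          rw [a, Pi.add_apply, Pi.add_apply, b, c]
      zero_mem' := by
        refine ⟨fun _ => 0, ⟨contDiff_const, HasCompactSupport.zero, ?_⟩, Lp.coeFn_zero _ _ _⟩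
        have : tsupport (fun _ : E N => (0 : ℝ)) = ∅ := by
          rw [tsupport_eq_empty_iff]; rfl
        rw [this]; exact Set.empty_subset _
      smul_mem' := by
        rintro c w ⟨χ, h, e⟩
        refine ⟨fun x => c * χ x, ⟨contDiff_const.mul h.1, h.2.1.mul_left, ?_⟩, ?_⟩
        · refine (closure_mono ?_).trans h.2.2
          intro x hx
          exact right_ne_zero_of_mul hx
        · filter_upwards [Lp.coeFn_smul c w, e] with x a b
          rw [a, Pi.smul_apply, b, smul_eq_mul] }
  have hK : K.topologicalClosure = ⊤ := by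
    rw [Submodule.topologicalClosure_eq_top_iff, Submodule.eq_bot_iff]
    intro u hu
    rw [Submodule.mem_orthogonal] at hu
    have hmem : MemLp u 2 ((volume : Measure (E N)).restrict Ω) := Lp.memLp u
    have hloc : LocallyIntegrableOn (u : E N → ℝ) Ω volume :=
      locallyIntegrableOn_of_locallyIntegrable_restrict (hmem.locallyIntegrable (by norm_num))
    have hzero := hΩ.ae_eq_zero_of_integral_contDiff_smul_eq_zero hloc (by
      intro χ h1 h2 h3
      have hm : MemLp χ 2 ((volume : Measure (E N)).restrict Ω) :=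
        (h1.continuous.memLp_of_hasCompactSupport h2).restrict Ω
      have h4 := hu (hm.toLp χ) ⟨χ, ⟨h1, h2, h3⟩, hm.coeFn_toLp⟩
      rw [L2.inner_def] at h4
      have h5 : ∫ x in Ω, χ x • u x = 0 := by
        rw [← h4]
        refine integral_congr_ae ?_
        filter_upwards [hm.coeFn_toLp] with x hx
        rw [hx]
        simp [mul_comm]
      rw [← h5]
      symm
      apply setIntegral_eq_integral_of_forall_compl_eq_zero
      intro x hx
      have : χ x = 0 := by
        apply image_eq_zero_of_notMem_tsupport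
        intro hc; exact hx (h3 hc)
      rw [this, zero_smul])
    rw [Lp.eq_zero_iff_ae_eq_zero]
    have h6 : ∀ᵐ x ∂((volume : Measure (E N)).restrict Ω), u x = 0 := by
      rw [ae_restrict_iff' hΩ.measurableSet]
      exact hzero
    exact h6
  have hv : v ∈ K.topologicalClosure := by rw [hK]; exact Submodule.mem_top
  have hv2 : v ∈ closure (K : Set (L2 Ω)) := hv
  obtain ⟨w, hw, hd⟩ := Metric.mem_closure_iff.1 hv2 ε hε
  obtain ⟨χ, h1, h2⟩ := hw
  exact ⟨χ, w, h1, h2, by rw [← dist_eq_norm]; exact hd⟩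


end Pool.Agent.Helper420.SC
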