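import Mathlib
import Pool.Agent.Helper420.SC.L01
import Pool.Agent.Helper420.SC.L08
import Pool.Agent.Helper420.SC.L11

set_option autoImplicit false
set_option linter.unusedVariables false

open MeasureTheory Set Filter Topology
open scoped ENNReal NNReal InnerProductSpace

namespace Pool.Agent.Helper420.SC


variable {N : ℕ} {Ω : Set (E N)} {a α : ℝ}




theorem grad_cont {φ : E N → ℝ} (h : ContDiff ℝ 1 φ) : Continuous (gradient φ) := by
  unfold gradient
  exact (InnerProductSpace.toDual ℝ (E N)).symm.continuous.comp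
    (h.continuous_fderiv (by norm_num))

theorem grad_zero {φ : E N → ℝ} {y : E N} (hy : y ∉ tsupport φ) : gradient φ y = 0 := by
  unfold gradient
  rw [fderiv_of_notMem_tsupport (𝕜 := ℝ) hy, map_zero]

theorem grad_supp {φ : E N → ℝ} (h : HasCompactSupport φ) : HasCompactSupport (gradient φ) := by
  refine HasCompactSupport.of_support_subset_isCompact h ?_
  intro y hy
  by_contra hn
  exact hy (grad_zero hn)

theorem IsTest.c1 {φ : E N → ℝ} (h : IsTest Ω φ) : ContDiff ℝ 1 φ :=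
  h.1.of_le (by exact_mod_cast le_top)

theorem memLp_cc {F : Type*} [NormedAddCommGroup F] {f : E N → F} (hf : Continuous f)
    (hc : HasCompactSupport f) (p : ℝ≥0∞) :
    MemLp f p ((volume : Measure (E N)).restrict Ω) :=
  (hf.memLp_of_hasCompactSupport (μ := volume) hc).restrict Ω

/-- the weak form of the definition of `φ ↦ -Δφ` against elements of `H10` -/
theorem H10_lap {φ ψ : E N → ℝ} (hφ : IsTest Ω φ) (hψ : Continuous ψ) (hψc : HasCompactSupport ψ)
    (h : ∀ χ : E N → ℝ, ContDiff ℝ 1 χ → HasCompactSupport χ →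
      ∫ y, inner ℝ (gradient φ y) (gradient χ y) = ∫ y, ψ y * χ y)
    {p : L2 Ω × L2v Ω} (hp : p ∈ H10 Ω) :
    ∫ y in Ω, inner ℝ (gradient φ y) (p.2 y) = ∫ y in Ω, ψ y * p.1 y := by
  have m1 : MemLp (gradient φ) 2 ((volume : Measure (E N)).restrict Ω) :=
    memLp_cc (grad_cont hφ.c1) (grad_supp hφ.2.1) 2
  have m2 : MemLp ψ 2 ((volume : Measure (E N)).restrict Ω) := memLp_cc hψ hψc 2
  have e1 : ∀ p : L2 Ω × L2v Ω, ∫ y in Ω, inner ℝ (gradient φ y) (p.2 y) =
      inner ℝ (m1.toLp (gradient φ)) p.2 := by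
    intro p
    rw [MeasureTheory.L2.inner_def]
    refine integral_congr_ae ?_
    filter_upwards [m1.coeFn_toLp] with y hy
    rw [hy]
  have e2 : ∀ p : L2 Ω × L2v Ω, ∫ y in Ω, ψ y * p.1 y =
      inner ℝ (m2.toLp ψ) p.1 := by
    intro p
    rw [MeasureTheory.L2.inner_def]
    refine integral_congr_ae ?_
    filter_upwards [m2.coeFn_toLp] with y hy
    rw [hy]
    simp [mul_comm]
  have hclosed : IsClosed {p : L2 Ω × L2v Ω | ∫ y in Ω, inner ℝ (gradient φ y) (p.2 y) =
      ∫ y in Ω, ψ y * p.1 y} := by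
    simp_rw [e1, e2]
    exact isClosed_eq (continuous_const.inner continuous_snd)
      (continuous_const.inner continuous_fst)
  have hsub : H10 Ω ⊆ {p : L2 Ω × L2v Ω | ∫ y in Ω, inner ℝ (gradient φ y) (p.2 y) =
      ∫ y in Ω, ψ y * p.1 y} := by
    refine closure_minimal ?_ hclosed
    rintro p ⟨χ, hχ, h1, h2⟩
    show ∫ y in Ω, inner ℝ (gradient φ y) (p.2 y) = ∫ y in Ω, ψ y * p.1 y
    have a1 : ∫ y in Ω, inner ℝ (gradient φ y) (p.2 y) =
        ∫ y in Ω, inner ℝ (gradient φ y) (gradient χ y) := by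
      refine integral_congr_ae ?_
      filter_upwards [h2] with y hy
      rw [hy]
    have a2 : ∫ y in Ω, ψ y * p.1 y = ∫ y in Ω, ψ y * χ y := by
      refine integral_congr_ae ?_
      filter_upwards [h1] with y hy
      rw [hy]
    rw [a1, a2, setIntegral_eq_integral_of_forall_compl_eq_zero,
      setIntegral_eq_integral_of_forall_compl_eq_zero, h χ hχ.c1 hχ.2.1]
    · intro y hy
      have : χ y = 0 := image_eq_zero_of_notMem_tsupport (fun h' => hy (hχ.2.2 h'))
      rw [this, mul_zero]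
    · intro y hy
      rw [grad_zero (fun h' => hy (hχ.2.2 h')), inner_zero_right]
  exact hsub hp

theorem waveOp_mem (hα : 0 < α) {φ χ : E N → ℝ} (hφ : IsTest Ω φ) (hχ : IsTest Ω χ)
    {g : Grad Ω} (hg : ((g : L2v Ω) : E N → E N) =ᵐ[volume.restrict Ω] gradient φ)
    {v : L2 Ω} (hv : v =ᵐ[volume.restrict Ω] χ) :
    ∃ z : X Ω, ((WithLp.toLp 2 (g, v) : X Ω), z) ∈ waveOp Ω a α := by
  obtain ⟨ψ, hψ, hψc, -, hψe⟩ := exists_lap hφ
  have mg : MemLp (gradient χ) 2 ((volume : Measure (E N)).restrict Ω) :=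
    memLp_cc (grad_cont hχ.c1) (grad_supp hχ.2.1) 2
  have hχcont : Continuous χ := hχ.1.continuous
  have hpc : Continuous (fun y => |χ y| ^ α * χ y) :=
    (hχcont.abs.rpow_const (fun _ => Or.inr hα.le)).mul hχcont
  have hps : HasCompactSupport (fun y => |χ y| ^ α * χ y) := hχ.2.1.mul_left
  have mψ : MemLp ψ 2 ((volume : Measure (E N)).restrict Ω) := memLp_cc hψ hψc 2
  have mpp : MemLp (fun y => |χ y| ^ α * χ y) 2 ((volume : Measure (E N)).restrict Ω) :=
    memLp_cc hpc hps 2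
  have mw : MemLp (fun y => ψ y + a * (|χ y| ^ α * χ y)) 2
      ((volume : Measure (E N)).restrict Ω) := mψ.add (mpp.const_mul a)
  have hgv : mg.toLp (gradient χ) ∈ Grad Ω := by
    unfold Grad
    apply Submodule.le_topologicalClosure
    apply Submodule.subset_span
    exact ⟨χ, hχ, mg.coeFn_toLp⟩
  refine ⟨WithLp.toLp 2 (-⟨mg.toLp (gradient χ), hgv⟩, mw.toLp _), g,
    ⟨mg.toLp (gradient χ), hgv⟩, v, mw.toLp _, ?_, ?_, ?_, rfl⟩
  · exact subset_closure ⟨χ, hχ, hv, mg.coeFn_toLp⟩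
  · refine MemLp.ae_eq hv.symm ?_
    exact memLp_cc hχcont hχ.2.1 _
  · intro p hp _
    have mp := Lp.memLp p.1
    have i1 : Integrable (fun y => ψ y * p.1 y) ((volume : Measure (E N)).restrict Ω) :=
      mψ.integrable_mul mp
    have i2 : Integrable (fun y => (|χ y| ^ α * χ y) * p.1 y)
        ((volume : Measure (E N)).restrict Ω) := mpp.integrable_mul mp
    have c1 : ∫ y in Ω, (mw.toLp _ : L2 Ω) y * p.1 y =
        ∫ y in Ω, (ψ y * p.1 y + a * ((|χ y| ^ α * χ y) * p.1 y)) := by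
      refine integral_congr_ae ?_
      filter_upwards [mw.coeFn_toLp] with y hy
      rw [hy]
      ring
    have c2 : ∫ y in Ω, inner ℝ ((g : L2v Ω) y) (p.2 y) =
        ∫ y in Ω, inner ℝ (gradient φ y) (p.2 y) := by
      refine integral_congr_ae ?_
      filter_upwards [hg] with y hy
      rw [hy]
    have c3 : ∫ y in Ω, |v y| ^ α * v y * p.1 y = ∫ y in Ω, (|χ y| ^ α * χ y) * p.1 y := by
      refine integral_congr_ae ?_
      filter_upwards [hv] with y hy
      rw [hy]
    rw [c1, c2, c3, integral_add i1 (i2.const_mul a), integral_const_mul,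
      H10_lap hφ hψ hψc hψe hp]

/-- the domain of the operator is dense -/
theorem waveOp_dense (hΩ : IsOpen Ω) (hα : 0 < α) :
    Dense {y : X Ω | ∃ z : X Ω, (y, z) ∈ waveOp Ω a α} := by
  intro x
  rw [mem_closure_iff_seq_limit]
  obtain ⟨φ, hφ, G, hG, hGl⟩ := Grad_seq x.fst
  have hc : ∀ n : ℕ, ∃ (χ : E N → ℝ) (w : L2 Ω), IsTest Ω χ ∧ w =ᵐ[volume.restrict Ω] χ ∧
      ‖x.snd - w‖ < 1 / ((n : ℝ) + 1) := fun n =>
    exists_test_near hΩ x.snd (by positivity)
  choose χ w hχ hw hwn using hc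
  refine ⟨fun n => WithLp.toLp 2 (G n, w n), fun n => waveOp_mem hα (hφ n) (hχ n) (hG n) (hw n),
    ?_⟩
  have hwl : Tendsto w atTop (𝓝 x.snd) := by
    rw [tendsto_iff_norm_sub_tendsto_zero]
    refine squeeze_zero (fun n => norm_nonneg _) (fun n => ?_)
      tendsto_one_div_add_atTop_nhds_zero_nat
    rw [norm_sub_rev]
    exact (hwn n).le
  have hp : Tendsto (fun n => (G n, w n)) atTop (𝓝 (x.fst, x.snd)) := hGl.prodMk_nhds hwl
  have := ((WithLp.prod_continuous_toLp 2 (Grad Ω) (L2 Ω)).tendsto (x.fst, x.snd)).comp hp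
  exact this


end Pool.Agent.Helper420.SC
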