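import Mathlib
import Pool.Agent.Helper420.SC.L10

set_option autoImplicit false
set_option linter.unusedVariables false

open MeasureTheory Set Filter Topology
open scoped ENNReal NNReal InnerProductSpace

namespace Pool.Agent.Helper420.SC


variable {N : ℕ} {Ω : Set (E N)} {a α : ℝ}


theorem step_data {h : ℝ} (hh : 0 < h) {x y : X Ω}
    (hxy : (y, h⁻¹ • (x - y)) ∈ waveOp Ω a α) :
    ∃ (gv : Grad Ω) (w : L2 Ω), (y.snd, (gv : L2v Ω)) ∈ H10 Ω ∧
      MemLp y.snd (ENNReal.ofReal (α + 2)) (volume.restrict Ω) ∧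
      (∀ p ∈ H10 Ω, MemLp p.1 (ENNReal.ofReal (α + 2)) (volume.restrict Ω) →
        ∫ z in Ω, w z * p.1 z = (∫ z in Ω, inner ℝ ((y.fst : L2v Ω) z) (p.2 z)) +
          a * ∫ z in Ω, |y.snd z| ^ α * y.snd z * p.1 z) ∧
      y.fst - x.fst = h • gv ∧ x = y + h • (WithLp.toLp 2 (-gv, w) : X Ω) := by
  obtain ⟨g, gv, v, w, h1, h2, h3, h4⟩ := hxy
  have hy : y = WithLp.toLp 2 (g, v) := congrArg Prod.fst h4
  have hz : h⁻¹ • (x - y) = WithLp.toLp 2 (-gv, w) := congrArg Prod.snd h4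
  have hx : x = y + h • (WithLp.toLp 2 (-gv, w) : X Ω) := by
    rw [← hz, smul_smul, mul_inv_cancel₀ hh.ne', one_smul]
    abel
  refine ⟨gv, w, ?_, ?_, ?_, ?_, hx⟩
  · rw [hy]; exact h1
  · rw [hy]; exact h2
  · rw [hy]; exact h3
  · have h5 : x.fst = y.fst + h • (-gv) := congrArg WithLp.fst hx
    rw [h5, smul_neg]
    abel

theorem step_pow (hα : 0 < α) (r : ℝ) : |r| ^ α * r * r = |r| ^ (α + 2) := by
  have h1 : |r| ^ (α + 2) = |r| ^ α * |r| ^ (2 : ℝ) :=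
    Real.rpow_add_of_nonneg (abs_nonneg _) hα.le (by norm_num)
  rw [h1, mul_assoc]
  congr 1
  rw [Real.rpow_two, sq_abs, sq]

theorem step_energy_inner (hα : 0 < α) {y : X Ω} {gv : Grad Ω} {w : L2 Ω}
    (h1 : (y.snd, (gv : L2v Ω)) ∈ H10 Ω)
    (h2 : MemLp y.snd (ENNReal.ofReal (α + 2)) (volume.restrict Ω))
    (h3 : ∀ p ∈ H10 Ω, MemLp p.1 (ENNReal.ofReal (α + 2)) (volume.restrict Ω) →
        ∫ z in Ω, w z * p.1 z = (∫ z in Ω, inner ℝ ((y.fst : L2v Ω) z) (p.2 z)) +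
          a * ∫ z in Ω, |y.snd z| ^ α * y.snd z * p.1 z) :
    inner ℝ y (WithLp.toLp 2 (-gv, w) : X Ω) = a * ∫ z in Ω, |y.snd z| ^ (α + 2) := by
  rw [WithLp.prod_inner_apply]
  have e1 : inner ℝ y.ofLp.fst (WithLp.toLp 2 (-gv, w) : X Ω).ofLp.fst =
      -∫ z in Ω, inner ℝ ((y.fst : L2v Ω) z) ((gv : L2v Ω) z) := by
    change inner ℝ y.fst (-gv) = _
    rw [inner_neg_right]
    congr 1
  have e2 : inner ℝ y.ofLp.snd (WithLp.toLp 2 (-gv, w) : X Ω).ofLp.snd =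
      ∫ z in Ω, w z * y.snd z := by
    change inner ℝ y.snd w = _
    rw [MeasureTheory.L2.inner_def]
    rfl
  rw [e1, e2, h3 _ h1 h2]
  have e3 : ∀ z, |y.snd z| ^ α * y.snd z * y.snd z = |y.snd z| ^ (α + 2) :=
    fun z => step_pow hα _
  simp_rw [e3]
  ring

/-- one step of the scheme -/
theorem step_energy (ha : 0 < a) (hα : 0 < α) {h : ℝ} (hh : 0 < h) {x y : X Ω}
    (hxy : (y, h⁻¹ • (x - y)) ∈ waveOp Ω a α) :
    MemLp y.snd (ENNReal.ofReal (α + 2)) (volume.restrict Ω) ∧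
    ‖y‖ ^ 2 + 2 * h * a * ∫ z in Ω, |y.snd z| ^ (α + 2) ≤ ‖x‖ ^ 2 := by
  obtain ⟨gv, w, h1, h2, h3, _, hx⟩ := step_data hh hxy
  refine ⟨h2, ?_⟩
  have e0 : inner ℝ y (h • (WithLp.toLp 2 (-gv, w) : X Ω)) =
      h * inner ℝ y (WithLp.toLp 2 (-gv, w) : X Ω) :=
    real_inner_smul_right (F := X Ω) y (WithLp.toLp 2 (-gv, w) : X Ω) h
  rw [hx, norm_add_sq_real, e0, step_energy_inner hα h1 h2 h3]
  have : 0 ≤ ‖h • (WithLp.toLp 2 (-gv, w) : X Ω)‖ ^ 2 := by positivity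
  linarith

theorem step_conj (hα : 0 < α) : ((α + 2) / (α + 1)).HolderConjugate (α + 2) := by
  rw [Real.holderConjugate_iff]
  refine ⟨?_, ?_⟩
  · rw [one_lt_div (by linarith)]
    linarith
  · rw [inv_div]
    field_simp
    ring

theorem step_test (ha : 0 < a) (hα : 0 < α) {h : ℝ} (hh : 0 < h) {x y : X Ω}
    (hxy : (y, h⁻¹ • (x - y)) ∈ waveOp Ω a α) {φ ψ : E N → ℝ} (hφ : IsTest Ω φ)
    (hψ : Continuous ψ) (hψc : HasCompactSupport ψ)
    (hl : ∀ χ : E N → ℝ, ContDiff ℝ 1 χ → HasCompactSupport χ →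
      ∫ y, inner ℝ (gradient φ y) (gradient χ y) = ∫ y, ψ y * χ y)
    {e : Grad Ω} (he : ((e : L2v Ω) : E N → E N) =ᵐ[volume.restrict Ω] gradient φ) :
    |inner ℝ (y.fst - x.fst) e| ≤ h * (∫ y, |ψ y| ^ ((α + 2) / (α + 1))) ^ ((α + 1) / (α + 2)) *
      (∫ z in Ω, |y.snd z| ^ (α + 2)) ^ (1 / (α + 2)) := by
  obtain ⟨gv, w, h1, h2, h3, h4, _⟩ := step_data hh hxy
  have e0 : inner ℝ (h • gv) e = h * inner ℝ gv e :=
    real_inner_smul_left (F := Grad Ω) gv e h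
  rw [h4, e0]
  have hb : 0 < (α + 2) / (α + 1) := by positivity
  have e1 : inner ℝ gv e = ∫ z in Ω, ψ z * y.snd z := by
    rw [← H10_lap hφ hψ hψc hl h1]
    change inner ℝ (gv : L2v Ω) (e : L2v Ω) = _
    rw [MeasureTheory.L2.inner_def]
    apply integral_congr_ae
    filter_upwards [he] with z hz
    rw [hz, real_inner_comm]
  rw [e1, abs_mul, abs_of_pos hh, mul_assoc]
  apply mul_le_mul_of_nonneg_left _ hh.le
  have hψL : MemLp ψ (ENNReal.ofReal ((α + 2) / (α + 1))) (volume : Measure (E N)) :=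
    hψ.memLp_of_hasCompactSupport hψc
  have hψL' : MemLp (fun z => |ψ z|) (ENNReal.ofReal ((α + 2) / (α + 1))) (volume.restrict Ω) :=
    (hψL.restrict Ω).abs
  have hvL : MemLp (fun z => |y.snd z|) (ENNReal.ofReal (α + 2)) (volume.restrict Ω) := h2.abs
  have hol := integral_mul_le_Lp_mul_Lq_of_nonneg (step_conj hα)
    (Eventually.of_forall fun z => abs_nonneg (ψ z))
    (Eventually.of_forall fun z => abs_nonneg (y.snd z)) hψL' hvL
  have e2 : |∫ z in Ω, ψ z * y.snd z| ≤ ∫ z in Ω, |ψ z| * |y.snd z| := by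
    refine (abs_integral_le_integral_abs).trans (le_of_eq ?_)
    apply integral_congr_ae
    exact Eventually.of_forall fun z => abs_mul _ _
  refine e2.trans (hol.trans ?_)
  have e3 : 1 / ((α + 2) / (α + 1)) = (α + 1) / (α + 2) := one_div_div _ _
  rw [e3]
  apply mul_le_mul_of_nonneg_right
  · apply Real.rpow_le_rpow
    · apply integral_nonneg
      intro z
      positivity
    · apply setIntegral_le_integral
      · have h5 := hψL.integrable_norm_rpow (by positivity) ENNReal.ofReal_ne_top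
        rw [ENNReal.toReal_ofReal hb.le] at h5
        exact h5
      · exact Eventually.of_forall fun z => by positivity
    · positivity
  · apply Real.rpow_nonneg
    apply integral_nonneg
    intro z
    positivity

theorem iter_sum (hα : 0 < α) (s : ℕ → ℝ) (hs : ∀ k, 0 ≤ s k) {h : ℝ} (hh : 0 < h) (n : ℕ) :
    ∑ k ∈ Finset.range n, h * s k ^ (1 / (α + 2)) ≤
      (n * h) ^ ((α + 1) / (α + 2)) * (h * ∑ k ∈ Finset.range n, s k) ^ (1 / (α + 2)) := by
  have hα2 : 0 < α + 2 := by linarith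
  have h1 := Real.inner_le_Lp_mul_Lq_of_nonneg (Finset.range n) (f := fun _ => (1 : ℝ))
    (g := fun k => s k ^ (1 / (α + 2))) (step_conj hα) (fun _ _ => zero_le_one)
    (fun k _ => Real.rpow_nonneg (hs k) _)
  have e1 : ∀ k, (s k ^ (1 / (α + 2))) ^ (α + 2) = s k := by
    intro k
    rw [← Real.rpow_mul (hs k), one_div_mul_cancel hα2.ne', Real.rpow_one]
  simp only [one_mul, Real.one_rpow, Finset.sum_const, Finset.card_range, nsmul_eq_mul, mul_one,
    e1] at h1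
  have e3 : 1 / ((α + 2) / (α + 1)) = (α + 1) / (α + 2) := one_div_div _ _
  rw [e3] at h1
  rw [← Finset.mul_sum]
  have hS : 0 ≤ ∑ k ∈ Finset.range n, s k := Finset.sum_nonneg fun k _ => hs k
  have e4 : (n * h) ^ ((α + 1) / (α + 2)) * (h * ∑ k ∈ Finset.range n, s k) ^ (1 / (α + 2)) =
      h * ((n : ℝ) ^ ((α + 1) / (α + 2)) * (∑ k ∈ Finset.range n, s k) ^ (1 / (α + 2))) := by
    rw [Real.mul_rpow (Nat.cast_nonneg n) hh.le, Real.mul_rpow hh.le hS]
    have e5 : h = h ^ ((α + 1) / (α + 2)) * h ^ (1 / (α + 2)) := by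
      rw [← Real.rpow_add hh]
      have : (α + 1) / (α + 2) + 1 / (α + 2) = 1 := by
        field_simp
        ring
      rw [this, Real.rpow_one]
    nth_rewrite 3 [e5]
    ring
  rw [e4]
  exact mul_le_mul_of_nonneg_left h1 hh.le

theorem iter_test (ha : 0 < a) (hα : 0 < α) {h : ℝ} (hh : 0 < h) {x : ℕ → X Ω}
    (hx : ∀ k, (x (k + 1), h⁻¹ • (x k - x (k + 1))) ∈ waveOp Ω a α) {φ ψ : E N → ℝ} (hφ : IsTest Ω φ)
    (hψ : Continuous ψ) (hψc : HasCompactSupport ψ)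
    (hl : ∀ χ : E N → ℝ, ContDiff ℝ 1 χ → HasCompactSupport χ →
      ∫ y, inner ℝ (gradient φ y) (gradient χ y) = ∫ y, ψ y * χ y)
    {e : Grad Ω} (he : ((e : L2v Ω) : E N → E N) =ᵐ[volume.restrict Ω] gradient φ) (n : ℕ) :
    |inner ℝ ((x n).fst - (x 0).fst) e| ≤
      (∫ y, |ψ y| ^ ((α + 2) / (α + 1))) ^ ((α + 1) / (α + 2)) *
        (n * h) ^ ((α + 1) / (α + 2)) * (‖x 0‖ ^ 2 / (2 * a)) ^ (1 / (α + 2)) := by
  set Ψ := (∫ y, |ψ y| ^ ((α + 2) / (α + 1))) ^ ((α + 1) / (α + 2)) with hΨ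
  have hΨ0 : 0 ≤ Ψ := by
    apply Real.rpow_nonneg
    apply integral_nonneg
    intro z
    positivity
  set s : ℕ → ℝ := fun k => ∫ z in Ω, |(x (k + 1)).snd z| ^ (α + 2) with hs
  have hs0 : ∀ k, 0 ≤ s k := by
    intro k
    apply integral_nonneg
    intro z
    positivity
  have h1 : ∀ m : ℕ, |inner ℝ ((x m).fst - (x 0).fst) e| ≤
      Ψ * ∑ k ∈ Finset.range m, h * s k ^ (1 / (α + 2)) := by
    intro m
    induction m with
    | zero => simp
    | succ m ih =>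
      have e1 : (x (m + 1)).fst - (x 0).fst =
          ((x (m + 1)).fst - (x m).fst) + ((x m).fst - (x 0).fst) := by abel
      rw [e1, inner_add_left]
      refine (abs_add_le _ _).trans ?_
      have e2 := step_test ha hα hh (hx m) hφ hψ hψc hl he
      rw [Finset.sum_range_succ, mul_add]
      have e3 : h * Ψ * (∫ z in Ω, |(x (m + 1)).snd z| ^ (α + 2)) ^ (1 / (α + 2)) =
          Ψ * (h * s m ^ (1 / (α + 2))) := by
        rw [hs]
        ring
      rw [← hΨ, e3] at e2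
      linarith
  have h2 : ∀ m : ℕ, ‖x m‖ ^ 2 + 2 * a * (h * ∑ k ∈ Finset.range m, s k) ≤ ‖x 0‖ ^ 2 := by
    intro m
    induction m with
    | zero => simp
    | succ m ih =>
      have e2 := (step_energy ha hα hh (hx m)).2
      rw [Finset.sum_range_succ]
      have e3 : s m = ∫ z in Ω, |(x (m + 1)).snd z| ^ (α + 2) := rfl
      rw [← e3] at e2
      nlinarith
  have h3 : h * ∑ k ∈ Finset.range n, s k ≤ ‖x 0‖ ^ 2 / (2 * a) := by
    rw [le_div_iff₀ (by positivity)]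
    have := h2 n
    have h4 : 0 ≤ ‖x n‖ ^ 2 := by positivity
    linarith
  refine (h1 n).trans ?_
  rw [mul_assoc]
  apply mul_le_mul_of_nonneg_left _ hΨ0
  refine (iter_sum hα s hs0 hh n).trans ?_
  apply mul_le_mul_of_nonneg_left _ (by positivity)
  apply Real.rpow_le_rpow _ h3 (by positivity)
  exact mul_nonneg hh.le (Finset.sum_nonneg fun k _ => hs0 k)


end Pool.Agent.Helper420.SC
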