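import Pool.Agent.Helper420.SC.Defs
import Pool.Agent.Helper420.SC.L02
import Pool.Agent.Helper420.SC.L04
import Pool.Agent.Helper420.SC.L07
import Pool.Agent.Helper420.SC.L09
import Pool.Agent.Helper420.SC.L12
import Pool.Agent.Helper420.SC.L14
import Pool.Agent.Helper420.SC.Baire

set_option autoImplicit false

open MeasureTheory Set Filter Topology
open scoped ENNReal NNReal InnerProductSpace

namespace Pool.Agent.Helper420.SC


theorem generated_fixed {H : Type*} [NormedAddCommGroup H] [InnerProductSpace ℝ H]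
    {A : Set (H × H)} (hm : IsMonotone A)
    (hr : ∀ h : ℝ, 0 < h → ∀ x : H, ∃ y z : H, (y, z) ∈ A ∧ y + h • z = x)
    {S : ℝ → H → H} (hS : IsGenerated A S) (h00 : ((0 : H), (0 : H)) ∈ A) {t : ℝ} (ht : 0 ≤ t) :
    S t (0 : H) = 0 := by
  have hres : ∀ h : ℝ, 0 ≤ h → resolvent A h (0 : H) = 0 := by
    intro h hh
    rcases hh.eq_or_lt with h0 | h0
    · rw [← h0]; exact resolvent_zero _ _
    · have h1 := resolvent_spec hr h0 (0 : H)
      set y := resolvent A h (0 : H) with hy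
      have h2 := hm _ h1 _ h00
      have h2' : inner ℝ (y - 0) (h⁻¹ • (0 - y) - 0) = -(h⁻¹ * ‖y‖ ^ 2) := by
        rw [sub_zero, sub_zero, zero_sub, smul_neg, inner_neg_right, real_inner_smul_right,
          real_inner_self_eq_norm_sq]
      have h2'' : 0 ≤ -(h⁻¹ * ‖y‖ ^ 2) := h2' ▸ h2
      have h3 : 0 < h⁻¹ := inv_pos.mpr h0
      have h4 : ‖y‖ ^ 2 ≤ 0 := by
        by_contra hc
        push Not at hc
        have := mul_pos h3 hc
        linarith
      have h5 : ‖y‖ = 0 := by nlinarith [norm_nonneg y]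
      exact norm_eq_zero.mp h5
  refine tendsto_nhds_unique (hS t ht 0) ?_
  have : ∀ n : ℕ, (resolvent A (t / n))^[n] (0 : H) = 0 := by
    intro n
    exact Function.iterate_fixed (hres _ (by positivity)) n
  simp only [this]
  exact tendsto_const_nhds

variable {N : ℕ} {Ω : Set (E N)} {a α : ℝ}

instance instCompleteGrad : CompleteSpace (Grad Ω) :=
  (Submodule.isClosed_topologicalClosure _).completeSpace_coe

instance instCompleteX : CompleteSpace (X Ω) := by
  exact @WithLp.instProdCompleteSpace 2 (Grad Ω) (L2 Ω) _ _ instCompleteGrad inferInstance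

theorem grad_memLp {φ : E N → ℝ} (hφ : IsTest Ω φ) : MemLp (gradient φ) 2 (volume.restrict Ω) := by
  have hc : Continuous (gradient φ) := by
    have h1 : Continuous (fderiv ℝ φ) := hφ.1.continuous_fderiv (by simp)
    exact (InnerProductSpace.toDual ℝ (E N)).symm.continuous.comp h1
  have hs : HasCompactSupport (gradient φ) := by
    have h1 : HasCompactSupport (fderiv ℝ φ) := hφ.2.1.fderiv ℝ
    exact h1.comp_left (g := (InnerProductSpace.toDual ℝ (E N)).symm) (by simp)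
  exact (hc.memLp_of_hasCompactSupport hs).restrict Ω

theorem grad_mem {φ : E N → ℝ} (hφ : IsTest Ω φ) : (grad_memLp hφ).toLp ∈ Grad Ω := by
  refine Submodule.le_topologicalClosure _ (Submodule.subset_span ⟨φ, hφ, ?_⟩)
  exact (grad_memLp hφ).coeFn_toLp

/-- test gradients as elements of the gradient space -/
noncomputable def tG {φ : E N → ℝ} (hφ : IsTest Ω φ) : Grad Ω := ⟨(grad_memLp hφ).toLp, grad_mem hφ⟩

theorem tG_coe {φ : E N → ℝ} (hφ : IsTest Ω φ) :
    ((tG hφ : L2v Ω) : E N → E N) =ᵐ[volume.restrict Ω] gradient φ := (grad_memLp hφ).coeFn_toLp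

theorem gradient_off {φ : E N → ℝ} (hφ : IsTest Ω φ) {x : E N} (hx : x ∉ Ω) : gradient φ x = 0 := by
  have h1 : fderiv ℝ φ x = 0 := by
    have : x ∉ tsupport φ := fun h => hx (hφ.2.2 h)
    have h2 : x ∉ tsupport (fderiv ℝ φ) := fun h => this (tsupport_fderiv_subset ℝ h)
    exact image_eq_zero_of_notMem_tsupport h2
  simp [gradient, h1]

theorem norm_tG_sq {φ : E N → ℝ} (hφ : IsTest Ω φ) : ‖tG hφ‖ ^ 2 = ∫ y, ‖gradient φ y‖ ^ 2 := by
  have h1 : ‖tG hφ‖ ^ 2 = inner ℝ (tG hφ : L2v Ω) (tG hφ : L2v Ω) := by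
    rw [real_inner_self_eq_norm_sq]; rfl
  rw [h1, MeasureTheory.L2.inner_def]
  have h2 : ∫ y in Ω, inner ℝ ((tG hφ : L2v Ω) y) ((tG hφ : L2v Ω) y) = ∫ y in Ω, ‖gradient φ y‖ ^ 2 := by
    refine integral_congr_ae ?_
    filter_upwards [tG_coe hφ] with y hy
    rw [hy, real_inner_self_eq_norm_sq]
  rw [h2]
  refine setIntegral_eq_integral_of_forall_compl_eq_zero fun x hx => ?_
  simp [gradient_off hφ hx]

theorem energy_eq (x : X Ω) : energy x = ‖x‖ ^ 2 := by
  have h0 : ‖x‖ ^ 2 = ‖x.fst‖ ^ 2 + ‖x.snd‖ ^ 2 := WithLp.prod_norm_sq_eq_of_L2 x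
  have h1 : ‖x.fst‖ ^ 2 = ∫ y in Ω, ‖((x.fst : L2v Ω) : E N → E N) y‖ ^ 2 := by
    have : ‖x.fst‖ ^ 2 = inner ℝ (x.fst : L2v Ω) (x.fst : L2v Ω) := by
      rw [real_inner_self_eq_norm_sq]; rfl
    rw [this, MeasureTheory.L2.inner_def]
    simp only [real_inner_self_eq_norm_sq]
  have h2 : ‖x.snd‖ ^ 2 = ∫ y in Ω, (x.snd y) ^ 2 := by
    rw [← real_inner_self_eq_norm_sq, MeasureTheory.L2.inner_def]
    simp only [real_inner_self_eq_norm_sq, Real.norm_eq_abs, sq_abs]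
  rw [h0, h1, h2, energy, add_comm, integral_add]
  · have := (Lp.memLp x.snd).integrable_norm_rpow (by norm_num) (by norm_num)
    simpa using this
  · have := (Lp.memLp (x.fst : L2v Ω)).integrable_norm_rpow (by norm_num) (by norm_num)
    simpa using this

/-- The estimate for the trajectories. -/
theorem traj_test (ha : 0 < a) (hα : 0 < α) {S : ℝ → X Ω → X Ω} (hS : IsGenerated (waveOp Ω a α) S)
    {φ ψ : E N → ℝ} (hφ : IsTest Ω φ) (hψ : Continuous ψ) (hψc : HasCompactSupport ψ)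
    (hl : ∀ χ : E N → ℝ, ContDiff ℝ 1 χ → HasCompactSupport χ →
      ∫ y, inner ℝ (gradient φ y) (gradient χ y) = ∫ y, ψ y * χ y) {t : ℝ} (ht : 0 ≤ t) (x : X Ω) :
    |inner ℝ ((S t x).fst - x.fst) (tG hφ)| ≤
      (∫ y, |ψ y| ^ ((α + 2) / (α + 1))) ^ ((α + 1) / (α + 2)) *
        t ^ ((α + 1) / (α + 2)) * (‖x‖ ^ 2 / (2 * a)) ^ (1 / (α + 2)) := by
  have hlim := hS t ht x
  have hf : Tendsto (fun n : ℕ => |inner ℝ (((resolvent (waveOp Ω a α) (t / n))^[n] x).fst - x.fst)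
      (tG hφ)|) atTop (𝓝 |inner ℝ ((S t x).fst - x.fst) (tG hφ)|) := by
    have hc : Continuous (fun y : X Ω => |inner ℝ (y.fst - x.fst) (tG hφ)|) := by
      have h1 : Continuous (fun y : X Ω => y.fst) := WithLp.continuous_fst 2 _ _
      fun_prop
    exact (hc.tendsto _).comp hlim
  refine le_of_tendsto hf ?_
  filter_upwards [eventually_gt_atTop 0] with n hn
  have hn' : (0 : ℝ) < n := by exact_mod_cast hn
  rcases ht.eq_or_lt with h0 | h0
  · have e : (resolvent (waveOp Ω a α) (t / n))^[n] x = x := by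
      rw [← h0, zero_div]
      have : resolvent (waveOp Ω a α) 0 = id := funext fun y => resolvent_zero _ y
      rw [this, Function.iterate_id]; rfl
    rw [e, sub_self, inner_zero_left, abs_zero]
    positivity
  · have hh : 0 < t / n := by positivity
    have key := iter_test (N := N) (Ω := Ω) ha hα hh
      (x := fun k => (resolvent (waveOp Ω a α) (t / n))^[k] x) (fun k => by
        simp only [Function.iterate_succ_apply']
        exact resolvent_spec (fun h hh x => waveOp_range ha hα hh x) hh _) hφ hψ hψc hl (tG_coe hφ) n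
    have e : (n : ℝ) * (t / n) = t := by field_simp
    rw [e] at key
    simpa using key

/-- zero is a rest point -/
theorem zero_fixed (ha : 0 < a) (hα : 0 < α) {S : ℝ → X Ω → X Ω}
    (hS : IsGenerated (waveOp Ω a α) S) {t : ℝ} (ht : 0 ≤ t) : S t (0 : X Ω) = 0 := by
  have hr : ∀ h : ℝ, 0 < h → ∀ x : X Ω, ∃ y z : X Ω, (y, z) ∈ waveOp Ω a α ∧ y + h • z = x :=
    fun h hh x => waveOp_range ha hα hh x
  have h00 : ((0 : X Ω), (0 : X Ω)) ∈ waveOp Ω a α := by
    refine ⟨0, 0, 0, 0, ?_, ?_, ?_, ?_⟩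
    · refine subset_closure ⟨fun _ => 0, ⟨contDiff_const, HasCompactSupport.zero, by simp [tsupport]⟩,
        Lp.coeFn_zero _ _ _, ?_⟩
      refine (Lp.coeFn_zero (E N) 2 (volume.restrict Ω)).trans (Eventually.of_forall fun y => ?_)
      simp [gradient]
    · have h := (MemLp.zero (p := ENNReal.ofReal (α + 2)) (μ := (volume : Measure (E N)).restrict Ω)
        (ε := ℝ))
      exact h.ae_eq (Lp.coeFn_zero _ _ _).symm
    · intro p _ _
      have e0 : ((0 : L2 Ω) : E N → ℝ) =ᵐ[volume.restrict Ω] 0 := Lp.coeFn_zero _ _ _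
      have e1 : (((0 : Grad Ω) : L2v Ω) : E N → E N) =ᵐ[volume.restrict Ω] 0 := Lp.coeFn_zero _ _ _
      have h1 : ∫ y in Ω, (0 : L2 Ω) y * p.1 y = 0 := by
        rw [integral_congr_ae (g := fun _ => (0 : ℝ)) (by filter_upwards [e0] with y hy; rw [hy]; simp)]
        simp
      have h2 : ∫ y in Ω, inner ℝ (((0 : Grad Ω) : L2v Ω) y) (p.2 y) = 0 := by
        rw [integral_congr_ae (g := fun _ => (0 : ℝ)) (by filter_upwards [e1] with y hy; rw [hy]; simp)]
        simp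
      have h3 : ∫ y in Ω, |(0 : L2 Ω) y| ^ α * (0 : L2 Ω) y * p.1 y = 0 := by
        rw [integral_congr_ae (g := fun _ => (0 : ℝ)) (by filter_upwards [e0] with y hy; rw [hy]; simp)]
        simp
      rw [h1, h2, h3]; ring
    · have e1 : (0 : X Ω) = WithLp.toLp 2 ((0 : Grad Ω), (0 : L2 Ω)) := rfl
      have e2 : (-(0 : Grad Ω)) = 0 := neg_zero
      rw [e2, ← e1]
  exact generated_fixed (waveOp_mono ha hα) hr hS h00 ht

/-- Supercritical damping in dimension `N ≥ 3`: generic data have no decay rate at all. -/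
theorem supercritical (hN : 3 ≤ N) (hΩo : IsOpen Ω) (hne : Ω.Nonempty) (ha : 0 < a)
    (hα : 4 / ((N : ℝ) - 2) < α) {S : ℝ → X Ω → X Ω} (hS : IsGenerated (waveOp Ω a α) S)
    {ρ : ℝ → ℝ} (hρ : ∀ t, 0 ≤ t → 0 < ρ t) (hρ0 : Tendsto ρ atTop (𝓝 0)) :
    {x : X Ω | ∀ C : ℝ, ∃ t : ℝ, 0 ≤ t ∧ C * ρ t < energy (S t x)} ∈ residual (X Ω) ∧
    Dense {x : X Ω | ∀ C : ℝ, ∃ t : ℝ, 0 ≤ t ∧ C * ρ t < energy (S t x)} := by
  have hN2 : (0 : ℝ) < (N : ℝ) - 2 := by
    have : (3 : ℝ) ≤ N := by exact_mod_cast hN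
    linarith
  have hα0 : 0 < α := lt_trans (by positivity) hα
  have hr : ∀ h : ℝ, 0 < h → ∀ x : X Ω, ∃ y z : X Ω, (y, z) ∈ waveOp Ω a α ∧ y + h • z = x :=
    fun h hh x => waveOp_range ha hα0 hh x
  simp only [energy_eq]
  refine baire (fun t ht x y => generated_nonexp (waveOp_mono ha hα0) hr hS ht x y) ?_ hρ hρ0
  intro T R δ hδ
  -- constant of the estimate
  set K : ℝ := (max T 0) ^ ((α + 1) / (α + 2)) * ((max R 0) ^ 2 / (2 * a)) ^ (1 / (α + 2)) with hK
  have hK0 : 0 ≤ K := by positivity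
  obtain ⟨φ, ψ, hφ, hψ, hψc, hl, hnorm, hsmall⟩ :=
    exists_conc (Ω := Ω) hN hΩo hne hα (δ := δ / (K + 1)) (by positivity)
  refine ⟨WithLp.toLp 2 (tG hφ, 0), ?_, ?_⟩
  · have h1 : ‖(WithLp.toLp 2 (tG hφ, (0 : L2 Ω)) : X Ω)‖ ^ 2 = 1 := by
      rw [WithLp.prod_norm_sq_eq_of_L2]
      show ‖tG hφ‖ ^ 2 + ‖(0 : L2 Ω)‖ ^ 2 = 1
      rw [norm_tG_sq hφ, hnorm, norm_zero]; norm_num
    have h2 : 0 ≤ ‖(WithLp.toLp 2 (tG hφ, (0 : L2 Ω)) : X Ω)‖ := norm_nonneg _
    nlinarith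
  · intro x hx t ht htT
    have h1 : inner ℝ (S t x - x) (WithLp.toLp 2 (tG hφ, (0 : L2 Ω)) : X Ω)
        = inner ℝ ((S t x).fst - x.fst) (tG hφ) := by
      rw [WithLp.prod_inner_apply]
      simp
    rw [h1]
    refine (traj_test ha hα0 hS hφ hψ hψc hl ht x).trans ?_
    have h2 : t ^ ((α + 1) / (α + 2)) ≤ (max T 0) ^ ((α + 1) / (α + 2)) :=
      Real.rpow_le_rpow ht (htT.trans (le_max_left _ _)) (by positivity)
    have h3 : (‖x‖ ^ 2 / (2 * a)) ^ (1 / (α + 2)) ≤ ((max R 0) ^ 2 / (2 * a)) ^ (1 / (α + 2)) := by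
      refine Real.rpow_le_rpow (by positivity) ?_ (by positivity)
      have : ‖x‖ ≤ max R 0 := hx.trans (le_max_left _ _)
      gcongr
    have h4 : 0 ≤ (∫ y, |ψ y| ^ ((α + 2) / (α + 1))) ^ ((α + 1) / (α + 2)) := by
      refine Real.rpow_nonneg (integral_nonneg fun y => by positivity) _
    calc (∫ y, |ψ y| ^ ((α + 2) / (α + 1))) ^ ((α + 1) / (α + 2)) * t ^ ((α + 1) / (α + 2)) *
          (‖x‖ ^ 2 / (2 * a)) ^ (1 / (α + 2))
        ≤ δ / (K + 1) * (max T 0) ^ ((α + 1) / (α + 2)) *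
          ((max R 0) ^ 2 / (2 * a)) ^ (1 / (α + 2)) := by gcongr
      _ = δ * (K / (K + 1)) := by rw [hK]; ring
      _ ≤ δ * 1 := by
          gcongr
          rw [div_le_one (by positivity)]; linarith
      _ = δ := mul_one δ

end Pool.Agent.Helper420.SC
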